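import Mathlib

/-! A polynomial identity from vanishing products of commutators -/

set_option autoImplicit false
set_option linter.unusedVariables false

namespace Pool.Agent.Helper693.A1

/-- multilinear forms with integer coefficients and coefficient `1` at the identity -/
def PIForm {E : Type*} [Ring E] (n : ℕ) (F : (Fin n → E) → E) : Prop :=
  ∃ c : Equiv.Perm (Fin n) → ℤ, c 1 = 1 ∧
    ∀ x : Fin n → E, F x = ∑ σ : Equiv.Perm (Fin n), c σ • (List.ofFn (fun i => x (σ i))).prod

theorem PIForm.two {E : Type*} [Ring E] :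
    PIForm 2 (fun x : Fin 2 → E => x 0 * x 1 - x 1 * x 0) := by
  refine ⟨fun σ => (Equiv.Perm.sign σ : ℤ), by simp, fun x => ?_⟩
  have hu : (Finset.univ : Finset (Equiv.Perm (Fin 2))) = {1, Equiv.swap 0 1} := by decide
  rw [hu, Finset.sum_pair (by decide)]
  simp [List.ofFn_succ, sub_eq_add_neg]

theorem PIForm.zero {E : Type*} [Ring E] : PIForm 0 (fun _ : Fin 0 → E => 1) := by
  refine ⟨fun _ => 1, rfl, fun x => ?_⟩
  simp

/-- block permutation -/
def blk {n m : ℕ} (p : Equiv.Perm (Fin n) × Equiv.Perm (Fin m)) : Equiv.Perm (Fin (n + m)) :=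
  (finSumFinEquiv.symm.trans (Equiv.sumCongr p.1 p.2)).trans finSumFinEquiv

theorem blk_castAdd {n m : ℕ} (p : Equiv.Perm (Fin n) × Equiv.Perm (Fin m)) (i : Fin n) :
    blk p (Fin.castAdd m i) = Fin.castAdd m (p.1 i) := by
  simp [blk]

theorem blk_natAdd {n m : ℕ} (p : Equiv.Perm (Fin n) × Equiv.Perm (Fin m)) (i : Fin m) :
    blk p (Fin.natAdd n i) = Fin.natAdd n (p.2 i) := by
  simp [blk]

theorem blk_one {n m : ℕ} (p : Equiv.Perm (Fin n) × Equiv.Perm (Fin m)) : blk p = 1 ↔ p = 1 := by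
  constructor
  · intro h
    ext i
    · have h1 := blk_castAdd p i
      rw [h, Equiv.Perm.one_apply] at h1
      have h2 := Fin.castAdd_injective _ _ h1
      rw [← h2]
      rfl
    · have h1 := blk_natAdd p i
      rw [h, Equiv.Perm.one_apply] at h1
      have h2 := Fin.natAdd_injective _ _ h1
      rw [← h2]
      rfl
  · rintro rfl
    ext k
    refine Fin.addCases (fun i => ?_) (fun i => ?_) k
    · rw [blk_castAdd]; rfl
    · rw [blk_natAdd]; rfl

theorem PIForm.mul {E : Type*} [Ring E] {n m : ℕ} {F : (Fin n → E) → E} {G : (Fin m → E) → E}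
    (hF : PIForm n F) (hG : PIForm m G) :
    PIForm (n + m) (fun x => F (fun i => x (Fin.castAdd m i)) * G (fun j => x (Fin.natAdd n j))) := by
  obtain ⟨c, hc1, hc⟩ := hF
  obtain ⟨e, he1, he⟩ := hG
  refine ⟨fun τ => ∑ p : Equiv.Perm (Fin n) × Equiv.Perm (Fin m),
    if blk p = τ then c p.1 * e p.2 else 0, ?_, fun x => ?_⟩
  · simp only [blk_one]
    rw [Finset.sum_ite_eq' Finset.univ (1 : Equiv.Perm (Fin n) × Equiv.Perm (Fin m))
      (fun p => c p.1 * e p.2)]
    simp [hc1, he1]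
  · simp only
    rw [hc, he, Finset.sum_mul_sum, ← Finset.sum_product']
    simp only [Finset.sum_smul]
    rw [Finset.sum_comm]
    apply Finset.sum_congr rfl
    intro p _
    simp only [ite_smul, zero_smul]
    rw [Finset.sum_ite_eq, if_pos (Finset.mem_univ _), List.ofFn_add, List.prod_append]
    have hcast : ∀ i : Fin n, blk p (Fin.castLE (Nat.le_add_right n m) i) =
        Fin.castAdd m (p.1 i) := fun i => blk_castAdd p i
    simp only [hcast, blk_natAdd]
    rw [smul_mul_smul_comm]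

theorem commutator_form {E : Type*} [Ring E] (d : ℕ) :
    ∃ (n : ℕ) (F : (Fin n → E) → E), PIForm n F ∧
      ∀ x, ∃ s t : Fin d → E, F x = (List.ofFn (fun i => s i * t i - t i * s i)).prod := by
  induction d with
  | zero => exact ⟨0, _, PIForm.zero, fun x => ⟨0, 0, by simp⟩⟩
  | succ d ih =>
    obtain ⟨n, F, hF, h⟩ := ih
    refine ⟨2 + n, _, PIForm.two.mul hF, fun x => ?_⟩
    obtain ⟨s, t, hst⟩ := h (fun j => x (Fin.natAdd 2 j))
    refine ⟨Fin.cons (x (Fin.castAdd n 0)) s, Fin.cons (x (Fin.castAdd n 1)) t, ?_⟩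
    rw [List.ofFn_succ, List.prod_cons]
    simp only [Fin.cons_zero, Fin.cons_succ]
    rw [← hst]

/-- PI identity from vanishing products of commutators -/
theorem pi_of_commutators {E : Type*} [Ring E] (d : ℕ)
    (h : ∀ s t : Fin d → E, (List.ofFn (fun i => s i * t i - t i * s i)).prod = 0) :
    ∃ n : ℕ, ∃ c : Equiv.Perm (Fin n) → ℤ, c 1 = 1 ∧
      ∀ x : Fin n → E,
        ∑ σ : Equiv.Perm (Fin n), c σ • (List.ofFn (fun i => x (σ i))).prod = 0 := by
  obtain ⟨n, F, ⟨c, hc1, hc⟩, hF⟩ := commutator_form (E := E) d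
  refine ⟨n, c, hc1, fun x => ?_⟩
  obtain ⟨s, t, hst⟩ := hF x
  rw [← hc, hst, h]

end Pool.Agent.Helper693.A1
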