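import Mathlib

/-! Algebraic operators without stable decompositions -/

set_option autoImplicit false
set_option linter.unusedVariables false

namespace Pool.Agent.Helper693.A2

open Polynomial

section Aux451

variable {L V : Type*} [Field L] [AddCommGroup V] [Module L V] (T : Module.End L V)

theorem act_mul (a b : L[X]) (v : V) : aeval T (a * b) v = aeval T a (aeval T b v) := by
  rw [map_mul]; rfl

theorem act_comm (a b : L[X]) (v : V) : aeval T a (aeval T b v) = aeval T b (aeval T a v) := by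
  rw [← act_mul, mul_comm, act_mul]

theorem stable_act {W : Submodule L V} (hW : ∀ v ∈ W, T v ∈ W) (a : L[X]) :
    ∀ v ∈ W, aeval T a v ∈ W := by
  induction a using Polynomial.induction_on' with
  | add a b ha hb =>
    intro v hv
    rw [map_add, LinearMap.add_apply]
    exact W.add_mem (ha v hv) (hb v hv)
  | monomial n c =>
    induction n with
    | zero =>
      intro v hv
      rw [Polynomial.monomial_zero_left, aeval_C, Module.algebraMap_end_apply]
      exact W.smul_mem c hv
    | succ n ih =>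
      intro v hv
      rw [← Polynomial.monomial_mul_X, act_mul, aeval_X]
      exact ih _ (hW v hv)

/-- the map `a ↦ a(T) v` -/
noncomputable def cyc (v : V) : L[X] →ₗ[L] V :=
  (LinearMap.applyₗ v) ∘ₗ (aeval T : L[X] →ₐ[L] Module.End L V).toLinearMap

theorem cyc_apply (v : V) (a : L[X]) : cyc T v a = aeval T a v := rfl

theorem cyc_stable (v : V) : ∀ u ∈ LinearMap.range (cyc T v), T u ∈ LinearMap.range (cyc T v) := by
  rintro _ ⟨a, rfl⟩
  refine ⟨X * a, ?_⟩
  rw [cyc_apply, act_mul, aeval_X]; rfl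

theorem mem_cyc_self (v : V) : v ∈ LinearMap.range (cyc T v) := by
  refine ⟨1, ?_⟩
  rw [cyc_apply, map_one]; rfl

theorem cyc_finite (v : V) {m : L[X]} (hm : m.Monic) (hm0 : aeval T m = 0) :
    Module.Finite L (LinearMap.range (cyc T v)) := by
  have h1 : LinearMap.range (cyc T v) = (Polynomial.degreeLT L m.natDegree).map (cyc T v) := by
    apply le_antisymm
    · rintro _ ⟨a, rfl⟩
      by_cases hm1 : m = 1
      · refine ⟨0, Submodule.zero_mem _, ?_⟩
        rw [map_zero, cyc_apply]
        have : aeval T a = aeval T (a * m) := by rw [hm1, mul_one]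
        rw [this, map_mul, hm0, mul_zero]; rfl
      · refine ⟨a %ₘ m, ?_, ?_⟩
        · rw [SetLike.mem_coe, Polynomial.mem_degreeLT]
          rw [← Polynomial.degree_eq_natDegree hm.ne_zero]
          exact Polynomial.degree_modByMonic_lt a hm
        · have h2 := Polynomial.modByMonic_add_div a m
          rw [cyc_apply, cyc_apply]
          conv_rhs => rw [← h2]
          rw [map_add, map_mul, hm0, zero_mul, add_zero]
    · exact Submodule.map_le_iff_le_comap.mpr fun a _ => ⟨a, rfl⟩
  rw [h1]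
  have : Module.Finite L (Polynomial.degreeLT L m.natDegree) :=
    Module.Finite.equiv (Polynomial.degreeLTEquiv L m.natDegree).symm
  infer_instance

theorem prime_power [Nontrivial V]
    (hind : ∀ p q : Submodule L V, (∀ v ∈ p, T v ∈ p) → (∀ v ∈ q, T v ∈ q) → IsCompl p q →
      p = ⊥ ∨ q = ⊥) (hT : IsIntegral L T) :
    ∃ (p : L[X]) (n : ℕ), Irreducible p ∧ aeval T (p ^ (n + 1)) = 0 ∧ aeval T (p ^ n) ≠ 0 := by
  set m := minpoly L T with hm
  have hm0 : aeval T m = 0 := minpoly.aeval L T
  have hmu : ¬ IsUnit m := minpoly.not_isUnit L T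
  have hmne : m ≠ 0 := minpoly.ne_zero hT
  obtain ⟨p, hp, hpm⟩ := WfDvdMonoid.exists_irreducible_factor hmu hmne
  obtain ⟨k, b, hpb, hmb⟩ := WfDvdMonoid.max_power_factor hmne hp
  have hk : k ≠ 0 := by
    rintro rfl
    rw [pow_zero, one_mul] at hmb
    rw [hmb] at hpm
    exact hpb hpm
  obtain ⟨n, rfl⟩ := Nat.exists_eq_succ_of_ne_zero hk
  have hcop : IsCoprime (p ^ (n + 1)) b := ((hp.coprime_iff_not_dvd).mpr hpb).pow_left
  have hcompl : IsCompl (LinearMap.ker (aeval T (p ^ (n + 1)))) (LinearMap.ker (aeval T b)) := by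
    constructor
    · exact Polynomial.disjoint_ker_aeval_of_isCoprime T hcop
    · rw [codisjoint_iff, Polynomial.sup_ker_aeval_eq_ker_aeval_mul_of_coprime T hcop, ← hmb, hm0,
        LinearMap.ker_zero]
  have hst : ∀ a : L[X], ∀ v ∈ LinearMap.ker (aeval T a), T v ∈ LinearMap.ker (aeval T a) := by
    intro a v hv
    rw [LinearMap.mem_ker] at hv ⊢
    have := act_comm T a X v
    rw [aeval_X] at this
    rw [this, hv, map_zero]
  have hbu : IsUnit b := by
    rcases hind _ _ (hst _) (hst _) hcompl with h1 | h1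
    · -- kernel of `p ^ (n+1)` trivial, so `b(T) = 0`
      exfalso
      rw [h1] at hcompl
      have h2 : LinearMap.ker (aeval T b) = ⊤ := by
        have := hcompl.sup_eq_top
        rwa [bot_sup_eq] at this
      have h3 : aeval T b = 0 := LinearMap.ker_eq_top.mp h2
      have h4 : m ∣ b := minpoly.dvd L T h3
      exact hpb (hpm.trans h4)
    · rw [h1] at hcompl
      have h2 : LinearMap.ker (aeval T (p ^ (n + 1))) = ⊤ := by
        have := hcompl.sup_eq_top
        rwa [sup_bot_eq] at this
      have h3 : aeval T (p ^ (n + 1)) = 0 := LinearMap.ker_eq_top.mp h2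
      have h4 : m ∣ p ^ (n + 1) := minpoly.dvd L T h3
      rw [hmb] at h4
      have h5 : p ^ (n + 1) * b ∣ p ^ (n + 1) * 1 := by rw [mul_one]; exact h4
      exact isUnit_of_dvd_one ((mul_dvd_mul_iff_left (pow_ne_zero _ hp.ne_zero)).mp h5)
  refine ⟨p, n, hp, ?_, ?_⟩
  · obtain ⟨c, hc⟩ := hbu.exists_right_inv
    have : p ^ (n + 1) = m * c := by
      rw [hmb, mul_assoc, hc, mul_one]
    rw [this, map_mul, hm0, zero_mul]
  · intro h3
    have h4 : m ∣ p ^ n := minpoly.dvd L T h3
    have h5 : p ^ (n + 1) ∣ p ^ n := (Dvd.intro b hmb.symm).trans h4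
    have h6 : p ^ n * p ∣ p ^ n * 1 := by rw [mul_one, ← pow_succ]; exact h5
    exact hp.not_isUnit (isUnit_of_dvd_one ((mul_dvd_mul_iff_left (pow_ne_zero _ hp.ne_zero)).mp h6))

/-- maximal stable complement candidates -/
theorem exists_max (C : Submodule L V) : ∃ W : Submodule L V, (∀ v ∈ W, T v ∈ W) ∧ W ⊓ C = ⊥ ∧
    ∀ W' : Submodule L V, (∀ v ∈ W', T v ∈ W') → W' ⊓ C = ⊥ → W ≤ W' → W' ≤ W := by
  obtain ⟨W, -, hW⟩ := zorn_le_nonempty₀ {W : Submodule L V | (∀ v ∈ W, T v ∈ W) ∧ W ⊓ C = ⊥}
    (by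
      intro c hc hchain y hy
      have hne : c.Nonempty := ⟨y, hy⟩
      have hdir : DirectedOn (· ≤ ·) c := hchain.directedOn
      refine ⟨sSup c, ⟨?_, ?_⟩, fun z hz => le_sSup hz⟩
      · intro v hv
        obtain ⟨W, hWc, hvW⟩ := (Submodule.mem_sSup_of_directed hne hdir).mp hv
        exact (Submodule.mem_sSup_of_directed hne hdir).mpr ⟨W, hWc, (hc hWc).1 v hvW⟩
      · rw [eq_bot_iff]
        rintro v ⟨hv, hvC⟩
        obtain ⟨W, hWc, hvW⟩ := (Submodule.mem_sSup_of_directed hne hdir).mp hv
        rw [← (hc hWc).2]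
        exact ⟨hvW, hvC⟩) ⊥ ⟨by
          intro v hv
          rw [Submodule.mem_bot] at hv ⊢
          rw [hv, map_zero], bot_inf_eq _⟩
  exact ⟨W, hW.1.1, hW.1.2, fun W' h1 h2 h3 => hW.2 ⟨h1, h2⟩ h3⟩

end Aux451

/-- an algebraic operator without nontrivial stable decomposition lives on a finite-dimensional space -/
theorem finite_of_algebraic_indec {L V : Type*} [Field L] [AddCommGroup V] [Module L V]
    (T : Module.End L V)
    (hind : ∀ p q : Submodule L V, (∀ v ∈ p, T v ∈ p) → (∀ v ∈ q, T v ∈ q) → IsCompl p q →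
      p = ⊥ ∨ q = ⊥)
    (q : Polynomial L) (hq : q ≠ 0) (hq0 : Polynomial.aeval T q = 0) :
    Module.Finite L V := by
  rcases subsingleton_or_nontrivial V with hV | hV
  · infer_instance
  have hT : IsIntegral L T := by
    apply IsAlgebraic.isIntegral
    exact ⟨q, hq, hq0⟩
  obtain ⟨p, n, hp, hp1, hp0⟩ := prime_power T hind hT
  obtain ⟨v, hv⟩ : ∃ v, aeval T (p ^ n) v ≠ 0 := by
    by_contra hcon
    push Not at hcon
    exact hp0 (LinearMap.ext hcon)
  set C := LinearMap.range (cyc T v) with hC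
  have hCst := cyc_stable T v
  rw [← hC] at hCst
  obtain ⟨W, hWst, hWC, hWmax⟩ := exists_max T C
  have hsup : W ⊔ C = ⊤ := by
    by_contra hne
    have hSst : ∀ u ∈ W ⊔ C, T u ∈ W ⊔ C := by
      intro u hu
      obtain ⟨w, hw, c, hc, rfl⟩ := Submodule.mem_sup.mp hu
      rw [map_add]
      exact Submodule.add_mem_sup (hWst w hw) (hCst c hc)
    obtain ⟨z0, hz0⟩ : ∃ z, z ∉ W ⊔ C := by
      by_contra hcon
      push Not at hcon
      exact hne (eq_top_iff.mpr fun z _ => hcon z)
    have hex : ∃ i, aeval T (p ^ i) z0 ∈ W ⊔ C := ⟨n + 1, by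
      rw [hp1]; exact Submodule.zero_mem _⟩
    classical
    obtain ⟨z, hz, hpz⟩ : ∃ z, z ∉ W ⊔ C ∧ aeval T p z ∈ W ⊔ C := by
      have h1 := Nat.find_spec hex
      have h2 : Nat.find hex ≠ 0 := by
        intro h0
        rw [h0, pow_zero, map_one] at h1
        exact hz0 h1
      obtain ⟨i, hi⟩ := Nat.exists_eq_succ_of_ne_zero h2
      have h3 := Nat.find_min hex (m := i) (by omega)
      refine ⟨aeval T (p ^ i) z0, h3, ?_⟩
      rw [← act_mul, ← pow_succ']
      rw [hi] at h1
      exact h1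
    obtain ⟨w, hw, c, hc, hwc⟩ := Submodule.mem_sup.mp hpz
    have hc2 : ∃ a, aeval T a v = c := hc
    obtain ⟨a, rfl⟩ := hc2
    have h1 : aeval T (p ^ n) (aeval T a v) = 0 := by
      have h2 : aeval T (p ^ n) (aeval T p z) = 0 := by
        rw [← act_mul, ← pow_succ, hp1]; rfl
      rw [← hwc, map_add] at h2
      have h3 : aeval T (p ^ n) (aeval T a v) = - aeval T (p ^ n) w := eq_neg_of_add_eq_zero_right h2
      have h4 : aeval T (p ^ n) (aeval T a v) ∈ W ⊓ C := by
        refine ⟨?_, stable_act T hCst _ _ hc⟩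
        rw [h3]
        exact W.neg_mem (stable_act T hWst _ _ hw)
      rw [hWC] at h4
      exact (Submodule.mem_bot L).mp h4
    have hpa : p ∣ a := by
      by_contra hnd
      obtain ⟨s, r, hsr⟩ := (hp.coprime_iff_not_dvd).mpr hnd
      apply hv
      have h2 : aeval T (s * p + r * a) v = v := by rw [hsr, map_one]; rfl
      have h3 : aeval T (p ^ n) (aeval T (s * p + r * a) v) = 0 := by
        rw [← act_mul, mul_add, map_add, LinearMap.add_apply]
        have e1 : p ^ n * (s * p) = s * p ^ (n + 1) := by ring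
        have e2 : p ^ n * (r * a) = r * (p ^ n * a) := by ring
        rw [e1, e2, act_mul, hp1, act_mul, act_mul, h1, LinearMap.zero_apply, map_zero, map_zero,
          add_zero]
      rwa [h2] at h3
    obtain ⟨a1, rfl⟩ := hpa
    set z1 := z - aeval T a1 v with hz1
    have hz1S : z1 ∉ W ⊔ C := by
      intro h2
      apply hz
      have h3 : z = z1 + aeval T a1 v := by rw [hz1]; abel
      rw [h3]
      exact Submodule.add_mem _ h2 (Submodule.mem_sup_right ⟨a1, rfl⟩)
    have hpz1 : aeval T p z1 = w := by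
      rw [hz1, map_sub, ← hwc, act_mul]; abel
    have h5 := hWmax (W ⊔ LinearMap.range (cyc T z1)) (by
      intro u hu
      obtain ⟨w', hw', c', hc', rfl⟩ := Submodule.mem_sup.mp hu
      rw [map_add]
      exact Submodule.add_mem_sup (hWst w' hw') (cyc_stable T z1 c' hc')) (by
      rw [eq_bot_iff]
      rintro u ⟨hu, huC⟩
      obtain ⟨w1, hw1, _, ⟨b, rfl⟩, rfl⟩ := Submodule.mem_sup.mp hu
      rw [cyc_apply] at huC ⊢
      by_cases hpb : p ∣ b
      · obtain ⟨b', rfl⟩ := hpb
        rw [mul_comm, act_mul, hpz1] at huC ⊢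
        rw [← hWC]
        exact ⟨W.add_mem hw1 (stable_act T hWst _ _ hw), huC⟩
      · exfalso
        obtain ⟨s, r, hsr⟩ := (hp.coprime_iff_not_dvd).mpr hpb
        apply hz1S
        have h6 : z1 = aeval T s w + aeval T r ((w1 + aeval T b z1) - w1) := by
          rw [add_sub_cancel_left, ← hpz1, ← act_mul, ← act_mul, ← LinearMap.add_apply, ← map_add,
            hsr, map_one]; rfl
        rw [h6, map_sub]
        apply Submodule.add_mem _ (Submodule.mem_sup_left (stable_act T hWst _ _ hw))
        exact Submodule.sub_mem _ (Submodule.mem_sup_right (stable_act T hCst _ _ huC))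
          (Submodule.mem_sup_left (stable_act T hWst _ _ hw1))) le_sup_left
    exact hz1S (Submodule.mem_sup_left (h5 (Submodule.mem_sup_right (mem_cyc_self T z1))))
  have hcompl : IsCompl W C := IsCompl.of_eq hWC hsup
  have hCne : C ≠ ⊥ := by
    intro h0
    have h1 : v ∈ C := mem_cyc_self T v
    rw [h0, Submodule.mem_bot] at h1
    exact hv (by rw [h1, map_zero])
  have hW0 : W = ⊥ := (hind W C hWst hCst hcompl).resolve_right hCne
  rw [hW0, bot_sup_eq] at hsup
  have hfin : Module.Finite L C := cyc_finite T v (minpoly.monic hT) (minpoly.aeval L T)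
  rw [hsup] at hfin
  exact Module.Finite.equiv (Submodule.topEquiv (R := L) (M := V))

end Pool.Agent.Helper693.A2
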