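import Mathlib

/-! Bijective scalars -/

set_option autoImplicit false
set_option linter.unusedVariables false

namespace Pool.Agent.Helper693.A3

open Polynomial

/-- over a domain all of whose nonzero elements act bijectively, an indecomposable module is a
one-dimensional vector space over the fraction field, so its endomorphisms commute -/
theorem comm_of_bijective {D V : Type*} [CommRing D] [IsDomain D] [AddCommGroup V] [Module D V]
    (hbij : ∀ d : D, d ≠ 0 → Function.Bijective (fun v : V => d • v))
    (hind : ∀ p q : Submodule D V, IsCompl p q → p = ⊥ ∨ q = ⊥)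
    (s t : Module.End D V) : s * t = t * s := by
  classical
  have hinj : ∀ (d : D), d ≠ 0 → ∀ v w : V, d • v = d • w → v = w := fun d hd v w h => (hbij d hd).1 h
  by_cases hV : ∀ v : V, v = 0
  · ext v
    rw [hV v, map_zero, map_zero]
  push Not at hV
  obtain ⟨v, hv⟩ := hV
  let S := nonZeroDivisors D
  let K := FractionRing D
  let V' := LocalizedModule S V
  letI : Module K V' := inferInstanceAs (Module (Localization S) (LocalizedModule S V))
  haveI : IsScalarTower D K V' := inferInstanceAs (IsScalarTower D (Localization S) (LocalizedModule S V))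
  let f : V →ₗ[D] V' := LocalizedModule.mkLinearMap S V
  have hfinj : Function.Injective f := by
    intro x y h
    have h1 : LocalizedModule.mk x (1 : S) = LocalizedModule.mk y 1 := h
    rw [LocalizedModule.mk_eq] at h1
    obtain ⟨u, hu⟩ := h1
    simp only [one_smul] at hu
    exact hinj u.1 (nonZeroDivisors.ne_zero u.2) _ _ hu
  have hfsurj : Function.Surjective f := by
    intro z
    induction z using LocalizedModule.induction_on with
    | _ w d =>
      obtain ⟨w0, hw0⟩ := (hbij d.1 (nonZeroDivisors.ne_zero d.2)).2 w
      refine ⟨w0, ?_⟩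
      show LocalizedModule.mk w0 (1 : S) = LocalizedModule.mk w d
      rw [LocalizedModule.mk_eq]
      refine ⟨1, ?_⟩
      simp only [one_smul]
      exact hw0
  let e : V ≃ₗ[D] V' := LinearEquiv.ofBijective f ⟨hfinj, hfsurj⟩
  obtain ⟨Q, hQ⟩ := Submodule.exists_isCompl (Submodule.span K {e v})
  let p : Submodule D V := ((Submodule.span K {e v}).restrictScalars D).comap e.toLinearMap
  let q : Submodule D V := (Q.restrictScalars D).comap e.toLinearMap
  have hpq : IsCompl p q := by
    constructor
    · rw [Submodule.disjoint_def]
      intro x hx hx'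
      have := Submodule.disjoint_def.mp hQ.disjoint (e x) hx hx'
      exact (LinearEquiv.map_eq_zero_iff e).mp this
    · rw [Submodule.codisjoint_iff_exists_add_eq]
      intro x
      obtain ⟨y, z, hy, hz, hyz⟩ := Submodule.codisjoint_iff_exists_add_eq.mp hQ.codisjoint (e x)
      refine ⟨e.symm y, e.symm z, ?_, ?_, ?_⟩
      · show e (e.symm y) ∈ Submodule.span K {e v}
        rw [e.apply_symm_apply]; exact hy
      · show e (e.symm z) ∈ Q
        rw [e.apply_symm_apply]; exact hz
      · rw [← map_add, hyz, e.symm_apply_apply]
  have hvp : v ∈ p := Submodule.mem_span_singleton_self (e v)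
  have hp : p = ⊤ := by
    rcases hind p q hpq with h | h
    · rw [h] at hvp
      exact absurd ((Submodule.mem_bot D).mp hvp) hv
    · exact eq_top_of_isCompl_bot (h ▸ hpq)
  -- every vector is a quotient
  have hrat : ∀ w : V, ∃ a b : D, b ≠ 0 ∧ b • w = a • v := by
    intro w
    have hw : w ∈ p := by rw [hp]; trivial
    obtain ⟨c, hc⟩ := Submodule.mem_span_singleton.mp (show e w ∈ Submodule.span K {e v} from hw)
    obtain ⟨a, b, hb, hab⟩ := IsFractionRing.div_surjective (A := D) c
    refine ⟨a, b, nonZeroDivisors.ne_zero hb, ?_⟩
    apply e.injective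
    rw [map_smul, map_smul, ← hc]
    have h1 : (b • (c • e v) : V') = (algebraMap D K b * c) • e v := by
      rw [mul_smul, algebraMap_smul]
    rw [h1, ← hab, mul_div_cancel₀, algebraMap_smul]
    intro h0
    exact nonZeroDivisors.ne_zero hb ((IsFractionRing.injective D K) (by rw [h0, map_zero]))
  have hstv : s (t v) = t (s v) := by
    obtain ⟨a1, b1, hb1, h1⟩ := hrat (s v)
    obtain ⟨a2, b2, hb2, h2⟩ := hrat (t v)
    apply hinj (b1 * b2) (mul_ne_zero hb1 hb2)
    have e1 : (b1 * b2) • s (t v) = (a2 * a1) • v := by
      rw [mul_smul, ← map_smul, h2, map_smul, smul_comm, h1, ← mul_smul]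
    have e2 : (b1 * b2) • t (s v) = (a2 * a1) • v := by
      rw [mul_comm b1 b2, mul_smul, ← map_smul, h1, map_smul, smul_comm, h2, ← mul_smul, mul_comm]
    rw [e1, e2]
  ext w
  obtain ⟨a, b, hb, h⟩ := hrat w
  apply hinj b hb
  show b • s (t w) = b • t (s w)
  calc b • s (t w) = s (t (b • w)) := by rw [map_smul, map_smul]
    _ = s (t (a • v)) := by rw [h]
    _ = a • s (t v) := by rw [map_smul, map_smul]
    _ = a • t (s v) := by rw [hstv]
    _ = t (s (a • v)) := by rw [map_smul, map_smul]
    _ = t (s (b • w)) := by rw [h]
    _ = b • t (s w) := by rw [map_smul, map_smul]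

/-- the version for one operator `T` over a field -/
theorem comm_of_poly_bijective {L V : Type*} [Field L] [AddCommGroup V] [Module L V]
    (T : Module.End L V)
    (hbij : ∀ q : Polynomial L, q ≠ 0 → Function.Bijective (Polynomial.aeval T q : Module.End L V))
    (hind : ∀ p q : Submodule L V, (∀ v ∈ p, T v ∈ p) → (∀ v ∈ q, T v ∈ q) → IsCompl p q →
      p = ⊥ ∨ q = ⊥)
    (s t : Module.End L V) (hs : s * T = T * s) (ht : t * T = T * t) : s * t = t * s := by
  let W := Module.AEval' T
  let o : V ≃ₗ[L] W := Module.AEval'.of T
  have hX : ∀ m : V, (X : L[X]) • o m = o (T m) := fun m => Module.AEval'.X_smul_of T m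
  have hend : ∀ u : Module.End L V, u * T = T * u → ∃ u' : Module.End L[X] W, ∀ m, u' (o m) = o (u m) := by
    intro u hu
    refine ⟨LinearMap.ofAEval T (o.toLinearMap ∘ₗ u) (fun m => ?_), fun m => rfl⟩
    show o (u (T m)) = (X : L[X]) • o (u m)
    rw [hX]
    congr 1
    exact congrFun (congrArg DFunLike.coe hu) m
  obtain ⟨s', hs'⟩ := hend s hs
  obtain ⟨t', ht'⟩ := hend t ht
  have key : s' * t' = t' * s' := by
    refine comm_of_bijective ?_ ?_ s' t'
    · intro q hq
      have h1 := hbij q hq
      have h2 : (fun w : W => q • w) = o ∘ (Polynomial.aeval T q : Module.End L V) ∘ o.symm := by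
        funext w
        obtain ⟨m, rfl⟩ := o.surjective w
        show q • o m = o (aeval T q (o.symm (o m)))
        rw [o.symm_apply_apply]
        exact (Module.AEval.of_aeval_smul T q m).symm
      rw [h2]
      exact o.bijective.comp (h1.comp o.symm.bijective)
    · intro p q hpq
      have h1 := hind ((p.restrictScalars L).comap o.toLinearMap) ((q.restrictScalars L).comap o.toLinearMap)
        (fun v hv => by
          show o (T v) ∈ p
          rw [← hX]; exact p.smul_mem _ hv)
        (fun v hv => by
          show o (T v) ∈ q
          rw [← hX]; exact q.smul_mem _ hv) ?_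
      · rcases h1 with h | h
        · left
          rw [Submodule.eq_bot_iff] at h ⊢
          intro x hx
          obtain ⟨m, rfl⟩ := o.surjective x
          rw [h m hx, map_zero]
        · right
          rw [Submodule.eq_bot_iff] at h ⊢
          intro x hx
          obtain ⟨m, rfl⟩ := o.surjective x
          rw [h m hx, map_zero]
      · constructor
        · rw [Submodule.disjoint_def]
          intro x hx hx'
          have := Submodule.disjoint_def.mp hpq.disjoint (o x) hx hx'
          exact (LinearEquiv.map_eq_zero_iff o).mp this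
        · rw [Submodule.codisjoint_iff_exists_add_eq]
          intro x
          obtain ⟨y, z, hy, hz, hyz⟩ := Submodule.codisjoint_iff_exists_add_eq.mp hpq.codisjoint (o x)
          refine ⟨o.symm y, o.symm z, ?_, ?_, ?_⟩
          · show o (o.symm y) ∈ _
            rw [o.apply_symm_apply]; exact hy
          · show o (o.symm z) ∈ _
            rw [o.apply_symm_apply]; exact hz
          · rw [← map_add, hyz, o.symm_apply_apply]
  ext m
  apply o.injective
  show o (s (t m)) = o (t (s m))
  rw [← hs', ← ht', ← ht', ← hs']
  exact congrFun (congrArg DFunLike.coe key) (o m)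

end Pool.Agent.Helper693.A3
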