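import Pool.Agent.Helper693.Gt.Node0

/-! Periodic words -/

set_option autoImplicit false
set_option linter.unusedVariables false

namespace Pool.Agent.Helper693.A4

theorem fac_length (P : ℕ → Bool) (n : ℕ) : ∀ i, (fac P i n).length = n := by
  induction n with
  | zero => intro i; rfl
  | succ n ih => intro i; simp [fac, ih]

theorem fac_add (P : ℕ → Bool) (m n : ℕ) : ∀ i, fac P i (m + n) = fac P i m ++ fac P (i + m) n := by
  induction m with
  | zero => intro i; simp [fac]
  | succ m ih =>
    intro i
    have h1 : m + 1 + n = (m + n) + 1 := by omega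
    have h2 : i + 1 + m = i + (m + 1) := by omega
    rw [h1]
    simp only [fac]
    rw [ih (i + 1), h2]
    rfl

theorem fac_shift (Q : ℕ → Bool) (a n : ℕ) : ∀ i, fac (fun k => Q (a + k)) i n = fac Q (a + i) n := by
  induction n with
  | zero => intro i; rfl
  | succ n ih =>
    intro i
    simp only [fac]
    rw [ih (i + 1)]
    rfl

theorem fac_inj (Q : ℕ → Bool) (n : ℕ) : ∀ i j, fac Q i n = fac Q j n → ∀ k < n, Q (i + k) = Q (j + k) := by
  induction n with
  | zero => intro i j _ k hk; omega
  | succ n ih =>
    intro i j h k hk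
    simp only [fac] at h
    have h1 := (List.cons.inj h).1
    have h2 := (List.cons.inj h).2
    cases k with
    | zero => simpa using h1
    | succ k =>
      have := ih (i + 1) (j + 1) h2 k (by omega)
      have e1 : i + 1 + k = i + (k + 1) := by omega
      have e2 : j + 1 + k = j + (k + 1) := by omega
      rwa [e1, e2] at this

/-- a factorial language of bounded complexity and unbounded length contains a periodic word -/
theorem exists_periodic (alive : List Bool → Prop)
    (hpre : ∀ u v, alive (u ++ v) → alive u) (hsuf : ∀ u v, alive (u ++ v) → alive v)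
    (b : ℕ) (hb : ∀ (n : ℕ) (s : Finset (List Bool)), (∀ w ∈ s, alive w ∧ w.length = n) → s.card ≤ b)
    (hunb : ∀ n : ℕ, ∃ w, alive w ∧ n ≤ w.length) :
    ∃ (P : ℕ → Bool) (d : ℕ), 0 < d ∧ (∀ i, P (i + d) = P i) ∧
      (∀ i j, i < d → j < d → (∀ k, P (i + k) = P (j + k)) → i = j) ∧
      ∀ i n, alive (fac P i n) := by
  classical
  let good : List Bool → Prop := fun w => ∀ n : ℕ, ∃ v, alive (w ++ v) ∧ n ≤ v.length
  have good_nil : good [] := fun n => by simpa using hunb n
  have good_ext : ∀ w, good w → ∃ c, good (w ++ [c]) := by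
    intro w hw
    by_contra hcon
    push Not at hcon
    have ht := hcon true
    have hf := hcon false
    simp only [good, not_forall, not_exists, not_and, not_le] at ht hf
    obtain ⟨n1, hn1⟩ := ht
    obtain ⟨n2, hn2⟩ := hf
    obtain ⟨v, hv1, hv2⟩ := hw (n1 + n2 + 1)
    cases v with
    | nil => simp at hv2
    | cons c v =>
      have hv3 : n1 + n2 ≤ v.length := by
        have : (c :: v).length = v.length + 1 := rfl
        omega
      have hv4 : alive (w ++ [c] ++ v) := by simpa using hv1
      cases c with
      | true => have := hn1 v hv4; omega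
      | false => have := hn2 v hv4; omega
  choose! nxt hnxt using good_ext
  let W : ℕ → List Bool := fun n => Nat.rec [] (fun _ w => w ++ [nxt w]) n
  have hW0 : W 0 = [] := rfl
  have hWs : ∀ n, W (n + 1) = W n ++ [nxt (W n)] := fun n => rfl
  have hWg : ∀ n, good (W n) := by
    intro n
    induction n with
    | zero => exact good_nil
    | succ n ih => rw [hWs]; exact hnxt _ ih
  let Q : ℕ → Bool := fun n => nxt (W n)
  have hWQ : ∀ n, W n = fac Q 0 n := by
    intro n
    induction n with
    | zero => rfl
    | succ n ih =>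
      rw [hWs, fac_add Q n 1 0, ← ih]
      simp [fac, Q]
  have hA0 : ∀ n, alive (fac Q 0 n) := by
    intro n
    rw [← hWQ]
    obtain ⟨v, hv, _⟩ := hWg n 0
    exact hpre _ _ hv
  have hA : ∀ i n, alive (fac Q i n) := by
    intro i n
    have h1 := hA0 (i + n)
    rw [fac_add Q i n 0, Nat.zero_add] at h1
    exact hsuf _ _ h1
  have hpig : ∃ i j, i < j ∧ ∀ k, Q (i + k) = Q (j + k) := by
    by_contra hcon
    push Not at hcon
    have hcon' : ∀ i j, ∃ k, i < j → Q (i + k) ≠ Q (j + k) := by
      intro i j
      by_cases h : i < j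
      · obtain ⟨k, hk⟩ := hcon i j h
        exact ⟨k, fun _ => hk⟩
      · exact ⟨0, fun h' => absurd h' h⟩
    choose K hK using hcon'
    let n : ℕ := ∑ i ∈ Finset.range (b + 1), ∑ j ∈ Finset.range (b + 1), (K i j + 1)
    have hKn : ∀ i j, i < b + 1 → j < b + 1 → K i j < n := by
      intro i j hi hj
      have h1 : K i j + 1 ≤ ∑ j ∈ Finset.range (b + 1), (K i j + 1) :=
        Finset.single_le_sum (f := fun j => K i j + 1) (fun _ _ => Nat.zero_le _) (Finset.mem_range.2 hj)
      have h2 : ∑ j ∈ Finset.range (b + 1), (K i j + 1) ≤ n :=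
        Finset.single_le_sum (f := fun i => ∑ j ∈ Finset.range (b + 1), (K i j + 1))
          (fun _ _ => Nat.zero_le _) (Finset.mem_range.2 hi)
      omega
    have hinj : Set.InjOn (fun i => fac Q i n) (Finset.range (b + 1) : Set ℕ) := by
      intro i hi j hj hij
      simp only [Finset.coe_range, Set.mem_Iio] at hi hj
      rcases lt_trichotomy i j with h | h | h
      · exact absurd (fac_inj Q n i j hij _ (hKn i j hi hj)) (hK i j h)
      · exact h
      · exact absurd (fac_inj Q n j i hij.symm _ (hKn j i hj hi)) (hK j i h)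
    have hcard := hb n ((Finset.range (b + 1)).image (fun i => fac Q i n)) (by
      intro w hw
      obtain ⟨i, _, rfl⟩ := Finset.mem_image.1 hw
      exact ⟨hA i n, fac_length Q n i⟩)
    rw [Finset.card_image_of_injOn hinj, Finset.card_range] at hcard
    omega
  obtain ⟨i₀, j₀, hij, hper⟩ := hpig
  let P : ℕ → Bool := fun k => Q (i₀ + k)
  have hexP : ∃ d, 0 < d ∧ ∀ k, P (k + d) = P k := by
    refine ⟨j₀ - i₀, by omega, fun k => ?_⟩
    show Q (i₀ + (k + (j₀ - i₀))) = Q (i₀ + k)
    rw [hper k]
    congr 1
    omega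
  have hd := Nat.find_spec hexP
  have hmin := fun m (hm : m < Nat.find hexP) => Nat.find_min hexP hm
  set d := Nat.find hexP with hd_def
  have hkey : ∀ i j, i < j → j < d → ¬ (∀ k, P (i + k) = P (j + k)) := by
    intro i j hij' hjd h
    apply hmin (j - i) (by omega)
    refine ⟨by omega, fun k => ?_⟩
    have h1 := hd.2 k
    have h2 := h (k + d - i)
    have e1 : i + (k + d - i) = k + d := by omega
    have e2 : j + (k + d - i) = (k + (j - i)) + d := by omega
    rw [e1, e2] at h2
    rw [← hd.2 (k + (j - i)), ← h2, h1]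
  refine ⟨P, d, hd.1, hd.2, ?_, ?_⟩
  · intro i j hi hj h
    rcases lt_trichotomy i j with hlt | heq | hgt
    · exact absurd h (hkey i j hlt hj)
    · exact heq
    · exact absurd (fun k => (h k).symm) (hkey j i hgt hi)
  · intro i n
    rw [fac_shift Q i₀ n i]
    exact hA _ _

end Pool.Agent.Helper693.A4
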