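import Mathlib

/-! The ring of glued polynomials and its localization -/

set_option autoImplicit false
set_option linter.unusedVariables false

namespace Pool.Agent.Helper693

open MvPolynomial

/-- the polynomial ring in countably many variables -/
abbrev Pol : Type := MvPolynomial ℕ ℚ

/-- substitution `t_i := c` -/
noncomputable def ev (i : ℕ) (c : ℚ) : Pol →ₐ[ℚ] Pol :=
  aeval (fun j => if j = i then C c else X j)

/-- `s_i = t_i (t_i - 1)` -/
noncomputable def sp (i : ℕ) : Pol := X i * (X i - 1)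

/-- the ring of polynomials with equal values at `t_i = 0` and `t_i = 1` for all `i` -/
noncomputable def Agl : Subalgebra ℚ Pol where
  carrier := {f | ∀ i, ev i 0 f = ev i 1 f}
  mul_mem' := by
    intro a b ha hb i
    rw [map_mul, map_mul, ha i, hb i]
  add_mem' := by
    intro a b ha hb i
    rw [map_add, map_add, ha i, hb i]
  algebraMap_mem' := by
    intro r i
    rw [AlgHom.commutes, AlgHom.commutes]

theorem mem_Agl {f : Pol} : f ∈ Agl ↔ ∀ i, ev i 0 f = ev i 1 f := Iff.rfl

/-- elements outside all the primes `t_i = 0` -/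
noncomputable def Sm : Submonoid Agl where
  carrier := {a | ∀ i, ev i 0 (a : Pol) ≠ 0}
  mul_mem' := by
    intro a b ha hb i
    rw [MulMemClass.coe_mul, map_mul]
    exact mul_ne_zero (ha i) (hb i)
  one_mem' := by
    intro i
    rw [OneMemClass.coe_one, map_one]
    exact one_ne_zero

theorem mem_Sm {a : Agl} : a ∈ Sm ↔ ∀ i, ev i 0 (a : Pol) ≠ 0 := Iff.rfl

/-- the ring -/
def Rg : Type := Localization Sm

noncomputable instance : CommRing Rg := inferInstanceAs (CommRing (Localization Sm))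

noncomputable instance : Algebra Agl Rg := inferInstanceAs (Algebra Agl (Localization Sm))

instance : IsLocalization Sm Rg := inferInstanceAs (IsLocalization Sm (Localization Sm))

/-- the prime of `Agl` given by `t_i = 0` (equivalently `t_i = 1`) -/
noncomputable def mA (i : ℕ) : Ideal Agl := RingHom.ker (((ev i 0).comp Agl.val).toRingHom)

theorem mem_mA {i : ℕ} {a : Agl} : a ∈ mA i ↔ ev i 0 (a : Pol) = 0 := Iff.rfl

/-- the node primes of `Rg` -/
noncomputable def mR (i : ℕ) : Ideal Rg := (mA i).map (algebraMap Agl Rg)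

theorem ev_X_self (i : ℕ) (c : ℚ) : ev i c (X i) = C c := by
  simp [ev]

theorem ev_X_ne {i j : ℕ} (h : j ≠ i) (c : ℚ) : ev i c (X j) = X j := by
  simp [ev, h]

theorem ev_C (i : ℕ) (c a : ℚ) : ev i c (C a) = C a := by
  simp [ev]

theorem ev_sp_self (i : ℕ) (c : ℚ) (hc : c = 0 ∨ c = 1) : ev i c (sp i) = 0 := by
  rcases hc with rfl | rfl <;> simp [sp, ev_X_self]

theorem ev_sp_ne {i j : ℕ} (h : j ≠ i) (c : ℚ) : ev i c (sp j) = sp j := by
  simp [sp, ev_X_ne h]

theorem sp_ne_zero (i : ℕ) : sp i ≠ 0 := by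
  unfold sp
  refine mul_ne_zero (X_ne_zero i) ?_
  intro h
  have := congrArg (ev i 0) h
  simp [ev_X_self] at this

/-- dividing with remainder -/
theorem X_sub_C_dvd (i : ℕ) (c : ℚ) (f : Pol) : (X i - C c) ∣ f - ev i c f := by
  induction f using MvPolynomial.induction_on with
  | C a => rw [ev_C]; simp
  | add p q hp hq =>
    rw [map_add]
    have : p + q - (ev i c p + ev i c q) = (p - ev i c p) + (q - ev i c q) := by ring
    rw [this]
    exact dvd_add hp hq
  | mul_X p j hp =>
    rw [map_mul]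
    by_cases h : j = i
    · subst h
      rw [ev_X_self]
      have : p * X j - ev j c p * C c = (p - ev j c p) * X j + ev j c p * (X j - C c) := by ring
      rw [this]
      exact dvd_add (Dvd.dvd.mul_right hp _) (Dvd.intro_left _ rfl)
    · rw [ev_X_ne h]
      have : p * X j - ev i c p * X j = (p - ev i c p) * X j := by ring
      rw [this]
      exact Dvd.dvd.mul_right hp _

theorem X_sub_C_dvd_of_ev {i : ℕ} {c : ℚ} {f : Pol} (h : ev i c f = 0) : (X i - C c) ∣ f := by
  have := X_sub_C_dvd i c f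
  rwa [h, sub_zero] at this

theorem sp_dvd_of_ev {i : ℕ} {f : Pol} (h0 : ev i 0 f = 0) (h1 : ev i 1 f = 0) : sp i ∣ f := by
  obtain ⟨g, rfl⟩ := X_sub_C_dvd_of_ev h0
  have h2 : ev i 1 g = 0 := by
    rw [map_mul] at h1
    simpa [ev_X_self] using h1
  obtain ⟨k, rfl⟩ := X_sub_C_dvd_of_ev h2
  refine ⟨k, ?_⟩
  simp [sp]
  ring

/-- substitutions only change the substituted variable -/
theorem ev_of_notMem_vars {i : ℕ} {c : ℚ} {f : Pol} (h : i ∉ f.vars) : ev i c f = f := by
  have : ev i c f = aeval (X : ℕ → Pol) f := by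
    unfold ev
    rw [aeval_def, aeval_def]
    refine eval₂Hom_congr' rfl ?_ rfl
    intro j hj _
    have : j ≠ i := fun e => h (e ▸ hj)
    simp [this]
  rw [this, aeval_X_left_apply]

theorem ev_comm {i j : ℕ} (h : i ≠ j) (c d : ℚ) (f : Pol) :
    ev i c (ev j d f) = ev j d (ev i c f) := by
  have : (ev i c).comp (ev j d) = (ev j d).comp (ev i c) := by
    apply MvPolynomial.algHom_ext
    intro k
    simp only [AlgHom.comp_apply]
    by_cases h1 : k = i
    · subst h1
      rw [ev_X_ne h, ev_X_self, ev_C]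
    · by_cases h2 : k = j
      · subst h2
        rw [ev_X_self, ev_X_ne h1, ev_C, ev_X_self]
      · rw [ev_X_ne h2, ev_X_ne h1, ev_X_ne h2]
  exact congrArg (fun φ => φ f) this

theorem ev_ev (i : ℕ) (c d : ℚ) (f : Pol) : ev i c (ev i d f) = ev i d f := by
  have : (ev i c).comp (ev i d) = ev i d := by
    apply MvPolynomial.algHom_ext
    intro k
    simp only [AlgHom.comp_apply]
    by_cases h1 : k = i
    · subst h1
      rw [ev_X_self, ev_C]
    · rw [ev_X_ne h1, ev_X_ne h1]
  exact congrArg (fun φ => φ f) this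

theorem sp_mem (i : ℕ) : sp i ∈ Agl := by
  intro j
  by_cases h : i = j
  · subst h
    rw [ev_sp_self i 0 (Or.inl rfl), ev_sp_self i 1 (Or.inr rfl)]
  · rw [ev_sp_ne h, ev_sp_ne h]

theorem mul_prod_sp_mem (f : Pol) (F : Finset ℕ) (h : f.vars ⊆ F) :
    f * ∏ j ∈ F, sp j ∈ Agl := by
  intro i
  rw [map_mul, map_mul]
  by_cases hi : i ∈ F
  · have h0 : ∀ c : ℚ, (c = 0 ∨ c = 1) → ev i c (∏ j ∈ F, sp j) = 0 := by
      intro c hc
      rw [map_prod]
      exact Finset.prod_eq_zero hi (ev_sp_self i c hc)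
    rw [h0 0 (Or.inl rfl), h0 1 (Or.inr rfl), mul_zero, mul_zero]
  · have hv : i ∉ f.vars := fun hh => hi (h hh)
    rw [ev_of_notMem_vars hv, ev_of_notMem_vars hv, map_prod, map_prod]
    congr 1
    refine Finset.prod_congr rfl ?_
    intro j hj
    have : j ≠ i := fun e => hi (e ▸ hj)
    rw [ev_sp_ne this, ev_sp_ne this]

theorem ev_mem {f : Pol} (hf : f ∈ Agl) (i : ℕ) (c : ℚ) : ev i c f ∈ Agl := by
  intro j
  by_cases h : j = i
  · subst h
    rw [ev_ev, ev_ev]
  · rw [ev_comm h, ev_comm h, hf j]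

theorem Sm_le_nonZeroDivisors : Sm ≤ nonZeroDivisors Agl := by
  intro a ha
  rw [mem_nonZeroDivisors_iff_ne_zero]
  rintro rfl
  exact ha 0 (by simp)

instance : IsDomain Rg := IsLocalization.isDomain_localization Sm_le_nonZeroDivisors

instance mA_prime (i : ℕ) : (mA i).IsPrime := RingHom.ker_isPrime _

theorem algebraMap_injective : Function.Injective (algebraMap Agl Rg) :=
  IsLocalization.injective Rg Sm_le_nonZeroDivisors

theorem mA_disjoint (i : ℕ) : Disjoint (Sm : Set Agl) (mA i : Set Agl) := by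
  rw [Set.disjoint_left]
  intro a ha hb
  exact ha i hb

instance mR_prime (i : ℕ) : (mR i).IsPrime :=
  IsLocalization.isPrime_of_isPrime_disjoint Sm Rg (mA i) (mA_prime i) (mA_disjoint i)

theorem comap_mR (i : ℕ) : (mR i).comap (algebraMap Agl Rg) = mA i :=
  IsLocalization.under_map_of_isPrime_disjoint Sm Rg (mA_prime i) (mA_disjoint i)

theorem algebraMap_mem_mR {i : ℕ} {a : Agl} : algebraMap Agl Rg a ∈ mR i ↔ ev i 0 (a : Pol) = 0 := by
  rw [← mem_mA, ← comap_mR i, Ideal.mem_comap]

theorem mR_ne_bot (i : ℕ) : mR i ≠ ⊥ := by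
  intro h
  have h1 : algebraMap Agl Rg ⟨sp i, sp_mem i⟩ ∈ mR i :=
    algebraMap_mem_mR.2 (ev_sp_self i 0 (Or.inl rfl))
  rw [h, Ideal.mem_bot, map_eq_zero_iff _ algebraMap_injective] at h1
  exact sp_ne_zero i (congrArg Subtype.val h1)

theorem mR_injective : Function.Injective mR := by
  intro i j h
  by_contra hne
  have h1 : algebraMap Agl Rg ⟨sp i, sp_mem i⟩ ∈ mR i :=
    algebraMap_mem_mR.2 (ev_sp_self i 0 (Or.inl rfl))
  rw [h, algebraMap_mem_mR] at h1
  simp only at h1
  rw [ev_sp_ne hne] at h1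
  exact sp_ne_zero i h1

end Pool.Agent.Helper693
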