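import Pool.Agent.Helper693.Gt.Node0

/-! Alive words -/

set_option autoImplicit false
set_option linter.unusedVariables false

namespace Pool.Agent.Helper693.N1


section words
variable {S G : Type*} [Ring S] [AddCommGroup G] [Module S G]

theorem hi_le_lo (x y : Module.End S G) (hyx : y * x = 0) (u v v' : List Bool) :
    act x y (u ++ true :: v) ⊤ ≤ act x y (u ++ false :: v') ⊥ := by
  rw [act_append, act_append]
  apply act_mono
  simp only [act]
  intro m hm
  rw [mem_act1] at hm
  obtain ⟨m', -, hm'⟩ := hm
  simp only [Stp] at hm'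
  show m ∈ Submodule.comap y _
  rw [Submodule.mem_comap, hm']
  have h : y (x m') = (y * x) m' := rfl
  rw [h, hyx, LinearMap.zero_apply]
  exact Submodule.zero_mem _

theorem alive_left (x y : Module.End S G) (u v : List Bool) (h : Alive x y (u ++ v)) :
    Alive x y u := by
  intro he
  apply h
  rw [act_append, act_append]
  apply le_antisymm
  · exact act_mono x y u (act_mono x y v bot_le)
  · calc act x y u (act x y v ⊤) ≤ act x y u ⊤ := act_mono x y u le_top
      _ = act x y u ⊥ := he.symm
      _ ≤ act x y u (act x y v ⊥) := act_mono x y u bot_le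

theorem alive_right (x y : Module.End S G) (u v : List Bool) (h : Alive x y (u ++ v)) :
    Alive x y v := by
  intro he
  apply h
  rw [act_append, act_append, he]

theorem split_diff : ∀ (w w2 : List Bool), w.length = w2.length → w ≠ w2 →
    ∃ u v v' : List Bool, (w = u ++ true :: v ∧ w2 = u ++ false :: v') ∨
      (w2 = u ++ true :: v ∧ w = u ++ false :: v')
  | [], [], _, h => absurd rfl h
  | [], (_ :: _), h, _ => by simp at h
  | (_ :: _), [], h, _ => by simp at h
  | (a :: w), (a2 :: w2), hl, hne => by
    by_cases ha : a = a2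
    · subst ha
      have hl' : w.length = w2.length := by simpa using hl
      have hne' : w ≠ w2 := fun h => hne (by rw [h])
      obtain ⟨u, v, v', h⟩ := split_diff w w2 hl' hne'
      refine ⟨a :: u, v, v', ?_⟩
      rcases h with ⟨h1, h2⟩ | ⟨h1, h2⟩
      · left
        exact ⟨by rw [h1]; rfl, by rw [h2]; rfl⟩
      · right
        exact ⟨by rw [h1]; rfl, by rw [h2]; rfl⟩
    · cases a <;> cases a2
      · exact absurd rfl ha
      · exact ⟨[], w2, w, Or.inr ⟨rfl, rfl⟩⟩
      · exact ⟨[], w, w2, Or.inl ⟨rfl, rfl⟩⟩
      · exact absurd rfl ha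

theorem act_top_ne (x y : Module.End S G) (hyx : y * x = 0) (u v v' : List Bool)
    (h2 : Alive x y (u ++ false :: v')) :
    act x y (u ++ true :: v) ⊤ ≠ act x y (u ++ false :: v') ⊤ := by
  intro h
  apply h2
  apply le_antisymm
  · exact act_mono x y _ bot_le
  · rw [← h]
    exact hi_le_lo x y hyx u v v'

theorem act_comparable (x y : Module.End S G) (hyx : y * x = 0) (w w2 : List Bool)
    (hl : w.length = w2.length) (hne : w ≠ w2) (h1 : Alive x y w) (h2 : Alive x y w2) :
    act x y w ⊤ < act x y w2 ⊤ ∨ act x y w2 ⊤ < act x y w ⊤ := by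
  obtain ⟨u, v, v', ⟨e1, e2⟩ | ⟨e1, e2⟩⟩ := split_diff w w2 hl hne
  · left
    subst e1 e2
    exact lt_of_le_of_ne ((hi_le_lo x y hyx u v v').trans (act_mono x y _ bot_le))
      (act_top_ne x y hyx u v v' h2)
  · right
    subst e1 e2
    exact lt_of_le_of_ne ((hi_le_lo x y hyx u v v').trans (act_mono x y _ bot_le))
      (act_top_ne x y hyx u v v' h1)

theorem alive_card (x y : Module.End S G) (hyx : y * x = 0) [IsNoetherian S G] [IsArtinian S G] :
    ∃ b : ℕ, ∀ (n : ℕ) (s : Finset (List Bool)),
      (∀ w ∈ s, Alive x y w ∧ w.length = n) → s.card ≤ b := by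
  have hfin : ∀ N : Submodule S G, Order.height N ≠ ⊤ := fun N => (Submodule.height_lt_top N).ne
  have hmono : ∀ N N' : Submodule S G, N < N' → (Order.height N).toNat < (Order.height N').toNat := by
    intro N N' h
    have h1 := Submodule.height_strictMono (R := S) (M := G) h
    rw [← ENat.natCast_toNat (hfin N), ← ENat.natCast_toNat (hfin N')] at h1
    exact_mod_cast h1
  have hle : ∀ N : Submodule S G, (Order.height N).toNat ≤ (Order.height (⊤ : Submodule S G)).toNat := by
    intro N
    apply ENat.toNat_le_toNat
    · exact Order.height_mono le_top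
    · exact hfin ⊤
  refine ⟨(Order.height (⊤ : Submodule S G)).toNat + 1, ?_⟩
  intro n s hs
  have hinj : Set.InjOn (fun w => (Order.height (act x y w ⊤)).toNat) (s : Set (List Bool)) := by
    intro w hw w2 hw2 h
    by_contra hne
    have h1 := hs w hw
    have h2 := hs w2 hw2
    simp only at h
    rcases act_comparable x y hyx w w2 (h1.2.trans h2.2.symm) hne h1.1 h2.1 with h3 | h3
    · have := hmono _ _ h3
      omega
    · have := hmono _ _ h3
      omega
  rw [← Finset.card_image_of_injOn hinj, ← Finset.card_range ((Order.height (⊤ : Submodule S G)).toNat + 1)]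
  apply Finset.card_le_card
  intro k hk
  rw [Finset.mem_image] at hk
  obtain ⟨w, -, rfl⟩ := hk
  rw [Finset.mem_range]
  exact Nat.lt_succ_of_le (hle _)

end words

end Pool.Agent.Helper693.N1
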