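import Pool.Agent.Helper693.Gt.Node1

/-! String case: chains -/

set_option autoImplicit false
set_option linter.unusedVariables false

namespace Pool.Agent.Helper693.N2


theorem fac_getD (R : List Bool) : ∀ (P : ℕ → Bool) (i : ℕ),
    (∀ k, k < R.length → P (i + k) = R.getD k true) → fac P i R.length = R := by
  induction R with
  | nil => intro P i _; rfl
  | cons a R ih =>
    intro P i h
    have h0 := h 0 (by simp)
    have h1 : fac P (i + 1) R.length = R := by
      apply ih
      intro k hk
      have := h (k + 1) (by simpa using hk)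
      have e : i + 1 + k = i + (k + 1) := by ring
      rw [e, this]
      simp
    simp only [List.length_cons, fac, h1]
    simp only [Nat.add_zero] at h0
    rw [h0]
    simp

theorem exists_maxlen (p : List Bool → Prop) (N : ℕ) (hN : ∀ w, p w → w.length < N)
    (h : ∃ w, p w) : ∃ w, p w ∧ ∀ a, p a → a.length ≤ w.length := by
  classical
  let q : ℕ → Prop := fun n => ∃ w, p w ∧ w.length = n
  obtain ⟨w0, hw0⟩ := h
  have hb : ∃ n, q n := ⟨_, w0, hw0, rfl⟩
  have h1 : q (Nat.findGreatest q N) := by
    apply Nat.findGreatest_spec (P := q) (m := w0.length) (hN w0 hw0).le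
    exact ⟨w0, hw0, rfl⟩
  obtain ⟨w, hw, hl⟩ := h1
  refine ⟨w, hw, fun a ha => ?_⟩
  rw [hl]
  exact Nat.le_findGreatest (hN a ha).le ⟨a, ha, rfl⟩

theorem string_data {L G : Type*} [Field L] [AddCommGroup G] [Module L G] [Nontrivial G]
    (x y : Module.End L G) (hxy : x * y = 0) (hyx : y * x = 0)
    (N : ℕ) (hN : ∀ w, Alive x y w → w.length < N) :
    ∃ (n : ℕ) (P : ℕ → Bool) (m : ℕ → G) (η : ℕ → G →ₗ[L] L),
      (∀ i, i < n → Stp x y (P i) (m i) (m (i + 1))) ∧ x (m 0) = 0 ∧ y (m n) = 0 ∧
      (∀ i, i < n → StpD x y (P i) (η i) (η (i + 1))) ∧ (∀ g, η 0 (y g) = 0) ∧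
      (∀ g, η n (x g) = 0) ∧ η 0 (m 0) = 1 := by
  classical
  have hle : LinearMap.range x ≤ LinearMap.ker y := by
    rintro _ ⟨g, rfl⟩
    rw [LinearMap.mem_ker]
    have := LinearMap.congr_fun hyx g
    simpa using this
  have a1 : ∀ w, act x y (w ++ [true]) ⊤ = act x y w (LinearMap.range x) := by
    intro w
    rw [act_append]
    simp [act, act1]
  have a2 : ∀ w, act x y (w ++ [true]) ⊥ = act x y w ⊥ := by
    intro w
    rw [act_append]
    simp [act, act1]
  have a3 : ∀ w, act x y (w ++ [false]) ⊥ = act x y w (LinearMap.ker y) := by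
    intro w
    rw [act_append]
    simp [act, act1]
  have a4 : ∀ w, act x y (w ++ [false]) ⊤ = act x y w ⊤ := by
    intro w
    rw [act_append]
    simp [act, act1]
  -- a word with E
  have hE0 : ∃ w, act x y w (LinearMap.range x) ≠ act x y w (LinearMap.ker y) := by
    obtain ⟨w, hw, hmax⟩ := exists_maxlen (Alive x y) N hN ⟨[], by
      show (⊥ : Submodule L G) ≠ ⊤
      exact bot_ne_top⟩
    have h1 : ¬ Alive x y (w ++ [true]) := by
      intro h
      have := hmax _ h
      simp at this
    have h2 : ¬ Alive x y (w ++ [false]) := by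
      intro h
      have := hmax _ h
      simp at this
    simp only [Alive, not_not] at h1 h2
    rw [a1, a2] at h1
    rw [a3, a4] at h2
    refine ⟨w, fun h => hw ?_⟩
    rw [h1, h, h2]
  have hEA : ∀ w, act x y w (LinearMap.range x) ≠ act x y w (LinearMap.ker y) →
      Alive x y w := by
    intro w h h'
    apply h
    apply le_antisymm (act_mono x y w hle)
    calc act x y w (LinearMap.ker y) ≤ act x y w ⊤ := act_mono x y w le_top
      _ = act x y w ⊥ := h'.symm
      _ ≤ act x y w (LinearMap.range x) := act_mono x y w bot_le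
  obtain ⟨R, hR, hmax⟩ := exists_maxlen
    (fun w => act x y w (LinearMap.range x) ≠ act x y w (LinearMap.ker y)) N
    (fun w h => hN w (hEA w h)) hE0
  have hT : Submodule.map x (act x y R (LinearMap.range x)) =
      Submodule.map x (act x y R (LinearMap.ker y)) := by
    by_contra h
    have := hmax (true :: R) h
    simp at this
  have hF : Submodule.comap y (act x y R (LinearMap.range x)) =
      Submodule.comap y (act x y R (LinearMap.ker y)) := by
    by_contra h
    have := hmax (false :: R) h
    simp at this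
  have hmono := act_mono x y R hle
  have hnle : ¬ act x y R (LinearMap.ker y) ≤ act x y R (LinearMap.range x) := fun h =>
    hR (le_antisymm hmono h)
  obtain ⟨r, hr, hrn⟩ := SetLike.not_le_iff_exists.1 hnle
  have hxr : x r ∈ Submodule.map x (act x y R (LinearMap.range x)) := by
    rw [hT]; exact ⟨r, hr, rfl⟩
  obtain ⟨r1, hr1, hr1x⟩ := hxr
  have hm0 : r - r1 ∈ act x y R (LinearMap.ker y) := Submodule.sub_mem _ hr (hmono hr1)
  have hm0n : r - r1 ∉ act x y R (LinearMap.range x) := by
    intro h
    apply hrn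
    have := Submodule.add_mem _ h hr1
    simpa using this
  have hxm0 : x (r - r1) = 0 := by rw [map_sub, hr1x, sub_self]
  have hnot : r - r1 ∉ act x y R (LinearMap.range x) ⊔ LinearMap.range y := by
    intro h
    obtain ⟨s, hs, t, ⟨g, rfl⟩, hst⟩ := Submodule.mem_sup.1 h
    have hyg : y g ∈ act x y R (LinearMap.ker y) := by
      have : y g = (r - r1) - s := by rw [← hst]; abel
      rw [this]
      exact Submodule.sub_mem _ hm0 (hmono hs)
    have : g ∈ Submodule.comap y (act x y R (LinearMap.range x)) := by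
      rw [hF]; exact hyg
    apply hm0n
    rw [← hst]
    exact Submodule.add_mem _ hs this
  obtain ⟨f, hf, hfk⟩ := Submodule.exists_le_ker_of_notMem hnot
  let η0 : G →ₗ[L] L := (f (r - r1))⁻¹ • f
  have hη0 : η0 (r - r1) = 1 := by
    simp only [η0, LinearMap.smul_apply, smul_eq_mul]
    exact inv_mul_cancel₀ hf
  have hη0v : ∀ g ∈ act x y R (LinearMap.range x) ⊔ LinearMap.range y, η0 g = 0 := by
    intro g hg
    have : f g = 0 := hfk hg
    simp only [η0, LinearMap.smul_apply, this, smul_zero]
  let P : ℕ → Bool := fun i => R.getD i true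
  have hfac : fac P 0 R.length = R := by
    apply fac_getD
    intro k hk
    simp only [P, Nat.zero_add]
  have hmem : r - r1 ∈ act x y (fac P 0 R.length) (LinearMap.ker y) := by
    rw [hfac]; exact hm0
  rw [mem_act_fac] at hmem
  obtain ⟨c, hc0, hc, hcn⟩ := hmem
  obtain ⟨W, hW0, hW, hWn⟩ := dchain x y P 0 R.length (LinearMap.range x) η0 (by
    rw [hfac]
    intro m hm
    exact hη0v m (Submodule.mem_sup_left hm))
  refine ⟨R.length, P, c, W, ?_, ?_, ?_, ?_, ?_, ?_, ?_⟩
  · intro i hi
    have := hc i hi
    rwa [Nat.zero_add] at this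
  · rw [hc0]; exact hxm0
  · exact hcn
  · intro i hi
    have := hW i hi
    rwa [Nat.zero_add] at this
  · intro g
    rw [hW0]
    exact hη0v _ (Submodule.mem_sup_right ⟨g, rfl⟩)
  · intro g
    exact hWn _ ⟨g, rfl⟩
  · rw [hc0, hW0]; exact hη0

end Pool.Agent.Helper693.N2
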