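import Mathlib

/-! Unitriangular families split -/

set_option autoImplicit false
set_option linter.unusedVariables false

namespace Pool.Agent.Helper693


variable {L G V ι : Type*} [Field L] [AddCommGroup G] [Module L G] [AddCommGroup V] [Module L V]

/-- the total map of a family -/
private noncomputable def tot453 [Fintype ι] (f : ι → V →ₗ[L] G) : (ι → V) →ₗ[L] G :=
  ∑ i, f i ∘ₗ LinearMap.proj i

private theorem tot453_apply [Fintype ι] (f : ι → V →ₗ[L] G) (v : ι → V) :
    tot453 f v = ∑ i, f i (v i) := by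
  simp [tot453]

private theorem tot453_single [Fintype ι] [DecidableEq ι] (f : ι → V →ₗ[L] G) (i : ι) (x : V) :
    tot453 f (Pi.single i x) = f i x := by
  rw [tot453_apply, Finset.sum_eq_single i]
  · simp
  · intro j _ hj
    rw [Pi.single_eq_of_ne hj, map_zero]
  · intro hi; exact absurd (Finset.mem_univ i) hi

private theorem iSup453_le [Fintype ι] (f : ι → V →ₗ[L] G) (p : Submodule L V) :
    (⨆ i, p.map (f i)) ≤ (Submodule.pi Set.univ (fun _ : ι => p)).map (tot453 f) := by
  classical
  refine iSup_le fun i => ?_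
  rintro x ⟨a, ha, rfl⟩
  refine ⟨Pi.single i a, ?_, tot453_single f i a⟩
  intro j _
  by_cases hj : j = i
  · subst hj; simpa using ha
  · simp [Pi.single_eq_of_ne hj]

private theorem mem453 [Fintype ι] (f : ι → V →ₗ[L] G) (p : Submodule L V) {x : G}
    (hx : x ∈ ⨆ i, p.map (f i)) : ∃ a : ι → V, (∀ i, a i ∈ p) ∧ x = ∑ i, f i (a i) := by
  obtain ⟨a, ha, rfl⟩ := iSup453_le f p hx
  exact ⟨a, fun i => ha i (Set.mem_univ i), tot453_apply f a⟩

private theorem inj453 [Fintype ι] (rk : ι → ℕ) (hrk : Function.Injective rk)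
    (f : ι → V →ₗ[L] G) (h : ι → G →ₗ[L] V)
    (hdiag : ∀ i, h i ∘ₗ f i = LinearMap.id)
    (htri : ∀ i j, rk j < rk i → h i ∘ₗ f j = 0)
    (v : ι → V) (hv : ∀ i, h i (∑ j, f j (v j)) = 0) : v = 0 := by
  classical
  by_contra hne
  have hex : ∃ j, v j ≠ 0 := by
    by_contra hcon
    push Not at hcon
    exact hne (funext hcon)
  obtain ⟨j, hj, hmax⟩ := (Finset.univ.filter fun j => v j ≠ 0).exists_max_image rk (by
    obtain ⟨j, hj⟩ := hex
    exact ⟨j, by simp [hj]⟩)
  rw [Finset.mem_filter] at hj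
  have h1 := hv j
  rw [map_sum, Finset.sum_eq_single j] at h1
  · have h2 : h j (f j (v j)) = v j := by
      have := congrArg (fun t : V →ₗ[L] V => t (v j)) (hdiag j)
      simpa using this
    exact hj.2 (h2 ▸ h1)
  · intro i _ hi
    rcases lt_trichotomy (rk i) (rk j) with hlt | heq | hgt
    · have := congrArg (fun t : V →ₗ[L] V => t (v i)) (htri j i hlt)
      simpa using this
    · exact absurd (hrk heq) hi
    · have hz : v i = 0 := by
        by_contra hnz
        have := hmax i (by simp [hnz])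
        omega
      rw [hz, map_zero, map_zero]
  · intro hj'; exact absurd (Finset.mem_univ j) hj'

private theorem surj453 [Fintype ι] (rk : ι → ℕ) (hrk : Function.Injective rk)
    (f : ι → V →ₗ[L] G) (h : ι → G →ₗ[L] V)
    (hdiag : ∀ i, h i ∘ₗ f i = LinearMap.id)
    (htri : ∀ i j, rk j < rk i → h i ∘ₗ f j = 0) (n : ℕ) :
    ∀ w : ι → V, (∀ i, n ≤ rk i → w i = 0) → ∃ v : ι → V, ∀ i, h i (tot453 f v) = w i := by
  classical
  induction n with
  | zero =>
    intro w hw
    exact ⟨0, fun i => by rw [map_zero, map_zero, hw i (Nat.zero_le _)]⟩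
  | succ n ih =>
    intro w hw
    by_cases hex : ∃ i0, rk i0 = n
    · obtain ⟨i0, hi0⟩ := hex
      obtain ⟨v, hv⟩ := ih (fun i => w i - h i (f i0 (w i0))) (by
        intro i hi
        rcases Nat.lt_or_ge n (rk i) with hlt | hge
        · have h1 := congrArg (fun t : V →ₗ[L] V => t (w i0)) (htri i i0 (by omega))
          have h2 : h i (f i0 (w i0)) = 0 := by simpa using h1
          rw [h2, hw i (by omega), sub_zero]
        · have h3 : i = i0 := hrk (by omega)
          subst h3
          have h1 := congrArg (fun t : V →ₗ[L] V => t (w i)) (hdiag i)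
          have h2 : h i (f i (w i)) = w i := by simpa using h1
          simp only [h2, sub_self])
      refine ⟨v + Pi.single i0 (w i0), fun i => ?_⟩
      rw [map_add, map_add, hv i, tot453_single]
      abel
    · refine ih w (fun i hi => hw i ?_)
      rcases Nat.lt_or_ge n (rk i) with hlt | hge
      · omega
      · exact absurd ⟨i, by omega⟩ hex

private theorem surj453' [Fintype ι] (rk : ι → ℕ) (hrk : Function.Injective rk)
    (f : ι → V →ₗ[L] G) (h : ι → G →ₗ[L] V)
    (hdiag : ∀ i, h i ∘ₗ f i = LinearMap.id)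
    (htri : ∀ i j, rk j < rk i → h i ∘ₗ f j = 0) (w : ι → V) :
    ∃ v : ι → V, ∀ i, h i (tot453 f v) = w i := by
  refine surj453 rk hrk f h hdiag htri (Finset.univ.sup rk + 1) w ?_
  intro i hi
  have : rk i ≤ Finset.univ.sup rk := Finset.le_sup (Finset.mem_univ i)
  omega

/-- unitriangular families split -/
theorem unitri_isCompl [Fintype ι] (rk : ι → ℕ) (hrk : Function.Injective rk)
    (f : ι → V →ₗ[L] G) (h : ι → G →ₗ[L] V)
    (hdiag : ∀ i, h i ∘ₗ f i = LinearMap.id)
    (htri : ∀ i j, rk j < rk i → h i ∘ₗ f j = 0) :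
    IsCompl (⨆ i, LinearMap.range (f i)) (⨅ i, LinearMap.ker (h i)) := by
  classical
  have hr : (⨆ i, LinearMap.range (f i)) = ⨆ i, (⊤ : Submodule L V).map (f i) := by
    simp only [Submodule.map_top]
  rw [hr, isCompl_iff, Submodule.disjoint_def, codisjoint_iff]
  constructor
  · intro x hx hk
    obtain ⟨a, -, rfl⟩ := mem453 f ⊤ hx
    rw [Submodule.mem_iInf] at hk
    have := inj453 rk hrk f h hdiag htri a (fun i => LinearMap.mem_ker.mp (hk i))
    simp [this]
  · rw [eq_top_iff]
    intro g _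
    obtain ⟨v, hv⟩ := surj453' rk hrk f h hdiag htri (fun i => h i g)
    rw [Submodule.mem_sup]
    refine ⟨tot453 f v, ?_, g - tot453 f v, ?_, by abel⟩
    · rw [tot453_apply]
      refine Submodule.sum_mem _ fun i _ => ?_
      exact Submodule.mem_iSup_of_mem i ⟨v i, trivial, rfl⟩
    · rw [Submodule.mem_iInf]
      intro i
      rw [LinearMap.mem_ker, map_sub, hv i, sub_self]

/-- uniqueness of coordinates -/
theorem unitri_injective [Fintype ι] (rk : ι → ℕ) (hrk : Function.Injective rk)
    (f : ι → V →ₗ[L] G) (h : ι → G →ₗ[L] V)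
    (hdiag : ∀ i, h i ∘ₗ f i = LinearMap.id)
    (htri : ∀ i j, rk j < rk i → h i ∘ₗ f j = 0)
    (v : ι → V) (hv : ∑ i, f i (v i) = 0) : v = 0 :=
  inj453 rk hrk f h hdiag htri v (fun i => by rw [hv, map_zero])

/-- if the ranges span everything, decompositions of `V` induce decompositions of `G` -/
theorem unitri_decomp [Fintype ι] (rk : ι → ℕ) (hrk : Function.Injective rk)
    (f : ι → V →ₗ[L] G) (h : ι → G →ₗ[L] V)
    (hdiag : ∀ i, h i ∘ₗ f i = LinearMap.id)
    (htri : ∀ i j, rk j < rk i → h i ∘ₗ f j = 0)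
    (htop : ⨆ i, LinearMap.range (f i) = ⊤)
    (p q : Submodule L V) (hpq : IsCompl p q) :
    IsCompl (⨆ i, p.map (f i)) (⨆ i, q.map (f i)) := by
  rw [isCompl_iff, Submodule.disjoint_def, codisjoint_iff]
  constructor
  · intro x hx hx'
    obtain ⟨a, ha, rfl⟩ := mem453 f p hx
    obtain ⟨b, hb, hab⟩ := mem453 f q hx'
    have h0 : (a - b) = 0 := by
      refine unitri_injective rk hrk f h hdiag htri (a - b) ?_
      simp only [Pi.sub_apply, map_sub, Finset.sum_sub_distrib]
      rw [hab, sub_self]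
    have h1 : ∀ i, a i = 0 := by
      intro i
      have h2 : a i = b i := by
        have := congrFun h0 i
        rw [Pi.sub_apply, Pi.zero_apply, sub_eq_zero] at this
        exact this
      have h3 := Submodule.disjoint_def.mp hpq.disjoint
      exact h3 (a i) (ha i) (h2 ▸ hb i)
    refine Finset.sum_eq_zero fun i _ => ?_
    rw [h1 i, map_zero]
  · rw [eq_top_iff, ← htop]
    refine iSup_le fun i => ?_
    rintro x ⟨y, rfl⟩
    have hy : y ∈ p ⊔ q := by rw [hpq.sup_eq_top]; trivial
    obtain ⟨a, ha, b, hb, rfl⟩ := Submodule.mem_sup.mp hy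
    rw [map_add]
    refine Submodule.add_mem_sup ?_ ?_
    · exact Submodule.mem_iSup_of_mem i ⟨a, ha, rfl⟩
    · exact Submodule.mem_iSup_of_mem i ⟨b, hb, rfl⟩


end Pool.Agent.Helper693
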