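import Pool.Agent.Helper693.Gt.Node0
import Pool.Agent.Helper693.Gt.UT

/-! String case: splitting -/

set_option autoImplicit false
set_option linter.unusedVariables false

namespace Pool.Agent.Helper693.N3


/-- the key of a suffix: `true` is the smallest letter, then the end of the word, then `false` -/
private def sfkey (P : ℕ → Bool) : ℕ → ℕ → List ℕ
  | 0, _ => [1]
  | r + 1, i => (if P i then 0 else 2) :: sfkey P r (i + 1)

private theorem sfkey_length (P : ℕ → Bool) (r i : ℕ) : (sfkey P r i).length = r + 1 := by
  induction r generalizing i with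
  | zero => rfl
  | succ r ih => simp [sfkey, ih]

private theorem exists_rank {ι α : Type*} [Fintype ι] [LinearOrder α] (key : ι → α)
    (hkey : Function.Injective key) :
    ∃ rk : ι → ℕ, Function.Injective rk ∧ ∀ i j, rk j < rk i → key j < key i := by
  classical
  refine ⟨fun i => (Finset.univ.filter (fun j => key j < key i)).card, ?_, ?_⟩
  · have hlt : ∀ i j, key i < key j → (Finset.univ.filter (fun l => key l < key i)).card <
        (Finset.univ.filter (fun l => key l < key j)).card := by
      intro i j hij
      apply Finset.card_lt_card
      rw [Finset.ssubset_iff_of_subset]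
      · exact ⟨i, by simp [hij], by simp⟩
      · intro l hl
        rw [Finset.mem_filter] at hl ⊢
        exact ⟨hl.1, hl.2.trans hij⟩
    intro i j hij
    rcases lt_trichotomy (key i) (key j) with h | h | h
    · exact absurd hij (hlt i j h).ne
    · exact hkey h
    · exact absurd hij (hlt j i h).ne'
  · intro i j hij
    by_contra hcon
    rw [not_lt] at hcon
    apply absurd hij
    rw [not_lt]
    apply Finset.card_le_card
    intro l hl
    rw [Finset.mem_filter] at hl ⊢
    exact ⟨hl.1, hl.2.trans_le hcon⟩

theorem string_finite {L G : Type*} [Field L] [AddCommGroup G] [Module L G]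
    (x y : Module.End L G) (hxy : x * y = 0) (hyx : y * x = 0)
    (hind : ∀ p q : Submodule L G, (∀ g ∈ p, x g ∈ p) → (∀ g ∈ p, y g ∈ p) →
      (∀ g ∈ q, x g ∈ q) → (∀ g ∈ q, y g ∈ q) → IsCompl p q → p = ⊥ ∨ q = ⊥)
    (n : ℕ) (P : ℕ → Bool) (m : ℕ → G) (η : ℕ → G →ₗ[L] L)
    (hm : ∀ i, i < n → Stp x y (P i) (m i) (m (i + 1))) (hm0 : x (m 0) = 0) (hmn : y (m n) = 0)
    (hη : ∀ i, i < n → StpD x y (P i) (η i) (η (i + 1))) (hη0 : ∀ g, η 0 (y g) = 0)
    (hηn : ∀ g, η n (x g) = 0) (h1 : η 0 (m 0) = 1) :
    Module.Finite L G := by
  classical
  have hxy' : ∀ g, x (y g) = 0 := fun g => by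
    have := congrArg (fun t : Module.End L G => t g) hxy
    simpa using this
  have hyx' : ∀ g, y (x g) = 0 := fun g => by
    have := congrArg (fun t : Module.End L G => t g) hyx
    simpa using this
  have hmt : ∀ i, i < n → P i = true → m i = x (m (i + 1)) := by
    intro i hi hP
    have := hm i hi
    rw [hP] at this
    exact this
  have hmf : ∀ i, i < n → P i = false → y (m i) = m (i + 1) := by
    intro i hi hP
    have := hm i hi
    rw [hP] at this
    exact this
  have hηt : ∀ i, i < n → P i = true → ∀ g, η (i + 1) g = η i (x g) := by
    intro i hi hP g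
    have := hη i hi
    rw [hP] at this
    have h2 : η (i + 1) = η i ∘ₗ x := this
    rw [h2]
    rfl
  have hηf : ∀ i, i < n → P i = false → ∀ g, η i g = η (i + 1) (y g) := by
    intro i hi hP g
    have := hη i hi
    rw [hP] at this
    have h2 : η i = η (i + 1) ∘ₗ y := this
    rw [h2]
    rfl
  -- the diagonal
  have hdiag : ∀ i, i ≤ n → η i (m i) = 1 := by
    intro i
    induction i with
    | zero => intro _; exact h1
    | succ i ih =>
      intro hi
      rw [← pairing x y (P i) (hm i (by omega)) (hη i (by omega))]
      exact ih (by omega)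
  -- triangularity
  have htri : ∀ r s i j, i + r = n → j + s = n → sfkey P s j < sfkey P r i → η i (m j) = 0 := by
    intro r
    induction r with
    | zero =>
      intro s i j hi hj hlt
      have hi' : i = n := by omega
      subst hi'
      rcases s with _ | s
      · exact absurd hlt (lt_irrefl _)
      · have hjn : j < i := by omega
        cases hP : P j
        · exfalso
          rw [sfkey, sfkey, hP, List.cons_lt_cons_iff] at hlt
          simp at hlt
        · rw [hmt j hjn hP]
          exact hηn _
    | succ r ih =>
      intro s i j hi hj hlt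
      have hin : i < n := by omega
      rcases s with _ | s
      · have hj' : j = n := by omega
        subst hj'
        cases hP : P i
        · rw [hηf i hin hP, hmn, map_zero]
        · exfalso
          rw [sfkey, sfkey, hP, List.cons_lt_cons_iff] at hlt
          simp at hlt
      · have hjn : j < n := by omega
        rw [sfkey, sfkey, List.cons_lt_cons_iff] at hlt
        cases hPi : P i <;> cases hPj : P j
        · rw [hPi, hPj] at hlt
          simp only [lt_irrefl, false_or, true_and] at hlt
          have h3 := ih s (i + 1) (j + 1) (by omega) (by omega) hlt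
          rw [hηf i hin hPi, hmf j hjn hPj]
          exact h3
        · rw [hηf i hin hPi, hmt j hjn hPj, hyx', map_zero]
        · exfalso
          rw [hPi, hPj] at hlt
          simp at hlt
        · rw [hPi, hPj] at hlt
          simp only [lt_irrefl, false_or, true_and] at hlt
          have h3 := ih s (i + 1) (j + 1) (by omega) (by omega) hlt
          rw [hmt j hjn hPj, ← hηt i hin hPi]
          exact h3
  let key : Fin (n + 1) → List ℕ := fun i => sfkey P (n - i) i
  have hkey : Function.Injective key := by
    intro i j hij
    have h2 := congrArg List.length hij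
    simp only [key, sfkey_length] at h2
    have := i.2
    have := j.2
    apply Fin.ext
    omega
  obtain ⟨rk, hrk, hrklt⟩ := exists_rank key hkey
  have hcompl := unitri_isCompl (V := L) rk hrk
    (fun i : Fin (n + 1) => LinearMap.toSpanSingleton L G (m i)) (fun i => η i)
    (by
      intro i
      have hi := i.2
      apply LinearMap.ext
      intro c
      simp [hdiag i (by omega)])
    (by
      intro i j hij
      have hi := i.2
      have hj := j.2
      have h2 := htri (n - i) (n - j) i j (by omega) (by omega) (hrklt i j hij)
      apply LinearMap.ext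
      intro c
      simp [h2])
  set U : Submodule L G := ⨆ i : Fin (n + 1), LinearMap.range (LinearMap.toSpanSingleton L G (m i))
    with hU
  set W : Submodule L G := ⨅ i : Fin (n + 1), LinearMap.ker (η i) with hW
  have hmU : ∀ i, i ≤ n → m i ∈ U := by
    intro i hi
    exact Submodule.mem_iSup_of_mem (⟨i, by omega⟩ : Fin (n + 1)) ⟨1, by simp⟩
  have hUle : ∀ T : Submodule L G, (∀ i, i ≤ n → m i ∈ T) → U ≤ T := by
    intro T hT
    refine iSup_le fun i => ?_
    rintro _ ⟨c, rfl⟩
    have hi := i.2
    rw [LinearMap.toSpanSingleton_apply]
    exact T.smul_mem c (hT i (by omega))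
  have hxU : ∀ g ∈ U, x g ∈ U := by
    intro g hg
    refine hUle (U.comap x) ?_ hg
    intro i hi
    rw [Submodule.mem_comap]
    rcases i with _ | i
    · rw [hm0]
      exact U.zero_mem
    · cases hP : P i
      · rw [← hmf i (by omega) hP, hxy']
        exact U.zero_mem
      · rw [← hmt i (by omega) hP]
        exact hmU i (by omega)
  have hyU : ∀ g ∈ U, y g ∈ U := by
    intro g hg
    refine hUle (U.comap y) ?_ hg
    intro i hi
    rw [Submodule.mem_comap]
    rcases hi.lt_or_eq with hlt | rfl
    · cases hP : P i
      · rw [hmf i hlt hP]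
        exact hmU _ (by omega)
      · rw [hmt i hlt hP, hyx']
        exact U.zero_mem
    · rw [hmn]
      exact U.zero_mem
  have hmemW : ∀ g, g ∈ W ↔ ∀ i, i ≤ n → η i g = 0 := by
    intro g
    rw [hW, Submodule.mem_iInf]
    constructor
    · intro h i hi
      exact h ⟨i, by omega⟩
    · intro h i
      have hi := i.2
      exact h i (by omega)
  have hxW : ∀ g ∈ W, x g ∈ W := by
    intro g hg
    rw [hmemW] at hg ⊢
    intro i hi
    rcases hi.lt_or_eq with hlt | rfl
    · cases hP : P i
      · rw [hηf i hlt hP, hyx', map_zero]
      · rw [← hηt i hlt hP]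
        exact hg _ (by omega)
    · exact hηn g
  have hyW : ∀ g ∈ W, y g ∈ W := by
    intro g hg
    rw [hmemW] at hg ⊢
    intro i hi
    rcases i with _ | i
    · exact hη0 g
    · cases hP : P i
      · rw [← hηf i (by omega) hP]
        exact hg _ (by omega)
      · rw [hηt i (by omega) hP, hxy', map_zero]
  have hfinU : Module.Finite L U := by
    rw [hU]
    infer_instance
  rcases hind U W hxU hyU hxW hyW hcompl with h | h
  · exfalso
    have h2 := hmU 0 (by omega)
    rw [h, Submodule.mem_bot] at h2
    rw [h2, map_zero] at h1
    exact zero_ne_one h1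
  · have htop : U = ⊤ := by
      have := hcompl.sup_eq_top
      rwa [h, sup_bot_eq] at this
    rw [htop] at hfinU
    exact Module.finite_def.mpr (Submodule.fg_top (⊤ : Submodule L G) |>.mp (Module.finite_def.mp hfinU))

end Pool.Agent.Helper693.N3
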