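import Pool.Agent.Helper693.Gt.Node0

/-! Band case: stabilised filtration -/

set_option autoImplicit false
set_option linter.unusedVariables false

namespace Pool.Agent.Helper693.N4


theorem hi_le_lo' {S G : Type*} [Ring S] [AddCommGroup G] [Module S G]
    (x y : Module.End S G) (hyx : y * x = 0) (u v v' : List Bool) :
    act x y (u ++ true :: v) ⊤ ≤ act x y (u ++ false :: v') ⊥ := by
  rw [act_append, act_append]
  apply act_mono
  simp only [act, act1]
  rintro m ⟨g, -, rfl⟩
  rw [Submodule.mem_comap]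
  have h : y (x g) = 0 := by
    have := congrArg (fun f : Module.End S G => f g) hyx
    simpa using this
  rw [h]
  exact Submodule.zero_mem _

theorem fac_period (P : ℕ → Bool) (d : ℕ) (hP : ∀ i, P (i + d) = P i) (n : ℕ) :
    ∀ i, fac P (i + d) n = fac P i n := by
  induction n with
  | zero => intro i; rfl
  | succ n ih =>
    intro i
    simp only [fac]
    rw [hP i, show i + d + 1 = (i + 1) + d by ring, ih]

theorem fac_mod (P : ℕ → Bool) (d : ℕ) (hP : ∀ i, P (i + d) = P i) (i n : ℕ) :
    fac P i n = fac P (i % d) n := by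
  have h : ∀ q r : ℕ, fac P (r + d * q) n = fac P r n := by
    intro q
    induction q with
    | zero => intro r; simp
    | succ q ih =>
      intro r
      rw [show r + d * (q + 1) = (r + d * q) + d by ring, fac_period P d hP, ih]
  conv_lhs => rw [← Nat.mod_add_div i d]
  exact h _ _

theorem fac_congr (P : ℕ → Bool) (k : ℕ) : ∀ i j,
    (∀ k', k' < k → P (i + k') = P (j + k')) → fac P i k = fac P j k := by
  induction k with
  | zero => intro i j _; rfl
  | succ k ih =>
    intro i j h
    simp only [fac]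
    have h0 := h 0 (Nat.succ_pos _)
    simp only [Nat.add_zero] at h0
    rw [h0, ih (i + 1) (j + 1)]
    intro k' hk'
    have := h (k' + 1) (by omega)
    rw [show i + 1 + k' = i + (k' + 1) by ring, show j + 1 + k' = j + (k' + 1) by ring]
    exact this

theorem band_stable {S G : Type*} [Ring S] [AddCommGroup G] [Module S G]
    [IsNoetherian S G] [IsArtinian S G] (x y : Module.End S G) (hyx : y * x = 0)
    (P : ℕ → Bool) (d : ℕ) (hd : 0 < d) (hP : ∀ i, P (i + d) = P i)
    (hal : ∀ i n, Alive x y (fac P i n)) :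
    ∃ (Hi Lo : ℕ → Submodule S G) (K : ℕ),
      (∀ i n, K ≤ n → act x y (fac P i n) ⊤ = Hi i) ∧
      (∀ i n, K ≤ n → act x y (fac P i n) ⊥ = Lo i) ∧
      (∀ i, act1 x y (P i) (Hi (i + 1)) = Hi i) ∧
      (∀ i, act1 x y (P i) (Lo (i + 1)) = Lo i) ∧
      (∀ i, Lo i < Hi i) ∧
      (∀ i, Hi (i + d) = Hi i) ∧ (∀ i, Lo (i + d) = Lo i) ∧
      (∀ i n, Hi i ≤ act x y (fac P i n) ⊤) ∧ (∀ i n, act x y (fac P i n) ⊥ ≤ Lo i) ∧
      (∀ i j k, (∀ k', k' < k → P (i + k') = P (j + k')) → P (i + k) = true →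
        P (j + k) = false → Hi i ≤ Lo j) := by
  classical
  have hanti : ∀ i n k, act x y (fac P i (n + k)) ⊤ ≤ act x y (fac P i n) ⊤ := by
    intro i n k
    rw [fac_add, act_append]
    exact act_mono x y _ le_top
  have hmono : ∀ i n k, act x y (fac P i n) ⊥ ≤ act x y (fac P i (n + k)) ⊥ := by
    intro i n k
    rw [fac_add, act_append]
    exact act_mono x y _ bot_le
  have h1 : ∀ i, ∃ K, ∀ n, K ≤ n → act x y (fac P i n) ⊤ = act x y (fac P i K) ⊤ := by
    intro i
    obtain ⟨K, hK⟩ := IsArtinian.monotone_stabilizes (R := S) (M := G)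
      ⟨fun n => OrderDual.toDual (act x y (fac P i n) ⊤), by
        intro a b hab
        obtain ⟨k, rfl⟩ := Nat.exists_eq_add_of_le hab
        exact OrderDual.toDual_le_toDual.mpr (hanti i a k)⟩
    refine ⟨K, fun n hn => ?_⟩
    have := hK n hn
    exact (congrArg OrderDual.ofDual this).symm
  have h2 : ∀ i, ∃ K, ∀ n, K ≤ n → act x y (fac P i n) ⊥ = act x y (fac P i K) ⊥ := by
    intro i
    obtain ⟨K, hK⟩ := (monotone_stabilizes_iff_noetherian (R := S) (M := G)).mpr inferInstance
      ⟨fun n => act x y (fac P i n) ⊥, by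
        intro a b hab
        obtain ⟨k, rfl⟩ := Nat.exists_eq_add_of_le hab
        exact hmono i a k⟩
    refine ⟨K, fun n hn => ?_⟩
    exact (hK n hn).symm
  choose K1 hK1 using h1
  choose K2 hK2 using h2
  let K := (Finset.range d).sup (fun i => max (K1 i) (K2 i))
  have hle : ∀ i, i < d → K1 i ≤ K ∧ K2 i ≤ K := by
    intro i hi
    have := Finset.le_sup (f := fun i => max (K1 i) (K2 i)) (Finset.mem_range.mpr hi)
    exact ⟨(le_max_left _ _).trans this, (le_max_right _ _).trans this⟩
  have hHi : ∀ i n, K ≤ n → act x y (fac P i n) ⊤ = act x y (fac P i K) ⊤ := by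
    intro i n hn
    have hi := hle (i % d) (Nat.mod_lt _ hd)
    rw [fac_mod P d hP i n, fac_mod P d hP i K, hK1 (i % d) n (hi.1.trans hn), hK1 (i % d) K hi.1]
  have hLo : ∀ i n, K ≤ n → act x y (fac P i n) ⊥ = act x y (fac P i K) ⊥ := by
    intro i n hn
    have hi := hle (i % d) (Nat.mod_lt _ hd)
    rw [fac_mod P d hP i n, fac_mod P d hP i K, hK2 (i % d) n (hi.2.trans hn), hK2 (i % d) K hi.2]
  refine ⟨fun i => act x y (fac P i K) ⊤, fun i => act x y (fac P i K) ⊥, K, hHi, hLo,
    ?_, ?_, ?_, ?_, ?_, ?_, ?_, ?_⟩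
  · intro i
    exact hHi i (K + 1) (Nat.le_succ K)
  · intro i
    exact hLo i (K + 1) (Nat.le_succ K)
  · intro i
    exact lt_of_le_of_ne (act_mono x y _ bot_le) (hal i K)
  · intro i
    simp only [fac_period P d hP]
  · intro i
    simp only [fac_period P d hP]
  · intro i n
    show act x y (fac P i K) ⊤ ≤ _
    rw [← hHi i (n + K) (Nat.le_add_left _ _)]
    exact hanti i n K
  · intro i n
    show _ ≤ act x y (fac P i K) ⊥
    rw [← hLo i (n + K) (Nat.le_add_left _ _)]
    exact hmono i n K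
  · intro i j k hk hi hj
    show act x y (fac P i K) ⊤ ≤ act x y (fac P j K) ⊥
    rw [← hHi i (k + (K + 1)) (by omega), ← hLo j (k + (K + 1)) (by omega)]
    have e1 : fac P i (k + (K + 1)) = fac P j k ++ true :: fac P (i + k + 1) K := by
      rw [fac_add P i k (K + 1), fac_congr P k i j hk, ← hi]; rfl
    have e2 : fac P j (k + (K + 1)) = fac P j k ++ false :: fac P (j + k + 1) K := by
      rw [fac_add P j k (K + 1), ← hj]; rfl
    rw [e1, e2]
    exact hi_le_lo' x y hyx _ _ _

end Pool.Agent.Helper693.N4
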