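import Pool.Agent.Helper693.Gt.Node0

/-! Band case: monodromy -/

set_option autoImplicit false
set_option linter.unusedVariables false

namespace Pool.Agent.Helper693.N5


theorem bT_add {S G : Type*} [Ring S] [AddCommGroup G] [Module S G] (x y : Module.End S G)
    (b : Bool) {m m' n n' : G} (h : Stp x y b m m') (k : Stp x y b n n') :
    Stp x y b (m + n) (m' + n') := by
  cases b
  · simp only [Stp] at *; rw [map_add, h, k]
  · simp only [Stp] at *; rw [map_add, h, k]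

theorem bT_smul' {S G : Type*} [Ring S] [AddCommGroup G] [Module S G] (x y : Module.End S G)
    (b : Bool) (r : S) {m m' : G} (h : Stp x y b m m') :
    Stp x y b (r • m) (r • m') := by
  cases b
  · simp only [Stp] at *; rw [map_smul, h]
  · simp only [Stp] at *; rw [map_smul, h]

theorem bT_zero {S G : Type*} [Ring S] [AddCommGroup G] [Module S G] (x y : Module.End S G)
    (b : Bool) : Stp x y b (0 : G) 0 := by
  cases b <;> simp [Stp]

theorem band_T {S G : Type*} [Ring S] [AddCommGroup G] [Module S G]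
    [IsNoetherian S G] [IsArtinian S G] (x y : Module.End S G)
    (P : ℕ → Bool) (d : ℕ) (Hi Lo : Submodule S G) (hLH : Lo ≤ Hi)
    (hHi : act x y (fac P 0 d) Hi = Hi) (hLo : act x y (fac P 0 d) Lo = Lo) :
    ∃ T : (Hi ⧸ Lo.submoduleOf Hi) ≃ₗ[S] (Hi ⧸ Lo.submoduleOf Hi),
      ∀ m m' : Hi, (∃ c : ℕ → G, c 0 = m ∧ (∀ k, k < d → Stp x y (P k) (c k) (c (k + 1))) ∧
        c d = m') →
        T ((Lo.submoduleOf Hi).mkQ m) = (Lo.submoduleOf Hi).mkQ m' := by
  let V := Hi ⧸ Lo.submoduleOf Hi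
  let mk : Hi →ₗ[S] V := (Lo.submoduleOf Hi).mkQ
  let C : Submodule S (V × V) :=
    { carrier := {p | ∃ m m' : Hi, (∃ c : ℕ → G, c 0 = m ∧
        (∀ k, k < d → Stp x y (P k) (c k) (c (k + 1))) ∧ c d = m') ∧ mk m = p.1 ∧ mk m' = p.2}
      add_mem' := by
        rintro ⟨a, b⟩ ⟨a', b'⟩ ⟨m, m', ⟨c, h0, h1, h2⟩, h3, h4⟩ ⟨n, n', ⟨e, k0, k1, k2⟩, k3, k4⟩
        refine ⟨m + n, m' + n', ⟨fun k => c k + e k, ?_, ?_, ?_⟩, ?_, ?_⟩
        · simp [h0, k0]
        · intro k hk; exact bT_add x y _ (h1 k hk) (k1 k hk)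
        · simp [h2, k2]
        · rw [map_add, h3, k3]; rfl
        · rw [map_add, h4, k4]; rfl
      zero_mem' := ⟨0, 0, ⟨fun _ => 0, by simp, fun k _ => bT_zero x y _, by simp⟩,
        by simp, by simp⟩
      smul_mem' := by
        rintro r ⟨a, b⟩ ⟨m, m', ⟨c, h0, h1, h2⟩, h3, h4⟩
        refine ⟨r • m, r • m', ⟨fun k => r • c k, ?_, ?_, ?_⟩, ?_, ?_⟩
        · simp [h0]
        · intro k hk; exact bT_smul' x y _ r (h1 k hk)
        · simp [h2]
        · rw [map_smul, h3]; rfl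
        · rw [map_smul, h4]; rfl }
  have hsurj : ∀ v : V, ∃ w : V, (v, w) ∈ C := by
    intro v
    obtain ⟨m, rfl⟩ := Submodule.mkQ_surjective _ v
    have hm : (m : G) ∈ act x y (fac P 0 d) Hi := by rw [hHi]; exact m.2
    rw [mem_act_fac] at hm
    obtain ⟨c, h0, h1, h2⟩ := hm
    refine ⟨mk ⟨c d, h2⟩, m, ⟨c d, h2⟩, ⟨c, h0, ?_, rfl⟩, rfl, rfl⟩
    intro k hk
    have := h1 k hk
    rwa [Nat.zero_add] at this
  have hinj : ∀ v : V, (v, (0 : V)) ∈ C → v = 0 := by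
    rintro v ⟨m, m', ⟨c, h0, h1, h2⟩, h3, h4⟩
    have hm' : (m' : G) ∈ Lo := by
      have : m' ∈ Lo.submoduleOf Hi := by
        rw [← Submodule.Quotient.mk_eq_zero]; exact h4
      exact this
    have hm : (m : G) ∈ act x y (fac P 0 d) Lo := by
      rw [mem_act_fac]
      refine ⟨c, h0, ?_, by rw [h2]; exact hm'⟩
      intro k hk; rw [Nat.zero_add]; exact h1 k hk
    rw [hLo] at hm
    have h5 : mk m = 0 := by
      have : m ∈ Lo.submoduleOf Hi := hm
      exact (Submodule.Quotient.mk_eq_zero _).2 this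
    have h6 : mk m = v := h3
    rw [← h6, h5]
  let p1 : C →ₗ[S] V := (LinearMap.fst S V V) ∘ₗ C.subtype
  let p2 : C →ₗ[S] V := (LinearMap.snd S V V) ∘ₗ C.subtype
  have hp1 : Function.Surjective p1 := by
    intro v
    obtain ⟨w, hw⟩ := hsurj v
    exact ⟨⟨(v, w), hw⟩, rfl⟩
  have hp2 : Function.Injective p2 := by
    rw [← LinearMap.ker_eq_bot, LinearMap.ker_eq_bot']
    rintro ⟨⟨v, w⟩, hvw⟩ h
    have hw : w = 0 := h
    subst hw
    have := hinj v hvw
    subst this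
    rfl
  have hp1i : Function.Injective p1 := IsNoetherian.injective_of_surjective_of_injective p2 p1 hp2 hp1
  let e1 : C ≃ₗ[S] V := LinearEquiv.ofBijective p1 ⟨hp1i, hp1⟩
  let T0 : V →ₗ[S] V := p2 ∘ₗ e1.symm.toLinearMap
  have hT0 : Function.Injective T0 := by
    intro a b h
    exact e1.symm.injective (hp2 h)
  have hT0s : Function.Surjective T0 := IsArtinian.surjective_of_injective_endomorphism T0 hT0
  refine ⟨LinearEquiv.ofBijective T0 ⟨hT0, hT0s⟩, ?_⟩
  intro m m' hc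
  have hmem : ((mk m, mk m') : V × V) ∈ C := ⟨m, m', hc, rfl, rfl⟩
  have h1 : e1 ⟨(mk m, mk m'), hmem⟩ = mk m := rfl
  have h2 : e1.symm (mk m) = ⟨(mk m, mk m'), hmem⟩ := (LinearEquiv.symm_apply_eq e1).2 h1.symm
  show p2 (e1.symm (mk m)) = mk m'
  rw [h2]
  rfl

end Pool.Agent.Helper693.N5
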