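import Pool.Agent.Helper693.Gt.Node1

/-! Band case: lifting -/

set_option autoImplicit false
set_option linter.unusedVariables false

namespace Pool.Agent.Helper693.N6

section lift_aux

variable {L G V : Type*} [Field L] [AddCommGroup G] [Module L G] [AddCommGroup V] [Module L V]

theorem stp_zero (x y : Module.End L G) (b : Bool) : Stp x y b (0 : G) 0 := by
  cases b <;> simp [Stp]

theorem stp_add (x y : Module.End L G) (b : Bool) {m m' n n' : G} (h : Stp x y b m m')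
    (h' : Stp x y b n n') : Stp x y b (m + n) (m' + n') := by
  cases b
  · simp only [Stp] at h h' ⊢
    rw [map_add, h, h']
  · simp only [Stp] at h h' ⊢
    rw [map_add, h, h']

theorem stp_smul (x y : Module.End L G) (b : Bool) (a : L) {m m' : G} (h : Stp x y b m m') :
    Stp x y b (a • m) (a • m') := by
  cases b
  · simp only [Stp] at h ⊢
    rw [map_smul, h]
  · simp only [Stp] at h ⊢
    rw [map_smul, h]

/-- chains of length `d` along `P` -/
def chainSub (x y : Module.End L G) (P : ℕ → Bool) (d : ℕ) : Submodule L (ℕ → G) where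
  carrier := {c | ∀ k, k < d → Stp x y (P k) (c k) (c (k + 1))}
  zero_mem' := fun k _ => stp_zero x y (P k)
  add_mem' := fun {a b} ha hb k hk => stp_add x y (P k) (ha k hk) (hb k hk)
  smul_mem' := fun a c hc k hk => stp_smul x y (P k) a (hc k hk)

theorem fac_congr (P : ℕ → Bool) (i i' n : ℕ) (h : ∀ j, P (i + j) = P (i' + j)) :
    fac P i n = fac P i' n := by
  induction n generalizing i i' with
  | zero => rfl
  | succ n ih =>
    simp only [fac]
    have h0 := h 0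
    simp only [Nat.add_zero] at h0
    rw [h0]
    congr 1
    apply ih
    intro j
    have := h (j + 1)
    have e1 : i + 1 + j = i + (j + 1) := by ring
    have e2 : i' + 1 + j = i' + (j + 1) := by ring
    rw [e1, e2]
    exact this

theorem correction (x y : Module.End L G)
    (P : ℕ → Bool) (d : ℕ) (hP : ∀ i, P (i + d) = P i)
    (Lo : Submodule L G) (T : V ≃ₗ[L] V)
    (hLo' : ∀ k, act x y (fac P 0 k) ⊥ ≤ Lo) (k : ℕ) :
    ∀ α : V →ₗ[L] G, (∀ v, α v ∈ act x y (fac P 0 (k * d)) ⊥) →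
      ∃ Z : V →ₗ[L] (ℕ → G), (∀ v, Z v ∈ chainSub x y P d) ∧ (∀ v, Z v 0 ∈ Lo) ∧
        ∀ v, Z v d - Z (T v) 0 = α v := by
  induction k with
  | zero =>
    intro α hα
    refine ⟨0, fun v => Submodule.zero_mem _, fun v => Submodule.zero_mem _, fun v => ?_⟩
    have := hα v
    simp only [Nat.zero_mul, fac, act, Submodule.mem_bot] at this
    rw [this]
    simp
  | succ k ih =>
    intro α hα
    have hfac : fac P 0 ((k + 1) * d) = fac P 0 d ++ fac P 0 (k * d) := by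
      have e : (k + 1) * d = d + k * d := by ring
      rw [e, fac_add]
      congr 1
      apply fac_congr
      intro j
      rw [Nat.zero_add, Nat.add_comm d j, hP, Nat.zero_add]
    let U : Submodule L G := act x y (fac P 0 (k * d)) ⊥
    let ρ : Submodule L (V × (ℕ → G)) :=
      { carrier := {q | q.2 0 = α q.1 ∧ q.2 ∈ chainSub x y P d ∧ q.2 d ∈ U}
        zero_mem' := by
          refine ⟨by simp, Submodule.zero_mem _, ?_⟩
          show (0 : G) ∈ U
          exact Submodule.zero_mem _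
        add_mem' := by
          rintro a b ⟨h1, h2, h3⟩ ⟨h1', h2', h3'⟩
          refine ⟨?_, Submodule.add_mem _ h2 h2', ?_⟩
          · show a.2 0 + b.2 0 = α (a.1 + b.1)
            rw [h1, h1', map_add]
          · exact U.add_mem h3 h3'
        smul_mem' := by
          rintro r a ⟨h1, h2, h3⟩
          refine ⟨?_, Submodule.smul_mem _ r h2, ?_⟩
          · show r • a.2 0 = α (r • a.1)
            rw [h1, map_smul]
          · exact U.smul_mem r h3 }
    obtain ⟨W1, hW1⟩ := exists_selection ρ (by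
      intro v
      have h := hα v
      rw [hfac, act_append, mem_act_fac] at h
      obtain ⟨c, h0, hc, hd⟩ := h
      refine ⟨c, h0, ?_, hd⟩
      intro j hj
      have := hc j hj
      rwa [Nat.zero_add] at this)
    let β : V →ₗ[L] G := (LinearMap.proj d : (ℕ → G) →ₗ[L] G) ∘ₗ W1 ∘ₗ (T.symm : V →ₗ[L] V)
    have hβ : ∀ v, β v = W1 (T.symm v) d := fun v => rfl
    obtain ⟨Z1, hZ1, hZ2, hZ3⟩ := ih β (by
      intro v
      rw [hβ]
      exact (hW1 (T.symm v)).2.2)
    refine ⟨Z1 - W1 ∘ₗ (T.symm : V →ₗ[L] V), ?_, ?_, ?_⟩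
    · intro v
      exact Submodule.sub_mem _ (hZ1 v) (hW1 (T.symm v)).2.1
    · intro v
      show Z1 v 0 - W1 (T.symm v) 0 ∈ Lo
      refine Lo.sub_mem (hZ2 v) ?_
      have : W1 (T.symm v) 0 = α (T.symm v) := (hW1 (T.symm v)).1
      rw [this]
      exact hLo' _ (hα _)
    · intro v
      show (Z1 v d - W1 (T.symm v) d) - (Z1 (T v) 0 - W1 (T.symm (T v)) 0) = α v
      have h1 := hZ3 v
      rw [hβ] at h1
      have h2 : W1 v 0 = α v := (hW1 v).1
      rw [LinearEquiv.symm_apply_apply, h2, ← h1]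
      abel

end lift_aux


theorem lift_F {L G V : Type*} [Field L] [AddCommGroup G] [Module L G] [AddCommGroup V]
    [Module L V] (x y : Module.End L G)
    (P : ℕ → Bool) (d : ℕ) (hd : 0 < d) (hP : ∀ i, P (i + d) = P i)
    (Hi Lo : Submodule L G) (π : Hi →ₗ[L] V) (hπ : Function.Surjective π)
    (hker : ∀ m : Hi, π m = 0 ↔ (m : G) ∈ Lo) (hLH : Lo ≤ Hi) (T : V ≃ₗ[L] V)
    (hT : ∀ m m' : Hi, (∃ c : ℕ → G, c 0 = m ∧
      (∀ k, k < d → Stp x y (P k) (c k) (c (k + 1))) ∧ c d = m') → T (π m) = π m')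
    (hHi : act x y (fac P 0 d) Hi = Hi)
    (K : ℕ) (hLo : ∀ k, K ≤ k → act x y (fac P 0 k) ⊥ = Lo)
    (hLo' : ∀ k, act x y (fac P 0 k) ⊥ ≤ Lo) :
    ∃ F : ℕ → (V →ₗ[L] G), (∀ v, ∃ h : F 0 v ∈ Hi, π ⟨F 0 v, h⟩ = v) ∧
      (∀ i v, Stp x y (P i) (F i v) (F (i + 1) v)) ∧ (∀ i v, F (i + d) v = F i (T v)) := by
  -- selection of chains over `V`
  let ρ : Submodule L (V × (ℕ → G)) :=
    { carrier := {q | (∃ h : q.2 0 ∈ Hi, π ⟨q.2 0, h⟩ = q.1) ∧ q.2 ∈ chainSub x y P d ∧
        q.2 d ∈ Hi}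
      zero_mem' := by
        refine ⟨⟨Hi.zero_mem, ?_⟩, Submodule.zero_mem _, Hi.zero_mem⟩
        exact map_zero π
      add_mem' := by
        rintro a b ⟨⟨h, h1⟩, h2, h3⟩ ⟨⟨h', h1'⟩, h2', h3'⟩
        refine ⟨⟨Hi.add_mem h h', ?_⟩, Submodule.add_mem _ h2 h2', Hi.add_mem h3 h3'⟩
        show π ⟨a.2 0 + b.2 0, _⟩ = a.1 + b.1
        rw [← h1, ← h1', ← map_add]
        rfl
      smul_mem' := by
        rintro r a ⟨⟨h, h1⟩, h2, h3⟩
        refine ⟨⟨Hi.smul_mem r h, ?_⟩, Submodule.smul_mem _ r h2, Hi.smul_mem r h3⟩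
        show π ⟨r • a.2 0, _⟩ = r • a.1
        rw [← h1, ← map_smul]
        rfl }
  obtain ⟨W0, hW0⟩ := exists_selection ρ (by
    intro v
    obtain ⟨m, hm⟩ := hπ v
    have h : (m : G) ∈ act x y (fac P 0 d) Hi := by rw [hHi]; exact m.2
    rw [mem_act_fac] at h
    obtain ⟨c, h0, hc, hcd⟩ := h
    have hc0 : c 0 ∈ Hi := by rw [h0]; exact m.2
    refine ⟨c, ⟨hc0, ?_⟩, ?_, hcd⟩
    · show π ⟨c 0, hc0⟩ = v
      rw [← hm]
      congr 1
      exact Subtype.ext h0
    · intro j hj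
      have := hc j hj
      rwa [Nat.zero_add] at this)
  have hW0a : ∀ v, W0 v 0 ∈ Hi := fun v => (hW0 v).1.1
  have hW0b : ∀ v, π ⟨W0 v 0, hW0a v⟩ = v := fun v => (hW0 v).1.2
  have hW0c : ∀ v, W0 v ∈ chainSub x y P d := fun v => (hW0 v).2.1
  have hW0d : ∀ v, W0 v d ∈ Hi := fun v => (hW0 v).2.2
  have hW0e : ∀ v, π ⟨W0 v d, hW0d v⟩ = T v := by
    intro v
    have := hT ⟨W0 v 0, hW0a v⟩ ⟨W0 v d, hW0d v⟩ ⟨W0 v, rfl, hW0c v, rfl⟩
    rw [← this, hW0b]
  let δ : V →ₗ[L] G := (LinearMap.proj d : (ℕ → G) →ₗ[L] G) ∘ₗ W0 -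
    (LinearMap.proj 0 : (ℕ → G) →ₗ[L] G) ∘ₗ W0 ∘ₗ (T : V →ₗ[L] V)
  have hδ : ∀ v, δ v = W0 v d - W0 (T v) 0 := fun v => rfl
  have hδLo : ∀ v, δ v ∈ Lo := by
    intro v
    have h1 : π (⟨W0 v d, hW0d v⟩ - ⟨W0 (T v) 0, hW0a (T v)⟩) = 0 := by
      rw [map_sub, hW0e, hW0b, sub_self]
    have h2 := (hker _).1 h1
    exact h2
  have hKd : K ≤ K * d := Nat.le_mul_of_pos_right K hd
  obtain ⟨Z, hZ1, hZ2, hZ3⟩ := correction x y P d hP Lo T hLo' K (-δ) (by
    intro v
    rw [hLo _ hKd]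
    exact Lo.neg_mem (hδLo v))
  let Y : V →ₗ[L] (ℕ → G) := W0 + Z
  have hY : ∀ v j, Y v j = W0 v j + Z v j := fun v j => rfl
  have hYc : ∀ v, Y v ∈ chainSub x y P d := fun v => Submodule.add_mem _ (hW0c v) (hZ1 v)
  have hYd : ∀ v, Y v d = Y (T v) 0 := by
    intro v
    have h1 : Z v d - Z (T v) 0 = -(W0 v d - W0 (T v) 0) := hZ3 v
    rw [hY, hY]
    have h2 : W0 v d + Z v d - (W0 (T v) 0 + Z (T v) 0) = 0 := by
      have : W0 v d + Z v d - (W0 (T v) 0 + Z (T v) 0) =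
          (W0 v d - W0 (T v) 0) + (Z v d - Z (T v) 0) := by abel
      rw [this, h1]; abel
    exact sub_eq_zero.1 h2
  have hYa : ∀ v, ∃ h : Y v 0 ∈ Hi, π ⟨Y v 0, h⟩ = v := by
    intro v
    have hz : Z v 0 ∈ Hi := hLH (hZ2 v)
    refine ⟨Hi.add_mem (hW0a v) hz, ?_⟩
    have h1 : π ⟨Z v 0, hz⟩ = 0 := (hker _).2 (hZ2 v)
    have h2 : π (⟨W0 v 0, hW0a v⟩ + ⟨Z v 0, hz⟩) = v := by
      rw [map_add, hW0b, h1, add_zero]
    exact h2
  have hPm : ∀ i, P (i % d) = P i := by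
    intro i
    have key : ∀ q r, P (r + q * d) = P r := by
      intro q
      induction q with
      | zero => intro r; simp
      | succ q ih =>
        intro r
        have e : r + (q + 1) * d = (r + q * d) + d := by ring
        rw [e, hP, ih]
    have h := key (i / d) (i % d)
    have e : i % d + i / d * d = i := by
      rw [Nat.mul_comm]; exact Nat.mod_add_div i d
    rw [e] at h
    exact h.symm
  refine ⟨fun i => (LinearMap.proj (i % d) : (ℕ → G) →ₗ[L] G) ∘ₗ Y ∘ₗ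
    ((T : V →ₗ[L] V) ^ (i / d)), ?_, ?_, ?_⟩
  · intro v
    have h0 : ((LinearMap.proj (0 % d) : (ℕ → G) →ₗ[L] G) ∘ₗ Y ∘ₗ
        ((T : V →ₗ[L] V) ^ (0 / d))) v = Y v 0 := by
      simp [LinearMap.comp_apply]
    rw [h0]
    exact hYa v
  · intro i v
    show Stp x y (P i) (Y (((T : V →ₗ[L] V) ^ (i / d)) v) (i % d))
      (Y (((T : V →ₗ[L] V) ^ ((i + 1) / d)) v) ((i + 1) % d))
    have hr : i % d < d := Nat.mod_lt i hd
    have hc := hYc (((T : V →ₗ[L] V) ^ (i / d)) v) (i % d) hr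
    rw [hPm] at hc
    by_cases hlt : i % d + 1 < d
    · have e1 : (i + 1) % d = i % d + 1 := by
        rw [Nat.add_mod, Nat.mod_eq_of_lt (show 1 < d by omega), Nat.mod_eq_of_lt hlt]
      have e2 : (i + 1) / d = i / d := by
        have h1 := Nat.mod_add_div i d
        have h2 := Nat.mod_add_div (i + 1) d
        rw [e1] at h2
        have h3 : d * ((i + 1) / d) = d * (i / d) := by omega
        exact Nat.eq_of_mul_eq_mul_left hd h3
      rw [e1, e2]
      exact hc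
    · have hrd : i % d + 1 = d := by omega
      have h1 := Nat.mod_add_div i d
      have e0 : i + 1 = d * (i / d + 1) := by
        rw [Nat.mul_add, Nat.mul_one]; omega
      have e1 : (i + 1) % d = 0 := by rw [e0]; exact Nat.mul_mod_right _ _
      have e2 : (i + 1) / d = i / d + 1 := by
        rw [e0]; exact Nat.mul_div_cancel_left _ hd
      rw [e1, e2, pow_succ']
      have h3 : ((T : V →ₗ[L] V) * (T : V →ₗ[L] V) ^ (i / d)) v =
          T (((T : V →ₗ[L] V) ^ (i / d)) v) := rfl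
      rw [h3, ← hYd]
      rw [hrd] at hc
      exact hc
  · intro i v
    show Y (((T : V →ₗ[L] V) ^ ((i + d) / d)) v) ((i + d) % d) =
      Y (((T : V →ₗ[L] V) ^ (i / d)) (T v)) (i % d)
    rw [Nat.add_div_right _ hd, Nat.add_mod_right, pow_succ]
    rfl

end Pool.Agent.Helper693.N6
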