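import Pool.Agent.Helper693.Gt.Node1

/-! Band case: dual lifting -/

set_option autoImplicit false
set_option linter.unusedVariables false

namespace Pool.Agent.Helper693.N7

theorem StpD.add' {L G V : Type*} [Field L] [AddCommGroup G] [Module L G] [AddCommGroup V]
    [Module L V] {x y : Module.End L G} {b : Bool} {h h' g g' : G →ₗ[L] V}
    (h1 : StpD x y b h h') (h2 : StpD x y b g g') : StpD x y b (h + g) (h' + g') := by
  cases b
  · simp only [StpD] at h1 h2 ⊢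
    rw [h1, h2]; rfl
  · simp only [StpD] at h1 h2 ⊢
    rw [h1, h2]; rfl

theorem StpD.comp' {L G V : Type*} [Field L] [AddCommGroup G] [Module L G] [AddCommGroup V]
    [Module L V] {x y : Module.End L G} {b : Bool} {h h' : G →ₗ[L] V} (S : V →ₗ[L] V)
    (h1 : StpD x y b h h') : StpD x y b (S ∘ₗ h) (S ∘ₗ h') := by
  cases b
  · simp only [StpD] at h1 ⊢
    rw [h1]; rfl
  · simp only [StpD] at h1 ⊢
    rw [h1]; rfl

theorem P_add_mul' (P : ℕ → Bool) (d : ℕ) (hP : ∀ i, P (i + d) = P i) (q r : ℕ) :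
    P (q * d + r) = P r := by
  induction q with
  | zero => simp
  | succ q ih =>
    rw [← ih, ← hP (q * d + r)]
    congr 1
    ring

theorem fac_period' (P : ℕ → Bool) (d : ℕ) (hP : ∀ i, P (i + d) = P i) (n i : ℕ) :
    fac P (i + d) n = fac P i n := by
  induction n generalizing i with
  | zero => rfl
  | succ n ih =>
    simp only [fac]
    rw [hP]
    congr 1
    rw [← ih (i + 1)]
    congr 1
    ring

/-- the correction claim -/
theorem correction' {L G V : Type*} [Field L] [AddCommGroup G] [Module L G] [AddCommGroup V]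
    [Module L V] (x y : Module.End L G)
    (P : ℕ → Bool) (d : ℕ) (hP : ∀ i, P (i + d) = P i)
    (Hi : Submodule L G) (T : V ≃ₗ[L] V)
    (hHi' : ∀ k, Hi ≤ act x y (fac P 0 k) ⊤) (k : ℕ) :
    ∀ α : G →ₗ[L] V, (∀ m ∈ act x y (fac P 0 (k * d)) ⊤, α m = 0) →
      ∃ Z : ℕ → (G →ₗ[L] V), (∀ j, j < d → StpD x y (P j) (Z j) (Z (j + 1))) ∧
        (∀ m ∈ Hi, Z 0 m = 0) ∧ Z d - (T.symm : V →ₗ[L] V) ∘ₗ Z 0 = α := by
  induction k with
  | zero =>
    intro α hα
    have h0 : α = 0 := by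
      ext m
      exact hα m (by simp [fac, act])
    refine ⟨fun _ => 0, ?_, ?_, ?_⟩
    · intro j _
      cases (P j) <;> simp [StpD]
    · intro m _; rfl
    · rw [h0]; simp
  | succ k ih =>
    intro α hα
    have hfac : fac P 0 ((k + 1) * d) = fac P 0 d ++ fac P 0 (k * d) := by
      have e : (k + 1) * d = d + k * d := by ring
      rw [e, fac_add]
      congr 1
      exact fac_period' P d hP _ 0
    obtain ⟨W, hW0, hW, hWU⟩ := dchain x y P 0 d (act x y (fac P 0 (k * d)) ⊤)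
      (-((T : V →ₗ[L] V) ∘ₗ α)) (by
        intro m hm
        rw [← act_append, ← hfac] at hm
        simp [hα m hm])
    obtain ⟨Z, hZ, hZ0, hZd⟩ := ih (-(W d)) (by
      intro m hm
      simp [hWU m hm])
    refine ⟨fun j => W j + Z j, ?_, ?_, ?_⟩
    · intro j hj
      have h1 := hW j hj
      rw [Nat.zero_add] at h1
      exact StpD.add' h1 (hZ j hj)
    · intro m hm
      have h1 : α m = 0 := hα m (hHi' _ hm)
      simp [hW0, h1, hZ0 m hm]
    · have h2 : (T.symm : V →ₗ[L] V) ∘ₗ (W 0 + Z 0) = -α + (T.symm : V →ₗ[L] V) ∘ₗ Z 0 := by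
        rw [hW0]
        ext g
        simp
      show W d + Z d - (T.symm : V →ₗ[L] V) ∘ₗ (W 0 + Z 0) = α
      rw [h2]
      have h3 : Z d = -(W d) + (T.symm : V →ₗ[L] V) ∘ₗ Z 0 := by
        rw [← hZd]; abel
      rw [h3]
      abel

/-- periodic extension -/
theorem extend' {L G V : Type*} [Field L] [AddCommGroup G] [Module L G] [AddCommGroup V]
    [Module L V] (x y : Module.End L G)
    (P : ℕ → Bool) (d : ℕ) (hd : 0 < d) (hP : ∀ i, P (i + d) = P i) (T : V ≃ₗ[L] V)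
    (H' : ℕ → (G →ₗ[L] V)) (hH' : ∀ j, j < d → StpD x y (P j) (H' j) (H' (j + 1)))
    (hd' : H' d = (T.symm : V →ₗ[L] V) ∘ₗ H' 0) :
    ∃ H : ℕ → (G →ₗ[L] V), H 0 = H' 0 ∧
      (∀ i, StpD x y (P i) (H i) (H (i + 1))) ∧ (∀ i g, T (H (i + d) g) = H i g) := by
  let S : Module.End L V := (T.symm : V →ₗ[L] V)
  have hd'' : H' d = S ∘ₗ H' 0 := hd'
  let H : ℕ → (G →ₗ[L] V) := fun i => (S ^ (i / d) : V →ₗ[L] V) ∘ₗ H' (i % d)
  have key : ∀ q r, r ≤ d → H (q * d + r) = (S ^ q : V →ₗ[L] V) ∘ₗ H' r := by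
    intro q r hr
    rcases Nat.lt_or_eq_of_le hr with hr | hr
    · show (S ^ ((q * d + r) / d) : V →ₗ[L] V) ∘ₗ H' ((q * d + r) % d) = _
      have e1 : (q * d + r) / d = q := by
        rw [Nat.mul_comm, Nat.mul_add_div hd, Nat.div_eq_of_lt hr, Nat.add_zero]
      have e2 : (q * d + r) % d = r := by
        rw [Nat.mul_comm, Nat.mul_add_mod, Nat.mod_eq_of_lt hr]
      rw [e1, e2]
    · subst hr
      show (S ^ ((q * r + r) / r) : V →ₗ[L] V) ∘ₗ H' ((q * r + r) % r) = _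
      have e0 : q * r + r = (q + 1) * r := by ring
      rw [e0, Nat.mul_div_cancel _ hd, Nat.mul_mod_left, hd'', pow_succ]
      rfl
  refine ⟨H, ?_, ?_, ?_⟩
  · have := key 0 0 (Nat.zero_le _)
    rw [Nat.zero_mul, Nat.zero_add, pow_zero] at this
    rw [this]
    rfl
  · intro i
    have e : (i / d) * d + i % d = i := Nat.div_add_mod' i d
    have hr : i % d < d := Nat.mod_lt _ hd
    have h1 := key (i / d) (i % d) hr.le
    have h2 := key (i / d) (i % d + 1) hr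
    have e2 : (i / d) * d + (i % d + 1) = i + 1 := by omega
    rw [e] at h1
    rw [e2] at h2
    rw [h1, h2]
    have h3 : P i = P (i % d) := by
      conv_lhs => rw [← e]
      exact P_add_mul' P d hP _ _
    rw [h3]
    exact StpD.comp' _ (hH' _ hr)
  · intro i g
    show T (((S ^ ((i + d) / d) : V →ₗ[L] V) ∘ₗ H' ((i + d) % d)) g) =
      ((S ^ (i / d) : V →ₗ[L] V) ∘ₗ H' (i % d)) g
    rw [Nat.add_div_right _ hd, Nat.add_mod_right, pow_succ']
    show T (T.symm ((S ^ (i / d) : V →ₗ[L] V) (H' (i % d) g))) = _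
    rw [LinearEquiv.apply_symm_apply]
    rfl

/-- pairing along a chain -/
theorem pairing_chain' {L G V : Type*} [Field L] [AddCommGroup G] [Module L G] [AddCommGroup V]
    [Module L V] (x y : Module.End L G) (P : ℕ → Bool) (d : ℕ) (c : ℕ → G)
    (W : ℕ → (G →ₗ[L] V))
    (hc : ∀ k, k < d → Stp x y (P k) (c k) (c (k + 1)))
    (hW : ∀ k, k < d → StpD x y (P k) (W k) (W (k + 1))) :
    W d (c d) = W 0 (c 0) := by
  have : ∀ k, k ≤ d → W k (c k) = W 0 (c 0) := by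
    intro k
    induction k with
    | zero => intro _; rfl
    | succ k ih =>
      intro hk
      rw [← ih (by omega)]
      exact (pairing x y (P k) (hc k hk) (hW k hk)).symm
  exact this d le_rfl

theorem lift_H {L G V : Type*} [Field L] [AddCommGroup G] [Module L G] [AddCommGroup V]
    [Module L V] (x y : Module.End L G)
    (P : ℕ → Bool) (d : ℕ) (hd : 0 < d) (hP : ∀ i, P (i + d) = P i)
    (Hi Lo : Submodule L G) (π : Hi →ₗ[L] V) (hπ : Function.Surjective π)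
    (hker : ∀ m : Hi, π m = 0 ↔ (m : G) ∈ Lo) (hLH : Lo ≤ Hi) (T : V ≃ₗ[L] V)
    (hT : ∀ m m' : Hi, (∃ c : ℕ → G, c 0 = m ∧
      (∀ k, k < d → Stp x y (P k) (c k) (c (k + 1))) ∧ c d = m') → T (π m) = π m')
    (hHi₀ : act x y (fac P 0 d) Hi = Hi) (hLo : act x y (fac P 0 d) Lo = Lo)
    (K : ℕ) (hHi : ∀ k, K ≤ k → act x y (fac P 0 k) ⊤ = Hi)
    (hHi' : ∀ k, Hi ≤ act x y (fac P 0 k) ⊤) :
    ∃ H : ℕ → (G →ₗ[L] V), (∀ m : Hi, H 0 m = π m) ∧
      (∀ i, StpD x y (P i) (H i) (H (i + 1))) ∧ (∀ i g, T (H (i + d) g) = H i g) := by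
  obtain ⟨η, hη⟩ := LinearMap.exists_extend π
  have hη' : ∀ m : Hi, η m = π m := fun m => by rw [← hη]; rfl
  obtain ⟨W, hW0, hW, hWU⟩ := dchain x y P 0 d Lo η (by
    intro m hm
    rw [hLo] at hm
    have := hη' ⟨m, hLH hm⟩
    rw [show η m = η ((⟨m, hLH hm⟩ : Hi) : G) from rfl, this, hker]
    exact hm)
  have hW' : ∀ k, k < d → StpD x y (P k) (W k) (W (k + 1)) := by
    intro k hk
    have := hW k hk
    rwa [Nat.zero_add] at this
  -- delta vanishes on Hi
  have hδ : ∀ m : Hi, W d m = T.symm (π m) := by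
    intro m
    obtain ⟨m₀, hm₀⟩ := hπ (T.symm (π m))
    have hm₀' : (m₀ : G) ∈ act x y (fac P 0 d) Hi := by rw [hHi₀]; exact m₀.2
    rw [mem_act_fac] at hm₀'
    obtain ⟨c, hc0, hc, hcd⟩ := hm₀'
    have hc' : ∀ k, k < d → Stp x y (P k) (c k) (c (k + 1)) := by
      intro k hk
      have := hc k hk
      rwa [Nat.zero_add] at this
    have h1 := hT m₀ ⟨c d, hcd⟩ ⟨c, hc0, hc', rfl⟩
    rw [hm₀, LinearEquiv.apply_symm_apply] at h1
    have h2 : (c d - (m : G)) ∈ Lo := by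
      have h3 : π (⟨c d, hcd⟩ - m) = 0 := by rw [map_sub, ← h1, sub_self]
      exact (hker _).1 h3
    have h4 := hWU _ h2
    rw [map_sub, sub_eq_zero] at h4
    rw [← h4, pairing_chain' x y P d c W hc' hW', hW0, hc0, hη', hm₀]
  obtain ⟨Z, hZ, hZ0, hZd⟩ := correction' x y P d hP Hi T hHi' K
    (-(W d - (T.symm : V →ₗ[L] V) ∘ₗ W 0)) (by
      intro m hm
      rw [hHi _ (Nat.le_mul_of_pos_right K hd)] at hm
      have h1 := hδ ⟨m, hm⟩
      have h2 := hη' ⟨m, hm⟩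
      simp only at h1 h2
      rw [LinearMap.neg_apply, LinearMap.sub_apply, LinearMap.comp_apply, hW0, h1, h2]
      simp)
  obtain ⟨H, hH0, hH, hHT⟩ := extend' x y P d hd hP T (fun j => W j + Z j)
    (fun j hj => StpD.add' (hW' j hj) (hZ j hj)) (by
      show W d + Z d = (T.symm : V →ₗ[L] V) ∘ₗ (W 0 + Z 0)
      rw [LinearMap.comp_add]
      have h3 : Z d = -(W d - (T.symm : V →ₗ[L] V) ∘ₗ W 0) + (T.symm : V →ₗ[L] V) ∘ₗ Z 0 := by
        rw [← hZd]; abel
      rw [h3]; abel)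
  refine ⟨H, ?_, hH, hHT⟩
  intro m
  rw [hH0]
  show (W 0 + Z 0) (m : G) = π m
  rw [LinearMap.add_apply, hZ0 _ m.2, add_zero, hW0, hη']

end Pool.Agent.Helper693.N7
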