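import Pool.Agent.Helper693.Gt.Node0
import Pool.Agent.Helper693.Gt.UT

/-! Band case: splitting -/

set_option autoImplicit false
set_option linter.unusedVariables false

namespace Pool.Agent.Helper693.N8


section band


private def LTw (P : ℕ → Bool) (j i : ℕ) : Prop :=
  ∃ k, (∀ k', k' < k → P (j + k') = P (i + k')) ∧ P (j + k) = true ∧ P (i + k) = false

private theorem LTw_irrefl (P : ℕ → Bool) (i : ℕ) : ¬ LTw P i i := by
  rintro ⟨k, -, h1, h2⟩
  rw [h1] at h2
  exact absurd h2 (by decide)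

private theorem LTw_trans (P : ℕ → Bool) {a b c : ℕ} (h1 : LTw P a b) (h2 : LTw P b c) :
    LTw P a c := by
  obtain ⟨k, hk, ha, hb⟩ := h1
  obtain ⟨l, hl, hb', hc⟩ := h2
  rcases lt_trichotomy k l with h | h | h
  · exact ⟨k, fun k' hk' => (hk k' hk').trans (hl k' (hk'.trans h)), ha, (hl k h).symm.trans hb⟩
  · subst h
    rw [hb] at hb'
    exact absurd hb' (by decide)
  · exact ⟨l, fun k' hk' => (hk k' (hk'.trans h)).trans (hl k' hk'), (hk l h).trans hb', hc⟩

private theorem LTw_total (P : ℕ → Bool) {i j : ℕ} (h : ∃ k, P (i + k) ≠ P (j + k)) :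
    LTw P i j ∨ LTw P j i := by
  classical
  have hs := Nat.find_spec h
  have hm : ∀ k', k' < Nat.find h → P (i + k') = P (j + k') := by
    intro k' hk'
    have := Nat.find_min h hk'
    simpa using this
  cases ha : P (i + Nat.find h) <;> cases hb : P (j + Nat.find h)
  · exact absurd (ha.trans hb.symm) hs
  · exact Or.inr ⟨Nat.find h, fun k' hk' => (hm k' hk').symm, hb, ha⟩
  · exact Or.inl ⟨Nat.find h, hm, ha, hb⟩
  · exact absurd (ha.trans hb.symm) hs

/-- an enumeration of the shifts of a periodic word compatible with the lexicographic order -/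
theorem exists_rank (P : ℕ → Bool) (d : ℕ) (hd : 0 < d) (hP : ∀ i, P (i + d) = P i)
    (hdist : ∀ i j, i < d → j < d → (∀ k, P (i + k) = P (j + k)) → i = j) :
    ∃ rk : Fin d → ℕ, Function.Injective rk ∧ ∀ i j : Fin d, rk j < rk i →
      ∃ k, (∀ k', k' < k → P (j + k') = P (i + k')) ∧ P (j + k) = true ∧ P (i + k) = false := by
  classical
  have hmono : ∀ i j : Fin d, LTw P j i →
      (Finset.univ.filter fun l : Fin d => LTw P l j).card <
        (Finset.univ.filter fun l : Fin d => LTw P l i).card := by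
    intro i j h
    apply Finset.card_lt_card
    rw [Finset.ssubset_iff_of_subset]
    · refine ⟨j, ?_, ?_⟩
      · simpa using h
      · simpa using LTw_irrefl P j
    · intro l hl
      have hl' : LTw P l j := by simpa using hl
      simpa using LTw_trans P hl' h
  have htot : ∀ i j : Fin d, i ≠ j → LTw P i j ∨ LTw P j i := by
    intro i j hij
    apply LTw_total
    by_contra hcon
    push Not at hcon
    exact hij (Fin.ext (hdist i j i.2 j.2 hcon))
  refine ⟨fun i => (Finset.univ.filter fun l : Fin d => LTw P l i).card, ?_, ?_⟩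
  · intro i j hij
    by_contra hne
    rcases htot i j hne with h | h
    · exact absurd hij (hmono j i h).ne
    · exact absurd hij (hmono i j h).ne'
  · intro i j hij
    have hne : i ≠ j := by
      rintro rfl
      exact absurd hij (lt_irrefl _)
    rcases htot i j hne with h | h
    · exact absurd (hmono j i h) (not_lt.mpr hij.le)
    · exact h

variable {L G V : Type*} [Field L] [AddCommGroup G] [Module L G] [AddCommGroup V]
    [Module L V]

theorem band_diag (x y : Module.End L G) (P : ℕ → Bool) (F : ℕ → (V →ₗ[L] G))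
    (H : ℕ → (G →ₗ[L] V)) (hF : ∀ i v, Stp x y (P i) (F i v) (F (i + 1) v))
    (hH : ∀ i, StpD x y (P i) (H i) (H (i + 1))) (h0 : ∀ v, H 0 (F 0 v) = v) (i : ℕ) :
    H i ∘ₗ F i = LinearMap.id := by
  have key : ∀ i v, H i (F i v) = v := by
    intro i
    induction i with
    | zero => exact h0
    | succ i ih =>
      intro v
      rw [← pairing x y (P i) (hF i v) (hH i)]
      exact ih v
  ext v
  exact key i v

theorem band_tri (x y : Module.End L G) (hyx : y * x = 0) (P : ℕ → Bool)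
    (F : ℕ → (V →ₗ[L] G)) (H : ℕ → (G →ₗ[L] V))
    (hF : ∀ i v, Stp x y (P i) (F i v) (F (i + 1) v))
    (hH : ∀ i, StpD x y (P i) (H i) (H (i + 1)))
    (i j k : ℕ) (hk : ∀ k', k' < k → P (i + k') = P (j + k')) (hi : P (i + k) = true)
    (hj : P (j + k) = false) : H j ∘ₗ F i = 0 := by
  have key : ∀ k1, k1 ≤ k → ∀ v, H j (F i v) = H (j + k1) (F (i + k1) v) := by
    intro k1
    induction k1 with
    | zero => intro _ v; rfl
    | succ k1 ih =>
      intro hk1 v
      rw [ih (by omega) v]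
      have h1 := hF (i + k1) v
      rw [hk k1 (by omega)] at h1
      exact pairing x y (P (j + k1)) h1 (hH (j + k1))
  ext v
  rw [LinearMap.comp_apply, key k le_rfl v, LinearMap.zero_apply]
  have h1 := hF (i + k) v
  rw [hi] at h1
  have h2 := hH (j + k)
  rw [hj] at h2
  simp only [Stp] at h1
  simp only [StpD] at h2
  rw [h1, h2, LinearMap.comp_apply]
  have h3 : y (x (F (i + k + 1) v)) = 0 := by
    have := congrArg (fun t : Module.End L G => t (F (i + k + 1) v)) hyx
    simpa using this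
  rw [h3, map_zero]

private theorem mapF_le (P : ℕ → Bool) (d : ℕ) (hd : 0 < d)
    (T : V ≃ₗ[L] V) (F : ℕ → (V →ₗ[L] G))
    (hFT : ∀ i v, F (i + d) v = F i (T v))
    (p : Submodule L V) (hp : ∀ v ∈ p, T v ∈ p) (n : ℕ) :
    ∀ v ∈ p, F n v ∈ ⨆ i : Fin d, p.map (F i) := by
  induction n using Nat.strong_induction_on with
  | _ n ih =>
    intro v hv
    rcases Nat.lt_or_ge n d with h | h
    · exact Submodule.mem_iSup_of_mem (⟨n, h⟩ : Fin d) ⟨v, hv, rfl⟩
    · obtain ⟨m, rfl⟩ := Nat.exists_eq_add_of_le' h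
      rw [hFT]
      exact ih m (by omega) _ (hp v hv)

private theorem stableF (x y : Module.End L G) (hxy : x * y = 0) (hyx : y * x = 0)
    (P : ℕ → Bool) (d : ℕ) (hd : 0 < d)
    (T : V ≃ₗ[L] V) (F : ℕ → (V →ₗ[L] G))
    (hF : ∀ i v, Stp x y (P i) (F i v) (F (i + 1) v))
    (hFT : ∀ i v, F (i + d) v = F i (T v))
    (p : Submodule L V) (hp : ∀ v ∈ p, T v ∈ p) (hp' : ∀ v ∈ p, T.symm v ∈ p) :
    (∀ g ∈ ⨆ i : Fin d, p.map (F i), x g ∈ ⨆ i : Fin d, p.map (F i)) ∧
    (∀ g ∈ ⨆ i : Fin d, p.map (F i), y g ∈ ⨆ i : Fin d, p.map (F i)) := by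
  have hxy' : ∀ g, x (y g) = 0 := by
    intro g
    have := congrArg (fun t : Module.End L G => t g) hxy
    simpa using this
  have hyx' : ∀ g, y (x g) = 0 := by
    intro g
    have := congrArg (fun t : Module.End L G => t g) hyx
    simpa using this
  constructor
  · suffices h : (⨆ i : Fin d, p.map (F i)) ≤ (⨆ i : Fin d, p.map (F i)).comap x from
      fun g hg => h hg
    refine iSup_le fun i => ?_
    rintro g ⟨v, hv, rfl⟩
    rw [Submodule.mem_comap]
    obtain ⟨m, hm⟩ : ∃ m, (i : ℕ) + d = m + 1 := ⟨i + d - 1, by omega⟩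
    have e : F i v = F (m + 1) (T.symm v) := by
      rw [← hm, hFT, LinearEquiv.apply_symm_apply]
    have hs := hF m (T.symm v)
    rw [e]
    cases hPm : P m
    · rw [hPm] at hs
      simp only [Stp] at hs
      rw [← hs, hxy']
      exact Submodule.zero_mem _
    · rw [hPm] at hs
      simp only [Stp] at hs
      rw [← hs]
      exact mapF_le P d hd T F hFT p hp m _ (hp' v hv)
  · suffices h : (⨆ i : Fin d, p.map (F i)) ≤ (⨆ i : Fin d, p.map (F i)).comap y from
      fun g hg => h hg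
    refine iSup_le fun i => ?_
    rintro g ⟨v, hv, rfl⟩
    rw [Submodule.mem_comap]
    have hs := hF i v
    cases hPi : P i
    · rw [hPi] at hs
      simp only [Stp] at hs
      rw [hs]
      exact mapF_le P d hd T F hFT p hp _ _ hv
    · rw [hPi] at hs
      simp only [Stp] at hs
      rw [hs, hyx']
      exact Submodule.zero_mem _

private theorem kerH (d : ℕ) (hd : 0 < d) (T : V ≃ₗ[L] V) (H : ℕ → (G →ₗ[L] V))
    (hHT : ∀ i g, T (H (i + d) g) = H i g) (g : G)
    (hg : g ∈ ⨅ i : Fin d, LinearMap.ker (H i)) (n : ℕ) : H n g = 0 := by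
  induction n using Nat.strong_induction_on with
  | _ n ih =>
    rcases Nat.lt_or_ge n d with h | h
    · rw [Submodule.mem_iInf] at hg
      exact LinearMap.mem_ker.mp (hg ⟨n, h⟩)
    · obtain ⟨m, rfl⟩ := Nat.exists_eq_add_of_le' h
      have h1 := hHT m g
      rw [ih m (by omega)] at h1
      exact (LinearEquiv.map_eq_zero_iff T).mp h1

private theorem stableH (x y : Module.End L G) (hxy : x * y = 0) (hyx : y * x = 0)
    (P : ℕ → Bool) (d : ℕ) (hd : 0 < d)
    (T : V ≃ₗ[L] V) (H : ℕ → (G →ₗ[L] V))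
    (hH : ∀ i, StpD x y (P i) (H i) (H (i + 1)))
    (hHT : ∀ i g, T (H (i + d) g) = H i g) :
    (∀ g ∈ ⨅ i : Fin d, LinearMap.ker (H i), x g ∈ ⨅ i : Fin d, LinearMap.ker (H i)) ∧
    (∀ g ∈ ⨅ i : Fin d, LinearMap.ker (H i), y g ∈ ⨅ i : Fin d, LinearMap.ker (H i)) := by
  have hxy' : ∀ g, x (y g) = 0 := by
    intro g
    have := congrArg (fun t : Module.End L G => t g) hxy
    simpa using this
  have hyx' : ∀ g, y (x g) = 0 := by
    intro g
    have := congrArg (fun t : Module.End L G => t g) hyx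
    simpa using this
  constructor
  · intro g hg
    have hall := kerH d hd T H hHT g hg
    rw [Submodule.mem_iInf]
    intro i
    rw [LinearMap.mem_ker]
    have hs := hH i
    cases hPi : P i
    · rw [hPi] at hs
      simp only [StpD] at hs
      rw [hs, LinearMap.comp_apply, hyx', map_zero]
    · rw [hPi] at hs
      simp only [StpD] at hs
      have := hall (i + 1)
      rw [hs, LinearMap.comp_apply] at this
      exact this
  · intro g hg
    have hall := kerH d hd T H hHT g hg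
    rw [Submodule.mem_iInf]
    intro i
    rw [LinearMap.mem_ker]
    obtain ⟨m, hm⟩ : ∃ m, (i : ℕ) + d = m + 1 := ⟨i + d - 1, by omega⟩
    rw [← hHT, hm]
    have hs := hH m
    cases hPm : P m
    · rw [hPm] at hs
      simp only [StpD] at hs
      have := hall m
      rw [hs, LinearMap.comp_apply] at this
      rw [this, map_zero]
    · rw [hPm] at hs
      simp only [StpD] at hs
      rw [hs, LinearMap.comp_apply, hxy', map_zero, map_zero]

/-- the band splits off, so it is everything -/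
theorem band_top [Nontrivial V] (x y : Module.End L G) (hxy : x * y = 0) (hyx : y * x = 0)
    (hind : ∀ p q : Submodule L G, (∀ g ∈ p, x g ∈ p) → (∀ g ∈ p, y g ∈ p) →
      (∀ g ∈ q, x g ∈ q) → (∀ g ∈ q, y g ∈ q) → IsCompl p q → p = ⊥ ∨ q = ⊥)
    (P : ℕ → Bool) (d : ℕ) (hd : 0 < d) (hP : ∀ i, P (i + d) = P i)
    (hdist : ∀ i j, i < d → j < d → (∀ k, P (i + k) = P (j + k)) → i = j)
    (T : V ≃ₗ[L] V) (F : ℕ → (V →ₗ[L] G)) (H : ℕ → (G →ₗ[L] V))
    (hF : ∀ i v, Stp x y (P i) (F i v) (F (i + 1) v))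
    (hH : ∀ i, StpD x y (P i) (H i) (H (i + 1))) (h0 : ∀ v, H 0 (F 0 v) = v)
    (hFT : ∀ i v, F (i + d) v = F i (T v)) (hHT : ∀ i g, T (H (i + d) g) = H i g) :
    ⨆ i : Fin d, LinearMap.range (F i) = ⊤ := by
  obtain ⟨rk, hrk, hrk2⟩ := exists_rank P d hd hP hdist
  have hdiag : ∀ i : Fin d, H i ∘ₗ F i = LinearMap.id := fun i => band_diag x y P F H hF hH h0 i
  have htri : ∀ i j : Fin d, rk j < rk i → H i ∘ₗ F j = 0 := by
    intro i j hij
    obtain ⟨k, hk, h1, h2⟩ := hrk2 i j hij
    exact band_tri x y hyx P F H hF hH j i k hk h1 h2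
  have hc := unitri_isCompl rk hrk (fun i : Fin d => F i) (fun i : Fin d => H i) hdiag htri
  have hr : (⨆ i : Fin d, LinearMap.range (F i)) = ⨆ i : Fin d, (⊤ : Submodule L V).map (F i) := by
    simp only [Submodule.map_top]
  have hsF := stableF x y hxy hyx P d hd T F hF hFT ⊤ (fun _ _ => trivial) (fun _ _ => trivial)
  rw [← hr] at hsF
  have hsH := stableH x y hxy hyx P d hd T H hH hHT
  rcases hind _ _ hsF.1 hsF.2 hsH.1 hsH.2 hc with h | h
  · exfalso
    obtain ⟨v, hv⟩ := exists_ne (0 : V)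
    apply hv
    have h1 : F 0 v ∈ ⨆ i : Fin d, LinearMap.range (F i) :=
      Submodule.mem_iSup_of_mem (⟨0, hd⟩ : Fin d) ⟨v, rfl⟩
    rw [h, Submodule.mem_bot] at h1
    rw [← h0 v, h1, map_zero]
  · have := hc.sup_eq_top
    rw [h, sup_bot_eq] at this
    exact this

/-- the monodromy `T` has no nontrivial stable decomposition -/
theorem band_indec [Nontrivial V] (x y : Module.End L G) (hxy : x * y = 0) (hyx : y * x = 0)
    (hind : ∀ p q : Submodule L G, (∀ g ∈ p, x g ∈ p) → (∀ g ∈ p, y g ∈ p) →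
      (∀ g ∈ q, x g ∈ q) → (∀ g ∈ q, y g ∈ q) → IsCompl p q → p = ⊥ ∨ q = ⊥)
    (P : ℕ → Bool) (d : ℕ) (hd : 0 < d) (hP : ∀ i, P (i + d) = P i)
    (hdist : ∀ i j, i < d → j < d → (∀ k, P (i + k) = P (j + k)) → i = j)
    (T : V ≃ₗ[L] V) (F : ℕ → (V →ₗ[L] G)) (H : ℕ → (G →ₗ[L] V))
    (hF : ∀ i v, Stp x y (P i) (F i v) (F (i + 1) v))
    (hH : ∀ i, StpD x y (P i) (H i) (H (i + 1))) (h0 : ∀ v, H 0 (F 0 v) = v)
    (hFT : ∀ i v, F (i + d) v = F i (T v)) (hHT : ∀ i g, T (H (i + d) g) = H i g)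
    (p q : Submodule L V) (hp : ∀ v ∈ p, T v ∈ p) (hq : ∀ v ∈ q, T v ∈ q) (hpq : IsCompl p q) :
    p = ⊥ ∨ q = ⊥ := by
  obtain ⟨rk, hrk, hrk2⟩ := exists_rank P d hd hP hdist
  have hdiag : ∀ i : Fin d, H i ∘ₗ F i = LinearMap.id := fun i => band_diag x y P F H hF hH h0 i
  have htri : ∀ i j : Fin d, rk j < rk i → H i ∘ₗ F j = 0 := by
    intro i j hij
    obtain ⟨k, hk, h1, h2⟩ := hrk2 i j hij
    exact band_tri x y hyx P F H hF hH j i k hk h1 h2
  have htop := band_top x y hxy hyx hind P d hd hP hdist T F H hF hH h0 hFT hHT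
  -- inverse stability
  have hinv : ∀ p q : Submodule L V, (∀ v ∈ p, T v ∈ p) → (∀ v ∈ q, T v ∈ q) → IsCompl p q →
      ∀ v ∈ p, T.symm v ∈ p := by
    intro p q hp hq hpq v hv
    have hw : T.symm v ∈ p ⊔ q := by rw [hpq.sup_eq_top]; trivial
    obtain ⟨a, ha, b, hb, hab⟩ := Submodule.mem_sup.mp hw
    have h1 : T a + T b = v := by
      rw [← map_add, hab, LinearEquiv.apply_symm_apply]
    have h2 : T b = 0 := by
      have h3 : T b ∈ p := by
        have : T b = v - T a := by rw [← h1]; abel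
        rw [this]
        exact Submodule.sub_mem _ hv (hp a ha)
      exact Submodule.disjoint_def.mp hpq.disjoint _ h3 (hq b hb)
    have h3 : b = 0 := (LinearEquiv.map_eq_zero_iff T).mp h2
    rw [← hab, h3, add_zero]
    exact ha
  have hp' := hinv p q hp hq hpq
  have hq' := hinv q p hq hp hpq.symm
  have hc := unitri_decomp rk hrk (fun i : Fin d => F i) (fun i : Fin d => H i) hdiag htri htop
    p q hpq
  have hsp := stableF x y hxy hyx P d hd T F hF hFT p hp hp'
  have hsq := stableF x y hxy hyx P d hd T F hF hFT q hq hq'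
  have hbot : ∀ p : Submodule L V, (⨆ i : Fin d, p.map (F i)) = ⊥ → p = ⊥ := by
    intro p h
    rw [Submodule.eq_bot_iff]
    intro v hv
    have h1 : F 0 v ∈ ⨆ i : Fin d, p.map (F i) :=
      Submodule.mem_iSup_of_mem (⟨0, hd⟩ : Fin d) ⟨v, hv, rfl⟩
    rw [h, Submodule.mem_bot] at h1
    rw [← h0 v, h1, map_zero]
  rcases hind _ _ hsp.1 hsp.2 hsq.1 hsq.2 hc with h | h
  · exact Or.inl (hbot p h)
  · exact Or.inr (hbot q h)

end band

end Pool.Agent.Helper693.N8
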