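import Mathlib

/-! Words acting on submodules -/

set_option autoImplicit false
set_option linter.unusedVariables false

namespace Pool.Agent.Helper693

section defs

variable {S G : Type*} [Ring S] [AddCommGroup G] [Module S G]

/-- one letter: `true` is the letter `x` (`m = x m'`), `false` is the letter `y⁻¹` (`y m = m'`) -/
def Stp (x y : Module.End S G) : Bool → G → G → Prop
  | true, m, m' => m = x m'
  | false, m, m' => y m = m'

/-- action of a letter on submodules: image under `x`, preimage under `y` -/
def act1 (x y : Module.End S G) : Bool → Submodule S G → Submodule S G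
  | true, U => U.map x
  | false, U => U.comap y

/-- action of a word on submodules -/
def act (x y : Module.End S G) : List Bool → Submodule S G → Submodule S G
  | [], U => U
  | a :: w, U => act1 x y a (act x y w U)

/-- a word is alive if it separates bottom and top -/
def Alive (x y : Module.End S G) (w : List Bool) : Prop :=
  act x y w ⊥ ≠ act x y w ⊤

/-- the factor of length `n` of the infinite word `P` starting at position `i` -/
def fac (P : ℕ → Bool) : ℕ → ℕ → List Bool
  | _, 0 => []
  | i, n + 1 => P i :: fac P (i + 1) n

variable {V : Type*} [AddCommGroup V] [Module S V]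

/-- one letter for functionals, dual to `Stp` -/
def StpD (x y : Module.End S G) : Bool → (G →ₗ[S] V) → (G →ₗ[S] V) → Prop
  | true, h, h' => h' = h ∘ₗ x
  | false, h, h' => h = h' ∘ₗ y

theorem mem_act1 (x y : Module.End S G) (b : Bool) (U : Submodule S G) (m : G) :
    m ∈ act1 x y b U ↔ ∃ m' ∈ U, Stp x y b m m' := by
  cases b
  · simp [act1, Stp]
  · simp only [act1, Stp, Submodule.mem_map]
    constructor
    · rintro ⟨m', h, e⟩; exact ⟨m', h, e.symm⟩
    · rintro ⟨m', h, e⟩; exact ⟨m', h, e.symm⟩

theorem act1_mono (x y : Module.End S G) (b : Bool) {U U' : Submodule S G} (h : U ≤ U') :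
    act1 x y b U ≤ act1 x y b U' := by
  intro m hm
  rw [mem_act1] at hm ⊢
  obtain ⟨m', hm', e⟩ := hm
  exact ⟨m', h hm', e⟩

theorem act_mono (x y : Module.End S G) (w : List Bool) {U U' : Submodule S G} (h : U ≤ U') :
    act x y w U ≤ act x y w U' := by
  induction w with
  | nil => exact h
  | cons a w ih => exact act1_mono x y a ih

theorem act_append (x y : Module.End S G) (u v : List Bool) (U : Submodule S G) :
    act x y (u ++ v) U = act x y u (act x y v U) := by
  induction u with
  | nil => rfl
  | cons a u ih => simp only [List.cons_append, act, ih]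

theorem fac_length (P : ℕ → Bool) (i n : ℕ) : (fac P i n).length = n := by
  induction n generalizing i with
  | zero => rfl
  | succ n ih => simp [fac, ih]

theorem fac_add (P : ℕ → Bool) (i n k : ℕ) : fac P i (n + k) = fac P i n ++ fac P (i + n) k := by
  induction n generalizing i with
  | zero => simp [fac]
  | succ n ih =>
    have : n + 1 + k = (n + k) + 1 := by ring
    rw [this]
    simp only [fac, List.cons_append, ih]
    congr 2
    ring_nf

/-- membership in the action of a factor is existence of a chain -/
theorem mem_act_fac (x y : Module.End S G) (P : ℕ → Bool) (i n : ℕ) (U : Submodule S G) (m : G) :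
    m ∈ act x y (fac P i n) U ↔
      ∃ c : ℕ → G, c 0 = m ∧ (∀ k, k < n → Stp x y (P (i + k)) (c k) (c (k + 1))) ∧ c n ∈ U := by
  induction n generalizing i m with
  | zero =>
    simp only [fac, act]
    constructor
    · intro h; exact ⟨fun _ => m, rfl, fun k hk => absurd hk (Nat.not_lt_zero k), h⟩
    · rintro ⟨c, rfl, -, h⟩; exact h
  | succ n ih =>
    simp only [fac, act]
    rw [mem_act1]
    constructor
    · rintro ⟨m', hm', hs⟩
      rw [ih] at hm'
      obtain ⟨c, hc0, hc, hcU⟩ := hm'
      refine ⟨fun k => if k = 0 then m else c (k - 1), by simp, ?_, ?_⟩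
      · intro k hk
        rcases k with _ | k
        · simpa [hc0] using hs
        · have := hc k (by omega)
          simp only [Nat.add_eq_zero_iff, one_ne_zero, and_false, if_false, Nat.add_sub_cancel]
          have e : i + (k + 1) = i + 1 + k := by ring
          rw [e]
          exact this
      · simpa using hcU
    · rintro ⟨c, hc0, hc, hcU⟩
      refine ⟨c 1, ?_, ?_⟩
      · rw [ih]
        refine ⟨fun k => c (k + 1), rfl, ?_, hcU⟩
        intro k hk
        have := hc (k + 1) (by omega)
        have e : i + (k + 1) = i + 1 + k := by ring
        rw [e] at this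
        exact this
      · have := hc 0 (by omega)
        rwa [hc0, Nat.add_zero] at this

/-- the pairing is constant along steps -/
theorem pairing (x y : Module.End S G) (b : Bool) {m m' : G} {h h' : G →ₗ[S] V}
    (hs : Stp x y b m m') (hd : StpD x y b h h') : h m = h' m' := by
  cases b
  · simp only [Stp, StpD] at hs hd
    rw [hd, ← hs]; rfl
  · simp only [Stp, StpD] at hs hd
    rw [hd, hs]; rfl

end defs

end Pool.Agent.Helper693
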