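import Pool.Agent.Helper693.Gt.Node0

/-! Linear selection and dual chains -/

set_option autoImplicit false
set_option linter.unusedVariables false

namespace Pool.Agent.Helper693

section dual

variable {L G V : Type*} [Field L] [AddCommGroup G] [Module L G] [AddCommGroup V] [Module L V]

/-- a linear map vanishing on the kernel of another factors through it -/
theorem exists_factor {W : Type*} [AddCommGroup W] [Module L W] (z : G →ₗ[L] W) (η : G →ₗ[L] V)
    (h : ∀ g, z g = 0 → η g = 0) : ∃ θ : W →ₗ[L] V, θ ∘ₗ z = η := by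
  have hle : LinearMap.ker z ≤ LinearMap.ker η := fun g hg => h g hg
  let θ0 : LinearMap.range z →ₗ[L] V :=
    ((LinearMap.ker z).liftQ η hle) ∘ₗ (z.quotKerEquivRange.symm : LinearMap.range z →ₗ[L] _)
  obtain ⟨θ, hθ⟩ := LinearMap.exists_extend θ0
  refine ⟨θ, ?_⟩
  ext g
  have h1 : θ (z g) = θ0 ⟨z g, LinearMap.mem_range_self z g⟩ := by
    rw [← hθ]; rfl
  rw [LinearMap.comp_apply, h1]
  simp only [θ0, LinearMap.comp_apply, LinearEquiv.coe_coe]
  have h2 : z.quotKerEquivRange.symm ⟨z g, LinearMap.mem_range_self z g⟩ =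
      (LinearMap.ker z).mkQ g := by
    rw [LinearEquiv.symm_apply_eq]
    rfl
  rw [h2, Submodule.mkQ_apply, Submodule.liftQ_apply]

/-- linear selection from a total linear relation -/
theorem exists_selection {W : Type*} [AddCommGroup W] [Module L W] (ρ : Submodule L (V × W))
    (h : ∀ v, ∃ w, (v, w) ∈ ρ) : ∃ f : V →ₗ[L] W, ∀ v, (v, f v) ∈ ρ := by
  let p : ρ →ₗ[L] V := (LinearMap.fst L V W) ∘ₗ ρ.subtype
  have hp : LinearMap.range p = ⊤ := by
    rw [LinearMap.range_eq_top]
    intro v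
    obtain ⟨w, hw⟩ := h v
    exact ⟨⟨(v, w), hw⟩, rfl⟩
  obtain ⟨s, hs⟩ := p.exists_rightInverse_of_surjective hp
  refine ⟨(LinearMap.snd L V W) ∘ₗ ρ.subtype ∘ₗ s, ?_⟩
  intro v
  have h1 : p (s v) = v := LinearMap.congr_fun hs v
  have h2 : (v, ((LinearMap.snd L V W) ∘ₗ ρ.subtype ∘ₗ s) v) = ((s v : ρ) : V × W) := by
    apply Prod.ext
    · exact h1.symm
    · rfl
  rw [h2]
  exact (s v).2

theorem dstep (x y : Module.End L G) (b : Bool) (U : Submodule L G) (η : G →ₗ[L] V)
    (hη : ∀ m ∈ act1 x y b U, η m = 0) :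
    ∃ η' : G →ₗ[L] V, StpD x y b η η' ∧ ∀ m ∈ U, η' m = 0 := by
  cases b
  · obtain ⟨θ, hθ⟩ := exists_factor (U.mkQ ∘ₗ y) η (by
      intro g hg
      apply hη
      rw [LinearMap.comp_apply, Submodule.mkQ_apply, Submodule.Quotient.mk_eq_zero] at hg
      exact hg)
    refine ⟨θ ∘ₗ U.mkQ, ?_, ?_⟩
    · show η = (θ ∘ₗ U.mkQ) ∘ₗ y
      rw [← hθ]; rfl
    · intro m hm
      rw [LinearMap.comp_apply, Submodule.mkQ_apply, (Submodule.Quotient.mk_eq_zero U).2 hm,
        map_zero]
  · refine ⟨η ∘ₗ x, rfl, ?_⟩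
    intro m hm
    exact hη _ ⟨m, hm, rfl⟩

/-- a functional vanishing on the action of a factor extends to a dual chain -/
theorem dchain (x y : Module.End L G) (P : ℕ → Bool) (i n : ℕ) (U : Submodule L G)
    (η : G →ₗ[L] V) (hη : ∀ m ∈ act x y (fac P i n) U, η m = 0) :
    ∃ W : ℕ → (G →ₗ[L] V), W 0 = η ∧
      (∀ k, k < n → StpD x y (P (i + k)) (W k) (W (k + 1))) ∧ ∀ m ∈ U, W n m = 0 := by
  induction n generalizing i η with
  | zero =>
    exact ⟨fun _ => η, rfl, fun k hk => absurd hk (Nat.not_lt_zero k), hη⟩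
  | succ n ih =>
    obtain ⟨η', h1, h2⟩ := dstep x y (P i) _ η hη
    obtain ⟨W, hW0, hW, hWU⟩ := ih (i + 1) η' h2
    refine ⟨fun k => if k = 0 then η else W (k - 1), by simp, ?_, ?_⟩
    · intro k hk
      rcases k with _ | k
      · simpa [hW0] using h1
      · have := hW k (by omega)
        simp only [Nat.add_eq_zero_iff, one_ne_zero, and_false, if_false, Nat.add_sub_cancel]
        have e : i + (k + 1) = i + 1 + k := by ring
        rw [e]
        exact this
    · simpa using hWU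

end dual

end Pool.Agent.Helper693
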