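import Mathlib

/-! Commutators and the rank filtration -/

set_option autoImplicit false
set_option linter.unusedVariables false

namespace Pool.Agent.Helper693

section commfilt

variable {S L G V : Type*} [Ring S] [Field L] [AddCommGroup G] [Module L G] [Module S G]
  [AddCommGroup V] [Module L V]

/-- the filtration by rank -/
def filt {d : ℕ} (rk : Fin d → ℕ) (f : Fin d → V →ₗ[L] G) (r : ℕ) : Submodule L G :=
  ⨆ i : {i : Fin d // rk i < r}, LinearMap.range (f i)

theorem exists_coords {d : ℕ} (f : Fin d → V →ₗ[L] G)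
    (htop : ⨆ i, LinearMap.range (f i) = ⊤) (g : G) : ∃ v : Fin d → V, g = ∑ i, f i (v i) := by
  have h : g ∈ ⨆ i, LinearMap.range (f i) := by rw [htop]; trivial
  refine Submodule.iSup_induction (fun i => LinearMap.range (f i))
    (motive := fun g => ∃ v : Fin d → V, g = ∑ i, f i (v i)) h ?_ ?_ ?_
  · rintro i _ ⟨v, rfl⟩
    refine ⟨Pi.single i v, ?_⟩
    rw [Finset.sum_eq_single i]
    · rw [Pi.single_eq_same]
    · intro j _ hj
      rw [Pi.single_eq_of_ne hj, map_zero]
    · intro h; exact absurd (Finset.mem_univ i) h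
  · exact ⟨0, by simp⟩
  · rintro _ _ ⟨v, rfl⟩ ⟨w, rfl⟩
    refine ⟨v + w, ?_⟩
    rw [← Finset.sum_add_distrib]
    exact Finset.sum_congr rfl (fun i _ => by rw [Pi.add_apply, map_add])

theorem comm_prod_zero {d : ℕ} (rk : Fin d → ℕ) (hrk : Function.Injective rk)
    (f : Fin d → V →ₗ[L] G) (h : Fin d → G →ₗ[L] V)
    (hdiag : ∀ i, h i ∘ₗ f i = LinearMap.id)
    (htri : ∀ i j, rk j < rk i → h i ∘ₗ f j = 0)
    (htop : ⨆ i, LinearMap.range (f i) = ⊤)
    (Lo : Fin d → Set G) (hc : ∀ (s t : S) i v, (s * t - t * s) • f i v ∈ Lo i)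
    (hh : ∀ j m, m ∈ Lo j → h j m = 0) (hLo : ∀ i j, rk i < rk j → Lo i ⊆ Lo j) :
    ∃ D : ℕ, ∀ (s t : Fin D → S) (g : G),
      (List.ofFn (fun i => s i * t i - t i * s i)).prod • g = 0 := by
  classical
  -- claim 1
  have c1 : ∀ i g, g ∈ Lo i → g ∈ filt rk f (rk i) := by
    intro i g hg
    obtain ⟨v, hv⟩ := exists_coords f htop g
    have hz : ∀ n j, (∑ k, rk k) + 1 ≤ n + rk j → rk i ≤ rk j → v j = 0 := by
      intro n
      induction n using Nat.strong_induction_on with
      | _ n ih =>
        intro j hn hij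
        -- all larger ranks vanish
        have hbig : ∀ k, rk j < rk k → v k = 0 := by
          intro k hk
          by_cases hn0 : n = 0
          · exfalso
            have : rk j ≤ ∑ k, rk k := Finset.single_le_sum (fun _ _ => Nat.zero_le _)
              (Finset.mem_univ j)
            omega
          · exact ih (n - 1) (by omega) k (by omega) (by omega)
        have hg0 : h j g = 0 := by
          apply hh
          rcases Nat.lt_or_ge (rk i) (rk j) with h1 | h1
          · exact hLo i j h1 hg
          · have : i = j := hrk (le_antisymm hij h1)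
            rw [← this]; exact hg
        rw [hv, map_sum, Finset.sum_eq_single j] at hg0
        · have := LinearMap.congr_fun (hdiag j) (v j)
          rw [LinearMap.comp_apply, LinearMap.id_apply] at this
          rw [← this, hg0]
        · intro k _ hk
          rcases Nat.lt_trichotomy (rk k) (rk j) with h1 | h1 | h1
          · exact LinearMap.congr_fun (htri j k h1) (v k)
          · exact absurd (hrk h1) hk
          · rw [hbig k h1, map_zero, map_zero]
        · intro h1; exact absurd (Finset.mem_univ j) h1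
    rw [hv]
    refine Submodule.sum_mem _ ?_
    intro j _
    by_cases hj : rk j < rk i
    · exact Submodule.mem_iSup_of_mem (⟨j, hj⟩ : {i' : Fin d // rk i' < rk i}) ⟨v j, rfl⟩
    · rw [hz ((∑ k, rk k) + 1) j (by omega) (by omega), map_zero]
      exact Submodule.zero_mem _
  have fmono : ∀ r r', r ≤ r' → filt rk f r ≤ filt rk f r' := by
    intro r r' hr
    refine iSup_le ?_
    rintro ⟨i, hi⟩
    exact le_iSup (fun i : {i : Fin d // rk i < r'} => LinearMap.range (f i)) ⟨i, by omega⟩
  -- claim 2
  have c2 : ∀ (s t : S) r g, g ∈ filt rk f (r + 1) → (s * t - t * s) • g ∈ filt rk f r := by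
    intro s t r g hg
    refine Submodule.iSup_induction
      (fun i : {i : Fin d // rk i < r + 1} => LinearMap.range (f i))
      (motive := fun g => (s * t - t * s) • g ∈ filt rk f r) hg ?_ ?_ ?_
    · rintro ⟨i, hi⟩ _ ⟨v, rfl⟩
      exact fmono (rk i) r (by omega) (c1 i _ (hc s t i v))
    · simp
    · intro a b ha hb
      show (s * t - t * s) • (a + b) ∈ filt rk f r
      rw [smul_add]
      exact Submodule.add_mem _ ha hb
  -- claim 3
  have c3 : ∀ D (s t : Fin D → S) g, g ∈ filt rk f D →
      (List.ofFn (fun i => s i * t i - t i * s i)).prod • g = 0 := by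
    intro D
    induction D with
    | zero =>
      intro s t g hg
      have : filt rk f 0 = ⊥ := by
        unfold filt
        haveI : IsEmpty {i : Fin d // rk i < 0} := ⟨fun i => Nat.not_lt_zero _ i.2⟩
        exact iSup_of_empty _
      rw [this, Submodule.mem_bot] at hg
      rw [hg, smul_zero]
    | succ D ih =>
      intro s t g hg
      rw [List.ofFn_succ']
      rw [List.concat_eq_append, List.prod_append, List.prod_singleton, mul_smul]
      exact ih (fun i => s i.castSucc) (fun i => t i.castSucc) _ (c2 _ _ _ _ hg)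
  refine ⟨(∑ k, rk k) + 1, ?_⟩
  intro s t g
  apply c3
  obtain ⟨v, hv⟩ := exists_coords f htop g
  rw [hv]
  refine Submodule.sum_mem _ ?_
  intro j _
  have : rk j < (∑ k, rk k) + 1 := by
    have : rk j ≤ ∑ k, rk k := Finset.single_le_sum (fun _ _ => Nat.zero_le _)
      (Finset.mem_univ j)
    omega
  exact Submodule.mem_iSup_of_mem (⟨j, this⟩ : {i' : Fin d // rk i' < (∑ k, rk k) + 1})
    ⟨v j, rfl⟩

end commfilt

end Pool.Agent.Helper693
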