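import Pool.Agent.Helper693.Gt.NodeThm
import Pool.Agent.Helper693.Gt.NodeComm
import Pool.Agent.Helper693.Gt.N1
import Pool.Agent.Helper693.Gt.N2
import Pool.Agent.Helper693.Gt.N3
import Pool.Agent.Helper693.Gt.N4
import Pool.Agent.Helper693.Gt.N5
import Pool.Agent.Helper693.Gt.N6
import Pool.Agent.Helper693.Gt.N7
import Pool.Agent.Helper693.Gt.N8
import Pool.Agent.Helper693.Gt.A2
import Pool.Agent.Helper693.Gt.A3
import Pool.Agent.Helper693.Gt.A4

/-! Modules of finite endolength over a node: commutators are nilpotent -/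

set_option autoImplicit false
set_option linter.unusedVariables false

namespace Pool.Agent.Helper693

open N1 N2 N4 N5 N6 N7 N8 A2 A3 A4

section fitting

variable {L S V : Type*} [Field L] [Ring S] [Algebra L S] [AddCommGroup V] [Module L V]
  [Module S V] [IsScalarTower L S V] [IsNoetherian S V] [IsArtinian S V]

theorem aeval_restrict (T : Module.End S V) (q : Polynomial L) (v : V) :
    (Polynomial.aeval T q) v =
      (Polynomial.aeval (LinearMap.restrictScalars L T : Module.End L V) q) v := by
  induction q using Polynomial.induction_on' generalizing v with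
  | add p q hp hq =>
    rw [map_add, map_add, LinearMap.add_apply, LinearMap.add_apply, hp, hq]
  | monomial n a =>
    rw [Polynomial.aeval_monomial, Polynomial.aeval_monomial]
    have h : ∀ (n : ℕ) (v : V), (T ^ n) v =
        ((LinearMap.restrictScalars L T : Module.End L V) ^ n) v := by
      intro n
      induction n with
      | zero => intro v; rfl
      | succ n ih =>
        intro v
        rw [pow_succ, pow_succ, Module.End.mul_apply, Module.End.mul_apply, ih]
        rfl
    rw [Module.End.mul_apply, Module.End.mul_apply, ← h n]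
    rfl

/-- Fitting dichotomy for polynomials in the monodromy -/
theorem poly_dichotomy (T : Module.End S V)
    (hind : ∀ p q : Submodule L V, (∀ v ∈ p, T v ∈ p) → (∀ v ∈ q, T v ∈ q) → IsCompl p q →
      p = ⊥ ∨ q = ⊥) (q : Polynomial L) :
    Function.Bijective (Polynomial.aeval (LinearMap.restrictScalars L T : Module.End L V) q) ∨
      ∃ n : ℕ, Polynomial.aeval (LinearMap.restrictScalars L T : Module.End L V) (q ^ n) = 0 := by
  set f : Module.End S V := Polynomial.aeval T q with hf
  have hfT : ∀ n v, T ((f ^ n) v) = (f ^ n) (T v) := by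
    intro n v
    have h1 : Commute T (f ^ n) := by
      apply Commute.pow_right
      rw [hf]
      have h2 : T = Polynomial.aeval T (Polynomial.X : Polynomial L) := by simp
      have h3 : Commute (Polynomial.aeval T (Polynomial.X : Polynomial L))
          (Polynomial.aeval T q) := by
        rw [commute_iff_eq, ← map_mul, ← map_mul, mul_comm]
      rwa [← h2] at h3
    exact LinearMap.congr_fun h1 v
  obtain ⟨n, hn⟩ := (LinearMap.eventually_isCompl_ker_pow_range_pow f).exists_forall_of_atTop
  have hn1 := hn (n + 1) (Nat.le_succ n)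
  have hker : ∀ v ∈ (LinearMap.ker (f ^ (n + 1))).restrictScalars L,
      T v ∈ (LinearMap.ker (f ^ (n + 1))).restrictScalars L := by
    intro v hv
    rw [Submodule.restrictScalars_mem, LinearMap.mem_ker] at hv ⊢
    rw [← hfT, hv, map_zero]
  have hran : ∀ v ∈ (LinearMap.range (f ^ (n + 1))).restrictScalars L,
      T v ∈ (LinearMap.range (f ^ (n + 1))).restrictScalars L := by
    intro v hv
    rw [Submodule.restrictScalars_mem] at hv ⊢
    obtain ⟨w, rfl⟩ := hv
    exact ⟨T w, (hfT (n + 1) w).symm⟩
  have hc : IsCompl ((LinearMap.ker (f ^ (n + 1))).restrictScalars L)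
      ((LinearMap.range (f ^ (n + 1))).restrictScalars L) := by
    constructor
    · rw [Submodule.disjoint_def]
      intro v h1 h2
      exact (Submodule.disjoint_def.1 hn1.disjoint) v h1 h2
    · rw [codisjoint_iff, Submodule.eq_top_iff']
      intro v
      have h1 : v ∈ LinearMap.ker (f ^ (n + 1)) ⊔ LinearMap.range (f ^ (n + 1)) := by
        rw [codisjoint_iff.1 hn1.codisjoint]; trivial
      rw [Submodule.mem_sup] at h1 ⊢
      exact h1
  have hpow : ∀ (k : ℕ) (v : V), (f ^ k) v =
      (Polynomial.aeval (LinearMap.restrictScalars L T : Module.End L V) (q ^ k)) v := by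
    intro k v
    rw [← aeval_restrict, map_pow]
  rcases hind _ _ hker hran hc with h | h
  · left
    have hk : LinearMap.ker (f ^ (n + 1)) = ⊥ := by
      rw [eq_bot_iff]
      intro v hv
      have : v ∈ (LinearMap.ker (f ^ (n + 1))).restrictScalars L := hv
      rw [h] at this
      exact this
    have hr : LinearMap.range (f ^ (n + 1)) = ⊤ := by
      have := codisjoint_iff.1 hn1.codisjoint
      rwa [hk, bot_sup_eq] at this
    have hbij : Function.Bijective f := by
      constructor
      · intro a b hab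
        rw [LinearMap.ker_eq_bot] at hk
        apply hk
        rw [pow_succ, Module.End.mul_apply, Module.End.mul_apply, hab]
      · intro v
        rw [LinearMap.range_eq_top] at hr
        obtain ⟨w, hw⟩ := hr v
        refine ⟨(f ^ n) w, ?_⟩
        rw [← hw, pow_succ', Module.End.mul_apply]
    have : ∀ v, f v = (Polynomial.aeval (LinearMap.restrictScalars L T : Module.End L V) q) v :=
      fun v => by rw [hf, aeval_restrict]
    constructor
    · intro a b hab
      apply hbij.1
      rw [this, this, hab]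
    · intro v
      obtain ⟨w, hw⟩ := hbij.2 v
      exact ⟨w, by rw [← this, hw]⟩
  · right
    refine ⟨n + 1, ?_⟩
    ext v
    rw [← hpow]
    have : (f ^ (n + 1)) v ∈ (LinearMap.range (f ^ (n + 1))).restrictScalars L :=
      LinearMap.mem_range_self _ v
    rw [h] at this
    exact this

end fitting

section main

variable {L S G : Type*} [Field L] [Ring S] [Algebra L S] [AddCommGroup G] [Module L G]
  [Module S G] [IsScalarTower L S G]

theorem node_band {V : Type*} [AddCommGroup V] [Module L V] [Module S V] [IsScalarTower L S V]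
    [IsNoetherian S V] [IsArtinian S V] [Nontrivial V]
    (x y : Module.End S G) (hxy : x * y = 0) (hyx : y * x = 0)
    (hind : ∀ p q : Submodule L G, (∀ g ∈ p, x g ∈ p) → (∀ g ∈ p, y g ∈ p) →
      (∀ g ∈ q, x g ∈ q) → (∀ g ∈ q, y g ∈ q) → IsCompl p q → p = ⊥ ∨ q = ⊥)
    (P : ℕ → Bool) (d : ℕ) (hd : 0 < d) (hP : ∀ i, P (i + d) = P i)
    (hdist : ∀ i j, i < d → j < d → (∀ k, P (i + k) = P (j + k)) → i = j)
    (Hi Lo : ℕ → Submodule S G) (K : ℕ)
    (hHiK : ∀ i n, K ≤ n → act x y (fac P i n) ⊤ = Hi i)
    (hLoK : ∀ i n, K ≤ n → act x y (fac P i n) ⊥ = Lo i)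
    (hHi1 : ∀ i, act1 x y (P i) (Hi (i + 1)) = Hi i)
    (hLo1 : ∀ i, act1 x y (P i) (Lo (i + 1)) = Lo i)
    (hlt : ∀ i, Lo i < Hi i)
    (hHid : ∀ i, Hi (i + d) = Hi i) (hLod : ∀ i, Lo (i + d) = Lo i)
    (hHile : ∀ i n, Hi i ≤ act x y (fac P i n) ⊤)
    (hLole : ∀ i n, act x y (fac P i n) ⊥ ≤ Lo i)
    (hcmp : ∀ i j k, (∀ k', k' < k → P (i + k') = P (j + k')) → P (i + k) = true →
        P (j + k) = false → Hi i ≤ Lo j)
    (hHi0 : act x y (fac P 0 d) (Hi 0) = Hi 0) (hLo0 : act x y (fac P 0 d) (Lo 0) = Lo 0)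
    (π' : Hi 0 →ₗ[S] V) (hπs' : Function.Surjective π')
    (hπk' : ∀ m : Hi 0, π' m = 0 ↔ (m : G) ∈ Lo 0)
    (T : V ≃ₗ[S] V)
    (hT : ∀ m m' : Hi 0, (∃ c : ℕ → G, c 0 = m ∧
      (∀ k, k < d → Stp x y (P k) (c k) (c (k + 1))) ∧ c d = m') → T (π' m) = π' m') :
    Module.Finite L G ∨ ∃ d : ℕ, ∀ (s t : Fin d → S) (g : G),
      (List.ofFn (fun i => s i * t i - t i * s i)).prod • g = 0 := by
  classical
  set xL : Module.End L G := LinearMap.restrictScalars L x with hxL
  set yL : Module.End L G := LinearMap.restrictScalars L y with hyL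
  have hxyL : xL * yL = 0 := by
    ext g; exact LinearMap.congr_fun hxy g
  have hyxL : yL * xL = 0 := by
    ext g; exact LinearMap.congr_fun hyx g
  have hLH : Lo 0 ≤ Hi 0 := (hlt 0).le
  let π : (Hi 0).restrictScalars L →ₗ[L] V :=
    { toFun := fun m => π' ⟨m.1, m.2⟩
      map_add' := fun a b => π'.map_add ⟨a.1, a.2⟩ ⟨b.1, b.2⟩
      map_smul' := by
        intro c a
        have h1 : (⟨(c • a).1, (c • a).2⟩ : Hi 0) = (algebraMap L S c) • (⟨a.1, a.2⟩ : Hi 0) := by
          apply Subtype.ext
          show c • a.1 = (algebraMap L S c) • a.1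
          rw [algebraMap_smul]
        rw [h1, π'.map_smul, algebraMap_smul]
        rfl }
  have hπ : ∀ (m : G) (hm : m ∈ Hi 0), π ⟨m, hm⟩ = π' ⟨m, hm⟩ := fun m hm => rfl
  have hπs : Function.Surjective π := by
    intro v
    obtain ⟨⟨m, hm⟩, h⟩ := hπs' v
    exact ⟨⟨m, hm⟩, h⟩
  have hπk : ∀ m : (Hi 0).restrictScalars L, π m = 0 ↔ (m : G) ∈ (Lo 0).restrictScalars L := by
    rintro ⟨m, hm⟩
    exact hπk' ⟨m, hm⟩
  let TL : V ≃ₗ[L] V := T.restrictScalars L
  have hTL : ∀ m m' : (Hi 0).restrictScalars L, (∃ c : ℕ → G, c 0 = m ∧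
      (∀ k, k < d → Stp xL yL (P k) (c k) (c (k + 1))) ∧ c d = m') → TL (π m) = π m' := by
    rintro ⟨m, hm⟩ ⟨m', hm'⟩ ⟨c, h0, h1, h2⟩
    exact hT ⟨m, hm⟩ ⟨m', hm'⟩ ⟨c, h0, fun k hk => (stp_restrict x y _ _ _).1 (h1 k hk), h2⟩
  have hHi0L : act xL yL (fac P 0 d) ((Hi 0).restrictScalars L) = (Hi 0).restrictScalars L := by
    rw [← act_restrict, hHi0]
  have hLo0L : act xL yL (fac P 0 d) ((Lo 0).restrictScalars L) = (Lo 0).restrictScalars L := by
    rw [← act_restrict, hLo0]
  have hbotL : ∀ k, act xL yL (fac P 0 k) ⊥ = (act x y (fac P 0 k) ⊥).restrictScalars L := by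
    intro k
    rw [act_restrict, Submodule.restrictScalars_bot]
  have htopL : ∀ k, act xL yL (fac P 0 k) ⊤ = (act x y (fac P 0 k) ⊤).restrictScalars L := by
    intro k
    rw [act_restrict, Submodule.restrictScalars_top]
  have hLHL : (Lo 0).restrictScalars L ≤ (Hi 0).restrictScalars L := fun m hm => hLH hm
  obtain ⟨F, hF0, hFs, hFT⟩ := lift_F xL yL P d hd hP ((Hi 0).restrictScalars L)
    ((Lo 0).restrictScalars L) π hπs hπk hLHL TL hTL hHi0L K
    (fun k hk => by rw [hbotL, hLoK 0 k hk])
    (fun k => by rw [hbotL]; exact fun m hm => hLole 0 k hm)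
  obtain ⟨H, hH0, hHs, hHT⟩ := lift_H xL yL P d hd hP ((Hi 0).restrictScalars L)
    ((Lo 0).restrictScalars L) π hπs hπk hLHL TL hTL hHi0L hLo0L K
    (fun k hk => by rw [htopL, hHiK 0 k hk])
    (fun k => by rw [htopL]; exact fun m hm => hHile 0 k hm)
  have h00 : ∀ v, H 0 (F 0 v) = v := by
    intro v
    obtain ⟨h, hv⟩ := hF0 v
    have := hH0 ⟨F 0 v, h⟩
    rw [hv] at this
    exact this
  have hindV := band_indec xL yL hxyL hyxL hind P d hd hP hdist TL F H hFs hHs h00 hFT hHT
  have htop := band_top xL yL hxyL hyxL hind P d hd hP hdist TL F H hFs hHs h00 hFT hHT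
  by_cases hq : ∀ q : Polynomial L, q ≠ 0 →
    Function.Bijective (Polynomial.aeval
      (LinearMap.restrictScalars L (T : Module.End S V) : Module.End L V) q)
  · right
    -- commutators act trivially on V
    have hcomm : ∀ (s t : S) (v : V), (s * t - t * s) • v = 0 := by
      intro s t v
      let sV : Module.End L V := Algebra.lsmul L L V s
      let tV : Module.End L V := Algebra.lsmul L L V t
      have h1 := comm_of_poly_bijective
        (LinearMap.restrictScalars L (T : Module.End S V) : Module.End L V) hq hindV sV tV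
        (by ext v; exact (T.map_smul s v).symm) (by ext v; exact (T.map_smul t v).symm)
      have h2 := LinearMap.congr_fun h1 v
      have h3 : s • t • v = t • s • v := h2
      rw [sub_smul, mul_smul, mul_smul, h3, sub_self]
    obtain ⟨rk, hrk, hrk2⟩ := exists_rank P d hd hP hdist
    -- commutators move Hi i into Lo i
    have hcHL : ∀ (s t : S) (i : ℕ) (m : G), i ≤ d → m ∈ Hi i → (s * t - t * s) • m ∈ Lo i := by
      intro s t i m hi hm
      have e : i + (d - i) = d := by omega
      have hHd : Hi d = Hi 0 := by have := hHid 0; rwa [Nat.zero_add] at this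
      have hLd : Lo d = Lo 0 := by have := hLod 0; rwa [Nat.zero_add] at this
      have h1 := act_fac_tower x y P Hi hHi1 (d - i) i
      have h2 := act_fac_tower x y P Lo hLo1 (d - i) i
      rw [e, hHd] at h1
      rw [e, hLd] at h2
      rw [← h1, mem_act_fac] at hm
      obtain ⟨c, hc0, hc, hcU⟩ := hm
      rw [← h2, mem_act_fac]
      refine ⟨fun k => (s * t - t * s) • c k, by rw [← hc0], ?_, ?_⟩
      · intro k hk
        have := hc k hk
        cases hb : P (i + k)
        · rw [hb] at this
          simp only [Stp] at this ⊢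
          rw [map_smul, this]
        · rw [hb] at this
          simp only [Stp] at this ⊢
          rw [map_smul, ← this]
      · have h3 := hcomm s t (π' ⟨_, hcU⟩)
        rw [← map_smul, hπk'] at h3
        exact h3
    have hFHi : ∀ (i : ℕ) (v : V), i ≤ d → F i v ∈ Hi i := by
      intro i v hi
      have e : i + (d - i) = d := by omega
      have hHd : Hi d = Hi 0 := by have := hHid 0; rwa [Nat.zero_add] at this
      have h1 := act_fac_tower x y P Hi hHi1 (d - i) i
      rw [e, hHd] at h1
      rw [← h1, mem_act_fac]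
      refine ⟨fun k => F (i + k) v, rfl, ?_, ?_⟩
      · intro k hk
        exact (stp_restrict x y _ _ _).1 (hFs (i + k) v)
      · show F (i + (d - i)) v ∈ Hi 0
        rw [e]
        have := hFT 0 v
        rw [Nat.zero_add] at this
        rw [this]
        exact (hF0 (TL v)).1
    have hHLo : ∀ (j : ℕ) (m : G), j ≤ d → m ∈ Lo j → H j m = 0 := by
      intro j m hj hm
      have e : j + (d - j) = d := by omega
      have hLd : Lo d = Lo 0 := by have := hLod 0; rwa [Nat.zero_add] at this
      have h2 := act_fac_tower x y P Lo hLo1 (d - j) j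
      rw [e, hLd] at h2
      rw [← h2, mem_act_fac] at hm
      obtain ⟨c, hc0, hc, hcU⟩ := hm
      have hpair : ∀ k, k ≤ d - j → H j m = H (j + k) (c k) := by
        intro k
        induction k with
        | zero => intro _; rw [hc0]; rfl
        | succ k ih =>
          intro hk
          rw [ih (by omega)]
          exact pairing xL yL (P (j + k)) ((stp_restrict x y _ _ _).2 (hc k (by omega)))
            (hHs (j + k))
      rw [hpair (d - j) le_rfl, e]
      have h3 := hHT 0 (c (d - j))
      rw [Nat.zero_add] at h3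
      have h4 : H 0 (c (d - j)) = 0 := by
        have h5 := hH0 ⟨c (d - j), hLH hcU⟩
        have h6 : π ⟨c (d - j), hLH hcU⟩ = 0 := (hπk _).2 hcU
        rw [h6] at h5
        exact h5
      rw [h4] at h3
      exact (LinearEquiv.map_eq_zero_iff TL).1 h3
    obtain ⟨D, hD⟩ := comm_prod_zero (S := S) rk hrk (fun i : Fin d => F i) (fun i : Fin d => H i)
      (fun i => band_diag xL yL P F H hFs hHs h00 i)
      (fun i j hij => by
        obtain ⟨k, h1, h2, h3⟩ := hrk2 i j hij
        exact band_tri xL yL hyxL P F H hFs hHs j i k h1 h2 h3)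
      htop (fun i => (Lo i : Set G))
      (fun s t i v => hcHL s t i _ i.2.le (hFHi i v i.2.le))
      (fun j m hm => hHLo j m j.2.le hm)
      (fun i j hij => by
        obtain ⟨k, h1, h2, h3⟩ := hrk2 j i hij
        exact fun m hm => hcmp i j k h1 h2 h3 ((hlt i).le hm))
    exact ⟨D, hD⟩
  · left
    push Not at hq
    obtain ⟨q, hq0, hqb⟩ := hq
    rcases poly_dichotomy (L := L) (T : Module.End S V) hindV q with h | ⟨n, hn⟩
    · exact absurd h hqb
    · have hfinV : Module.Finite L V := finite_of_algebraic_indec _ hindV (q ^ n)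
        (pow_ne_zero n hq0) hn
      have h1 : Module.Finite L (⨆ i : Fin d, LinearMap.range (F i) : Submodule L G) := by
        infer_instance
      rw [htop] at h1
      exact Module.Finite.equiv (Submodule.topEquiv : (⊤ : Submodule L G) ≃ₗ[L] G)

theorem node_thm [IsNoetherian S G] [IsArtinian S G] [Nontrivial G]
    (x y : Module.End S G) (hxy : x * y = 0) (hyx : y * x = 0)
    (hind : ∀ p q : Submodule L G, (∀ g ∈ p, x g ∈ p) → (∀ g ∈ p, y g ∈ p) →
      (∀ g ∈ q, x g ∈ q) → (∀ g ∈ q, y g ∈ q) → IsCompl p q → p = ⊥ ∨ q = ⊥) :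
    Module.Finite L G ∨ ∃ d : ℕ, ∀ (s t : Fin d → S) (g : G),
      (List.ofFn (fun i => s i * t i - t i * s i)).prod • g = 0 := by
  classical
  by_cases hb : ∃ N : ℕ, ∀ w, Alive x y w → w.length < N
  · left
    have hxyL : (LinearMap.restrictScalars L x : Module.End L G) *
        (LinearMap.restrictScalars L y : Module.End L G) = 0 := by
      ext g; exact LinearMap.congr_fun hxy g
    have hyxL : (LinearMap.restrictScalars L y : Module.End L G) *
        (LinearMap.restrictScalars L x : Module.End L G) = 0 := by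
      ext g; exact LinearMap.congr_fun hyx g
    obtain ⟨N, hN⟩ := hb
    obtain ⟨n, P, m, η, h1, h2, h3, h4, h5, h6, h7⟩ := string_data _ _ hxyL hyxL N
      (fun w hw => hN w ((alive_restrict x y w).1 hw))
    exact N3.string_finite _ _ hxyL hyxL hind n P m η h1 h2 h3 h4 h5 h6 h7
  · push Not at hb
    obtain ⟨b, hcard⟩ := alive_card x y hyx
    obtain ⟨P, d, hd, hP, hdist, hal⟩ := exists_periodic (Alive x y) (alive_left x y)
      (alive_right x y) b hcard hb
    obtain ⟨Hi, Lo, K, hHiK, hLoK, hHi1, hLo1, hlt, hHid, hLod, hHile, hLole, hcmp⟩ :=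
      band_stable x y hyx P d hd hP hal
    have hHi0 : act x y (fac P 0 d) (Hi 0) = Hi 0 := by
      have := act_fac_tower x y P Hi hHi1 d 0
      rwa [hHid] at this
    have hLo0 : act x y (fac P 0 d) (Lo 0) = Lo 0 := by
      have := act_fac_tower x y P Lo hLo1 d 0
      rwa [hLod] at this
    have hLH : Lo 0 ≤ Hi 0 := (hlt 0).le
    obtain ⟨T, hT⟩ := band_T x y P d (Hi 0) (Lo 0) hLH hHi0 hLo0
    have hnt : Nontrivial (Hi 0 ⧸ (Lo 0).submoduleOf (Hi 0)) := by
      rw [Submodule.Quotient.nontrivial_iff]
      intro h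
      rw [Submodule.submoduleOf_eq_top] at h
      exact absurd h (not_le_of_gt (hlt 0))
    exact node_band x y hxy hyx hind P d hd hP hdist Hi Lo K hHiK hLoK hHi1 hLo1 hlt hHid hLod
      hHile hLole hcmp hHi0 hLo0 ((Lo 0).submoduleOf (Hi 0)).mkQ (Submodule.mkQ_surjective _)
      (fun m => by rw [Submodule.mkQ_apply, Submodule.Quotient.mk_eq_zero]; rfl) T hT

end main

end Pool.Agent.Helper693
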