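import Pool.Agent.Helper693.Gt.Node0
import Pool.Agent.Helper693.Gt.Node1

/-! Restriction of scalars for words -/

set_option autoImplicit false
set_option linter.unusedVariables false

namespace Pool.Agent.Helper693

section restr

variable {L S G : Type*} [Field L] [Ring S] [Algebra L S] [AddCommGroup G] [Module L G]
  [Module S G] [IsScalarTower L S G]

theorem stp_restrict (x y : Module.End S G) (b : Bool) (m m' : G) :
    Stp (LinearMap.restrictScalars L x) (LinearMap.restrictScalars L y) b m m' ↔
      Stp x y b m m' := by
  cases b <;> rfl

theorem act1_restrict (x y : Module.End S G) (b : Bool) (U : Submodule S G) :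
    (act1 x y b U).restrictScalars L =
      act1 (LinearMap.restrictScalars L x) (LinearMap.restrictScalars L y) b
        (U.restrictScalars L) := by
  ext m
  rw [mem_act1, Submodule.restrictScalars_mem, mem_act1]
  simp only [stp_restrict, Submodule.restrictScalars_mem]

theorem act_restrict (x y : Module.End S G) (w : List Bool) (U : Submodule S G) :
    (act x y w U).restrictScalars L =
      act (LinearMap.restrictScalars L x) (LinearMap.restrictScalars L y) w
        (U.restrictScalars L) := by
  induction w with
  | nil => rfl
  | cons a w ih => simp only [act]; rw [act1_restrict, ih]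

theorem alive_restrict (x y : Module.End S G) (w : List Bool) :
    Alive (LinearMap.restrictScalars L x) (LinearMap.restrictScalars L y) w ↔ Alive x y w := by
  unfold Alive
  have h1 : act (LinearMap.restrictScalars L x) (LinearMap.restrictScalars L y) w
      (⊥ : Submodule L G) = (act x y w ⊥).restrictScalars L := by
    rw [act_restrict, Submodule.restrictScalars_bot]
  have h2 : act (LinearMap.restrictScalars L x) (LinearMap.restrictScalars L y) w
      (⊤ : Submodule L G) = (act x y w ⊤).restrictScalars L := by
    rw [act_restrict, Submodule.restrictScalars_top]
  rw [h1, h2]
  constructor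
  · intro h e; exact h (by rw [e])
  · intro h e; exact h (Submodule.restrictScalars_injective L S G e)

end restr

/-- going back along a chain -/
theorem act_fac_tower {S G : Type*} [Ring S] [AddCommGroup G] [Module S G]
    (x y : Module.End S G) (P : ℕ → Bool) (Q : ℕ → Submodule S G)
    (hQ : ∀ i, act1 x y (P i) (Q (i + 1)) = Q i) (n i : ℕ) :
    act x y (fac P i n) (Q (i + n)) = Q i := by
  induction n generalizing i with
  | zero => rfl
  | succ n ih =>
    have h := ih (i + 1)
    have e : i + 1 + n = i + (n + 1) := by ring
    rw [e] at h
    simp only [fac, act]
    rw [h, hQ]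

end Pool.Agent.Helper693
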