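import Pool.Agent.Helper693.Gt.Base

/-! Generators of the node primes and comparison of primes -/

set_option autoImplicit false
set_option linter.unusedVariables false

namespace Pool.Agent.Helper693.R1

open MvPolynomial


theorem J495_quot {i : ℕ} {g : Pol} (h : sp i * g ∈ Agl) (j : ℕ) (hj : j ≠ i) :
    ev j 0 g = ev j 1 g := by
  have h1 := h j
  rw [map_mul, map_mul, ev_sp_ne (Ne.symm hj), ev_sp_ne (Ne.symm hj)] at h1
  exact mul_left_cancel₀ (sp_ne_zero i) h1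

theorem J495_spX_mem (i : ℕ) : sp i * X i ∈ Agl := by
  intro j
  rw [map_mul, map_mul]
  by_cases h : j = i
  · subst h
    rw [ev_sp_self j 0 (Or.inl rfl), ev_sp_self j 1 (Or.inr rfl), zero_mul, zero_mul]
  · rw [ev_sp_ne (Ne.symm h), ev_sp_ne (Ne.symm h), ev_X_ne (Ne.symm h), ev_X_ne (Ne.symm h)]

theorem mA_fg (i : ℕ) : (mA i).FG := by
  refine Submodule.fg_def.2 ⟨{⟨sp i, sp_mem i⟩, ⟨sp i * X i, J495_spX_mem i⟩}, Set.toFinite _, ?_⟩
  change Ideal.span _ = _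
  apply le_antisymm
  · rw [Ideal.span_le]
    rintro x (rfl | rfl)
    · exact mem_mA.2 (ev_sp_self i 0 (Or.inl rfl))
    · refine mem_mA.2 ?_
      change ev i 0 (sp i * X i) = 0
      rw [map_mul, ev_sp_self i 0 (Or.inl rfl), zero_mul]
  · rintro ⟨r, hr⟩ hr0
    have h0 := mem_mA.1 hr0
    change ev i 0 r = 0 at h0
    have h1 : ev i 1 r = 0 := by rw [← hr i, h0]
    obtain ⟨g, rfl⟩ := sp_dvd_of_ev h0 h1
    have hg := J495_quot hr
    have hα : ∀ c : ℚ, ev i c g ∈ Agl := by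
      intro c j
      by_cases h : j = i
      · subst h
        rw [ev_ev, ev_ev]
      · rw [ev_comm h, ev_comm h, hg j h]
    have hb : ev i 1 g - ev i 0 g ∈ Agl := Agl.sub_mem (hα 1) (hα 0)
    have ha : g - X i * (ev i 1 g - ev i 0 g) ∈ Agl := by
      intro j
      by_cases h : j = i
      · subst h
        rw [map_sub, map_sub, map_mul, map_mul, ev_X_self, ev_X_self, map_sub, map_sub, ev_ev,
          ev_ev, ev_ev, ev_ev]
        simp
      · rw [map_sub, map_sub, map_mul, map_mul, ev_X_ne (Ne.symm h), ev_X_ne (Ne.symm h), hg j h,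
          hb j]
    have e : (⟨sp i * g, hr⟩ : Agl) = ⟨g - X i * (ev i 1 g - ev i 0 g), ha⟩ * ⟨sp i, sp_mem i⟩ +
        ⟨ev i 1 g - ev i 0 g, hb⟩ * ⟨sp i * X i, J495_spX_mem i⟩ := by
      apply Subtype.ext
      change sp i * g = (g - X i * (ev i 1 g - ev i 0 g)) * sp i +
        (ev i 1 g - ev i 0 g) * (sp i * X i)
      ring
    rw [e]
    exact Ideal.add_mem _ (Ideal.mul_mem_left _ _ (Ideal.subset_span (Or.inl rfl)))
      (Ideal.mul_mem_left _ _ (Ideal.subset_span (Or.inr rfl)))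

theorem J495_prod_ev (F : Finset ℕ) (j : ℕ) (hj : j ∉ F) (c : ℚ) :
    ev j c (∏ l ∈ F, sp l) = ∏ l ∈ F, sp l := by
  rw [map_prod]
  refine Finset.prod_congr rfl ?_
  intro l hl
  have : l ≠ j := fun e => hj (e ▸ hl)
  rw [ev_sp_ne this]

theorem J495_prod_ev_zero (F : Finset ℕ) (j : ℕ) (hj : j ∈ F) (c : ℚ) (hc : c = 0 ∨ c = 1) :
    ev j c (∏ l ∈ F, sp l) = 0 := by
  rw [map_prod]
  exact Finset.prod_eq_zero hj (ev_sp_self j c hc)

theorem J495_sub_one (i : ℕ) : (X i - 1 : Pol) = X i - C 1 := by simp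

theorem J495_not_unit (i : ℕ) (c : ℚ) : ¬ IsUnit (X i - C c : Pol) := by
  intro h
  have h2 := h.map (ev i c)
  rw [map_sub, ev_X_self, ev_C, sub_self] at h2
  exact not_isUnit_zero h2

theorem J495_core (i : ℕ) (Q : Ideal Agl) [Q.IsPrime] (hQ : Q ≤ mA i) (p : Pol) (hp : p ∈ Agl)
    (hpQ : (⟨p, hp⟩ : Agl) ∈ Q) (hp0 : p ≠ 0) : (⟨sp i, sp_mem i⟩ : Agl) ∈ Q := by
  obtain ⟨a, p', hp', hpa⟩ := WfDvdMonoid.max_power_factor' hp0 (J495_not_unit i 0)
  have hp'0 : p' ≠ 0 := by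
    rintro rfl
    exact hp' (dvd_zero _)
  obtain ⟨b, p1, hp1, hpb⟩ := WfDvdMonoid.max_power_factor' hp'0 (J495_not_unit i 1)
  have hA : ev i 0 p1 ≠ 0 := by
    intro h
    apply hp'
    rw [hpb]
    exact Dvd.dvd.mul_left (X_sub_C_dvd_of_ev h) _
  have hB : ev i 1 p1 ≠ 0 := by
    intro h
    exact hp1 (X_sub_C_dvd_of_ev h)
  obtain ⟨kk, hkk⟩ : ∃ kk : Pol, kk = ev i 1 p1 * (1 - X i) + ev i 0 p1 * X i := ⟨_, rfl⟩
  have hk0 : ev i 0 kk = ev i 1 p1 := by
    rw [hkk]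
    simp [ev_ev, ev_X_self]
  have hk1 : ev i 1 kk = ev i 0 p1 := by
    rw [hkk]
    simp [ev_ev, ev_X_self]
  obtain ⟨F, hF⟩ : ∃ F : Finset ℕ, F = (p1.vars ∪ kk.vars).erase i := ⟨_, rfl⟩
  have hiF : i ∉ F := by rw [hF]; simp
  have hFj : ∀ j, j ≠ i → j ∉ F → j ∉ p1.vars ∧ j ∉ kk.vars := by
    intro j hj hjF
    rw [hF] at hjF
    simp only [Finset.mem_erase, Finset.mem_union, not_and, not_or] at hjF
    exact hjF hj
  obtain ⟨e, he⟩ : ∃ e : Pol, e = ∏ l ∈ F, sp l := ⟨_, rfl⟩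
  have he0 : e ≠ 0 := by
    rw [he]
    exact Finset.prod_ne_zero_iff.2 (fun l _ => sp_ne_zero l)
  have hei : ∀ c, ev i c e = e := by
    intro c
    rw [he]
    exact J495_prod_ev F i hiF c
  have hw : e * kk * p1 ∈ Agl := by
    intro j
    by_cases h : j = i
    · subst h
      rw [map_mul, map_mul, map_mul, map_mul, hei, hei, hk0, hk1]
      ring
    · by_cases hjF : j ∈ F
      · rw [map_mul, map_mul, map_mul, map_mul, he, J495_prod_ev_zero F j hjF 0 (Or.inl rfl),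
          J495_prod_ev_zero F j hjF 1 (Or.inr rfl)]
        ring
      · obtain ⟨h1, h2⟩ := hFj j h hjF
        rw [map_mul, map_mul, map_mul, map_mul, he, J495_prod_ev F j hjF, J495_prod_ev F j hjF,
          ev_of_notMem_vars h1, ev_of_notMem_vars h1, ev_of_notMem_vars h2, ev_of_notMem_vars h2]
  have hz : (X i - C 0) ^ (b + 1) * (X i - C 1) ^ (a + 1) * (e * kk) ∈ Agl := by
    intro j
    by_cases h : j = i
    · subst h
      simp only [map_mul, map_pow, map_sub, ev_X_self, ev_C]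
      simp
    · by_cases hjF : j ∈ F
      · simp only [map_mul, he, J495_prod_ev_zero F j hjF 0 (Or.inl rfl),
          J495_prod_ev_zero F j hjF 1 (Or.inr rfl), zero_mul, mul_zero]
      · obtain ⟨h1, h2⟩ := hFj j h hjF
        simp only [map_mul, map_pow, map_sub, he, J495_prod_ev F j hjF, ev_C,
          ev_X_ne (Ne.symm h), ev_of_notMem_vars h2]
  have hzp : (⟨_, hz⟩ : Agl) * ⟨p, hp⟩ = ⟨sp i, sp_mem i⟩ ^ (a + b + 1) * ⟨_, hw⟩ := by
    apply Subtype.ext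
    change (X i - C 0) ^ (b + 1) * (X i - C 1) ^ (a + 1) * (e * kk) * p =
      sp i ^ (a + b + 1) * (e * kk * p1)
    rw [hpa, hpb]
    have : sp i = (X i - C 0) * (X i - C 1) := by simp [sp]
    rw [this, mul_pow]
    ring
  have h1 : (⟨sp i, sp_mem i⟩ : Agl) ^ (a + b + 1) * ⟨_, hw⟩ ∈ Q := by
    rw [← hzp]
    exact Ideal.mul_mem_left _ _ hpQ
  have h2 : (⟨_, hw⟩ : Agl) ∉ Q := by
    intro h
    have := mem_mA.1 (hQ h)
    change ev i 0 (e * kk * p1) = 0 at this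
    rw [map_mul, map_mul, hei, hk0] at this
    exact (mul_ne_zero (mul_ne_zero he0 hB) hA) this
  rcases (‹Q.IsPrime›).mem_or_mem h1 with h | h
  · exact (‹Q.IsPrime›).mem_of_pow_mem _ h
  · exact absurd h h2

/-- a nonzero prime contained in `mR i` equals `mR i` -/
theorem mR_le_of_prime (i : ℕ) (P : Ideal Rg) [P.IsPrime] (hP : P ≠ ⊥) (h : P ≤ mR i) :
    mR i ≤ P := by
  have hQ : P.comap (algebraMap Agl Rg) ≤ mA i := by
    rw [← comap_mR i]
    exact Ideal.comap_mono h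
  have hex : ∃ p : Agl, p ≠ 0 ∧ p ∈ P.comap (algebraMap Agl Rg) := by
    obtain ⟨x, hx, hx0⟩ := Submodule.exists_mem_ne_zero_of_ne_bot hP
    obtain ⟨⟨a, s⟩, has⟩ := IsLocalization.surj Sm x
    refine ⟨a, ?_, ?_⟩
    · rintro rfl
      simp only [map_zero] at has
      rcases mul_eq_zero.1 has with h1 | h1
      · exact hx0 h1
      · rw [map_eq_zero_iff _ algebraMap_injective] at h1
        have h2 := s.2
        rw [h1] at h2
        exact (mem_Sm.1 h2) 0 (by simp)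
    · rw [Ideal.mem_comap]
      change algebraMap Agl Rg a ∈ P
      rw [← has]
      exact Ideal.mul_mem_right _ _ hx
  obtain ⟨⟨p, hp⟩, hp0, hpQ⟩ := hex
  have hp0' : p ≠ 0 := fun e => hp0 (Subtype.ext e)
  have hs := J495_core i (P.comap (algebraMap Agl Rg)) hQ p hp hpQ hp0'
  unfold mR
  rw [Ideal.map_le_iff_le_comap]
  rintro ⟨r, hr⟩ hr0
  have h0 := mem_mA.1 hr0
  change ev i 0 r = 0 at h0
  have h1 : ev i 1 r = 0 := by rw [← hr i, h0]
  obtain ⟨g, rfl⟩ := sp_dvd_of_ev h0 h1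
  have hg := J495_quot hr
  have hm : sp i * g ^ 2 ∈ Agl := by
    intro j
    rw [map_mul, map_mul, map_pow, map_pow]
    by_cases h : j = i
    · subst h
      rw [ev_sp_self j 0 (Or.inl rfl), ev_sp_self j 1 (Or.inr rfl), zero_mul, zero_mul]
    · rw [ev_sp_ne (Ne.symm h), ev_sp_ne (Ne.symm h), hg j h]
  have e : (⟨sp i * g, hr⟩ : Agl) ^ 2 = ⟨sp i * g ^ 2, hm⟩ * ⟨sp i, sp_mem i⟩ := by
    apply Subtype.ext
    change (sp i * g) ^ 2 = (sp i * g ^ 2) * sp i
    ring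
  have h2 : (⟨sp i * g, hr⟩ : Agl) ^ 2 ∈ P.comap (algebraMap Agl Rg) := by
    rw [e]
    exact Ideal.mul_mem_left _ _ hs
  exact (Ideal.IsPrime.comap (algebraMap Agl Rg) (K := P)).mem_of_pow_mem _ h2

end Pool.Agent.Helper693.R1
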