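import Pool.Agent.Helper693.Gt.Base

/-! Every nonzero prime lies in a node prime -/

set_option autoImplicit false
set_option linter.unusedVariables false

namespace Pool.Agent.Helper693.R2

open MvPolynomial


theorem exists_le_mR (P : Ideal Rg) [P.IsPrime] (hP : P ≠ ⊥) : ∃ i, P ≤ mR i := by
  classical
  by_contra hcon
  push Not at hcon
  set Q : Ideal Agl := P.comap (algebraMap Agl Rg) with hQdef
  have hmap : Q.map (algebraMap Agl Rg) = P := IsLocalization.map_under Sm Rg P
  have hQ : ∀ i, ¬ Q ≤ mA i := by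
    intro i hi
    apply hcon i
    rw [← hmap]
    exact Ideal.map_mono hi
  have hQbot : Q ≠ ⊥ := by
    intro h
    apply hP
    rw [← hmap, h, Ideal.map_bot]
  obtain ⟨p0, hp0Q, hp0⟩ := Submodule.exists_mem_ne_zero_of_ne_bot hQbot
  have hp0' : (p0 : Pol) ≠ 0 := fun h => hp0 (Subtype.ext h)
  obtain ⟨q, hqQ, hq⟩ : ∃ q ∈ Q, ∀ i ∈ (p0 : Pol).vars, q ∉ mA i := by
    by_contra hne
    push Not at hne
    have hsub : (Q : Set Agl) ⊆ ⋃ i ∈ (((p0 : Pol).vars : Finset ℕ) : Set ℕ), (mA i : Set Agl) := by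
      intro x hx
      obtain ⟨i, hi, hxi⟩ := hne x hx
      simp only [Set.mem_iUnion]
      exact ⟨i, hi, hxi⟩
    obtain ⟨i, hi, hle⟩ := (Ideal.subset_union_prime 0 0 (fun i _ _ _ => mA_prime i)).1 hsub
    exact hQ i hle
  have hsubs : ∀ (a b : Pol), b ≠ 0 → {c : ℕ | a + (c : Pol) * b = 0}.Finite := by
    intro a b hb
    apply Set.Subsingleton.finite
    intro c hc d hd
    simp only [Set.mem_ofPred_eq] at hc hd
    have h1 : ((c : Pol) - (d : Pol)) * b = 0 := by linear_combination hc - hd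
    rcases mul_eq_zero.1 h1 with h2 | h2
    · exact Nat.cast_injective (R := Pol) (sub_eq_zero.1 h2)
    · exact absurd h2 hb
  have hfin : ∀ i : ℕ, {c : ℕ | ev i 0 (q : Pol) + (c : Pol) * ev i 0 (p0 : Pol) = 0}.Finite := by
    intro i
    by_cases h : ev i 0 (p0 : Pol) = 0
    · have hi : i ∈ (p0 : Pol).vars := by
        by_contra hi
        rw [ev_of_notMem_vars hi] at h
        exact hp0' h
      have hqi : ev i 0 (q : Pol) ≠ 0 := fun hh => hq i hi (mem_mA.2 hh)
      have : {c : ℕ | ev i 0 (q : Pol) + (c : Pol) * ev i 0 (p0 : Pol) = 0} = ∅ := by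
        ext c
        simp [h, hqi]
      rw [this]
      exact Set.finite_empty
    · exact hsubs _ _ h
  set V : Finset ℕ := (p0 : Pol).vars ∪ (q : Pol).vars with hV
  have hbad : ((⋃ i ∈ V, {c : ℕ | ev i 0 (q : Pol) + (c : Pol) * ev i 0 (p0 : Pol) = 0}) ∪
      {c : ℕ | (q : Pol) + (c : Pol) * (p0 : Pol) = 0}).Finite := by
    apply Set.Finite.union _ (hsubs _ _ hp0')
    exact Set.Finite.biUnion V.finite_toSet (fun i _ => hfin i)
  obtain ⟨c, hc⟩ := hbad.exists_notMem
  simp only [Set.mem_union, Set.mem_iUnion, Set.mem_ofPred_eq, not_or, not_exists] at hc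
  obtain ⟨hc1, hc2⟩ := hc
  have hgS : q + (c : Agl) * p0 ∈ Sm := by
    rw [mem_Sm]
    intro i
    have hco : ((q + (c : Agl) * p0 : Agl) : Pol) = (q : Pol) + (c : Pol) * (p0 : Pol) := by
      push_cast
      rfl
    rw [hco]
    by_cases hi : i ∈ V
    · have := hc1 i hi
      rw [map_add, map_mul, map_natCast]
      exact this
    · have h1 : i ∉ (p0 : Pol).vars := fun h => hi (Finset.mem_union_left _ h)
      have h2 : i ∉ (q : Pol).vars := fun h => hi (Finset.mem_union_right _ h)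
      rw [map_add, map_mul, map_natCast, ev_of_notMem_vars h1, ev_of_notMem_vars h2]
      exact hc2
  have hgQ : q + (c : Agl) * p0 ∈ Q := Q.add_mem hqQ (Q.mul_mem_left _ hp0Q)
  have hgP : algebraMap Agl Rg (q + (c : Agl) * p0) ∈ P := hgQ
  have hunit : IsUnit (algebraMap Agl Rg (q + (c : Agl) * p0)) :=
    IsLocalization.map_units Rg (⟨_, hgS⟩ : Sm)
  exact Ideal.IsPrime.ne_top ‹P.IsPrime› (Ideal.eq_top_of_isUnit_mem P hgP hunit)

end Pool.Agent.Helper693.R2
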