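import Pool.Agent.Helper693.Gt.Base

/-! Structure of the quotients by powers of a node prime -/

set_option autoImplicit false
set_option linter.unusedVariables false

namespace Pool.Agent.Helper693.R3

open MvPolynomial

theorem gen_aux {R : Type*} [CommRing R] (m : Ideal R) (S : Subring R)
    (h : ∀ z ∈ m, ∃ s ∈ S, z - s ∈ m ^ 2) (k : ℕ) : ∀ z ∈ m, ∃ s ∈ S, z - s ∈ m ^ (k + 1) := by
  induction k with
  | zero =>
    intro z hz
    exact ⟨0, S.zero_mem, by simpa using hz⟩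
  | succ k ih =>
    have key : ∀ z ∈ m ^ 2, ∃ s ∈ S, z - s ∈ m ^ (k + 1 + 1) := by
      intro z hz
      rw [pow_two] at hz
      refine Submodule.mul_induction_on hz ?_ ?_
      · intro a ha b hb
        obtain ⟨s, hs, hu⟩ := ih a ha
        obtain ⟨s1, hs1, hu1⟩ := ih b hb
        have hle : m ^ (k + 1) ≤ m := Ideal.pow_le_self (Nat.succ_ne_zero k)
        have hsm : s ∈ m := by
          have := m.sub_mem ha (hle hu)
          simpa using this
        have hb' : b ∈ m := hb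
        refine ⟨s * s1, S.mul_mem hs hs1, ?_⟩
        have e : a * b - s * s1 = (b - s1) * s + (a - s) * b := by ring
        rw [e, pow_succ]
        exact Ideal.add_mem _ (Ideal.mul_mem_mul hu1 hsm) (Ideal.mul_mem_mul hu hb')
      · rintro a b ⟨s, hs, hu⟩ ⟨s1, hs1, hu1⟩
        refine ⟨s + s1, S.add_mem hs hs1, ?_⟩
        have e : a + b - (s + s1) = (a - s) + (b - s1) := by ring
        rw [e]
        exact Ideal.add_mem _ hu hu1
    intro z hz
    obtain ⟨s, hs, hu⟩ := h z hz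
    obtain ⟨s1, hs1, hu1⟩ := key _ hu
    refine ⟨s + s1, S.add_mem hs hs1, ?_⟩
    have e : z - (s + s1) = z - s - s1 := by ring
    rw [e]
    exact hu1

/-- polynomials satisfying the gluing condition away from `i` -/
def Pc (i : ℕ) (g : Pol) : Prop := ∀ j, j ≠ i → ev j 0 g = ev j 1 g

theorem Pc_of_mem {i : ℕ} {g : Pol} (h : g ∈ Agl) : Pc i g := fun j _ => h j

theorem sp_mul_mem {i : ℕ} {g : Pol} (h : Pc i g) : sp i * g ∈ Agl := by
  intro j
  rw [map_mul, map_mul]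
  by_cases hj : j = i
  · subst hj
    rw [ev_sp_self j 0 (Or.inl rfl), ev_sp_self j 1 (Or.inr rfl), zero_mul, zero_mul]
  · rw [ev_sp_ne (Ne.symm hj), ev_sp_ne (Ne.symm hj), h j hj]

theorem Pc_of_sp_mul {i : ℕ} {g : Pol} (h : Pc i (sp i * g)) : Pc i g := by
  intro j hj
  have := h j hj
  rw [map_mul, map_mul, ev_sp_ne (Ne.symm hj), ev_sp_ne (Ne.symm hj)] at this
  exact mul_left_cancel₀ (sp_ne_zero i) this

theorem ev_mem_of_Pc {i : ℕ} {g : Pol} (h : Pc i g) (c : ℚ) : ev i c g ∈ Agl := by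
  intro j
  by_cases hj : j = i
  · subst hj
    rw [ev_ev, ev_ev]
  · rw [ev_comm hj, ev_comm hj, h j hj]

theorem exists_decomp {i : ℕ} {f : Pol} (hf : f ∈ Agl) (h0 : ev i 0 f = 0) :
    ∃ a b : Pol, a ∈ Agl ∧ b ∈ Agl ∧ f = sp i * a + (sp i * X i) * b := by
  have h1 : ev i 1 f = 0 := by rw [← hf i, h0]
  obtain ⟨g, rfl⟩ := sp_dvd_of_ev h0 h1
  have hg : Pc i g := Pc_of_sp_mul (Pc_of_mem hf)
  have hα := ev_mem_of_Pc hg 0
  have hβ := ev_mem_of_Pc hg 1
  have hb : ev i 1 g - ev i 0 g ∈ Agl := Agl.sub_mem hβ hα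
  refine ⟨g - X i * (ev i 1 g - ev i 0 g), ev i 1 g - ev i 0 g, ?_, hb, by ring⟩
  intro j
  by_cases hj : j = i
  · subst hj
    simp only [map_sub, map_mul, ev_X_self, ev_ev, map_zero, map_one]
    ring
  · rw [map_sub, map_mul, map_sub (ev j 1), map_mul (ev j 1), ev_X_ne (Ne.symm hj),
      ev_X_ne (Ne.symm hj), hg j hj, hb j]

/-- the map to the quotient -/
noncomputable def qa (i n : ℕ) : Agl →+* Rg ⧸ (mR i) ^ n :=
  (Ideal.Quotient.mk ((mR i) ^ n)).comp (algebraMap Agl Rg)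

/-- the image of the node prime -/
noncomputable def mq (i n : ℕ) : Ideal (Rg ⧸ (mR i) ^ n) := (mR i).map (Ideal.Quotient.mk _)

theorem qa_mem_mq {i n : ℕ} {a : Agl} (h : ev i 0 (a : Pol) = 0) : qa i n a ∈ mq i n :=
  Ideal.mem_map_of_mem _ (algebraMap_mem_mR.2 h)

theorem mq_pow (i n : ℕ) : (mq i n) ^ n = ⊥ := by
  unfold mq
  rw [← Ideal.map_pow, Ideal.map_quotient_self]

theorem qa_unit_of_Sm {i n : ℕ} {s : Agl} (hs : s ∈ Sm) : IsUnit (qa i n s) := by
  unfold qa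
  rw [RingHom.comp_apply]
  exact (IsLocalization.map_units Rg ⟨s, hs⟩).map _

theorem exists_good (i n : ℕ) (f : Pol) (hf : ev i 0 f ≠ 0) :
    ∃ c : ℚ, ∀ j, ev j 0 (f + C c * sp i ^ (n + 1)) ≠ 0 := by
  classical
  -- the bad constants
  have hbad : ∀ g : Pol, {c : ℚ | g + C c * sp i ^ (n + 1) = 0}.Subsingleton := by
    intro g c hc d hd
    simp only [Set.mem_ofPred_eq] at hc hd
    have e : (C c - C d : Pol) * sp i ^ (n + 1) = 0 := by
      have : (C c - C d : Pol) * sp i ^ (n + 1)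
        = (g + C c * sp i ^ (n + 1)) - (g + C d * sp i ^ (n + 1)) := by ring
      rw [this, hc, hd, sub_zero]
    have h2 : (C c - C d : Pol) = 0 := by
      rcases mul_eq_zero.1 e with h | h
      · exact h
      · exact absurd h (pow_ne_zero _ (sp_ne_zero i))
    exact C_injective ℕ ℚ (sub_eq_zero.1 h2)
  have hfin : ((⋃ j ∈ f.vars, {c : ℚ | ev j 0 f + C c * sp i ^ (n + 1) = 0}) ∪
      {c : ℚ | f + C c * sp i ^ (n + 1) = 0}).Finite := by
    refine Set.Finite.union ?_ (hbad f).finite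
    exact Set.Finite.biUnion (Finset.finite_toSet _) (fun j _ => (hbad _).finite)
  obtain ⟨c, hc⟩ := hfin.infinite_compl.nonempty
  rw [Set.mem_compl_iff, Set.mem_union, not_or] at hc
  obtain ⟨hc1, hc2⟩ := hc
  refine ⟨c, ?_⟩
  intro j
  rw [map_add, map_mul, ev_C, map_pow]
  by_cases hj : j = i
  · subst hj
    rw [ev_sp_self j 0 (Or.inl rfl), zero_pow (Nat.succ_ne_zero n), mul_zero, add_zero]
    exact hf
  · rw [ev_sp_ne (Ne.symm hj)]
    by_cases hv : j ∈ f.vars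
    · intro h
      apply hc1
      rw [Set.mem_iUnion₂]
      exact ⟨j, hv, h⟩
    · rw [ev_of_notMem_vars hv]
      exact hc2

theorem qa_unit {i n : ℕ} {f : Agl} (hf : ev i 0 (f : Pol) ≠ 0) : IsUnit (qa i n f) := by
  obtain ⟨c, hc⟩ := exists_good i n (f : Pol) hf
  have hmem : (C c * sp i ^ (n + 1) : Pol) ∈ Agl := by
    refine Agl.mul_mem ?_ (Agl.pow_mem (sp_mem i) _)
    exact Agl.algebraMap_mem c
  have hsm : (f + ⟨C c * sp i ^ (n + 1), hmem⟩ : Agl) ∈ Sm := fun j => hc j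
  have hu := qa_unit_of_Sm (i := i) (n := n) hsm
  rw [map_add] at hu
  have hz : qa i n ⟨C c * sp i ^ (n + 1), hmem⟩ = 0 := by
    have e : (⟨C c * sp i ^ (n + 1), hmem⟩ : Agl)
        = algebraMap ℚ Agl c * (⟨sp i, sp_mem i⟩ : Agl) ^ (n + 1) := by
      apply Subtype.ext
      rfl
    rw [e, map_mul, map_pow]
    have : (qa i n ⟨sp i, sp_mem i⟩) ^ (n + 1) = 0 := by
      have h1 : qa i n ⟨sp i, sp_mem i⟩ ∈ mq i n := qa_mem_mq (ev_sp_self i 0 (Or.inl rfl))
      have h2 := Ideal.pow_mem_pow h1 n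
      rw [mq_pow, Ideal.mem_bot] at h2
      rw [pow_succ, h2, zero_mul]
    rw [this, mul_zero]
  rwa [hz, add_zero] at hu

/-- the coefficient ring -/
noncomputable def Bs (i : ℕ) : Subalgebra ℚ Pol :=
  (AlgHom.equalizer (ev i 0) (AlgHom.id ℚ Pol)) ⊓ Agl

theorem mem_Bs {i : ℕ} {f : Pol} : f ∈ Bs i ↔ ev i 0 f = f ∧ f ∈ Agl := by
  unfold Bs
  rw [Algebra.mem_inf, AlgHom.mem_equalizer]
  rfl

/-- inclusion into `Agl` -/
noncomputable def inc (i : ℕ) : Bs i →+* Agl :=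
  (Subalgebra.inclusion (inf_le_right : Bs i ≤ Agl)).toRingHom

theorem coe_inc (i : ℕ) (b : Bs i) : ((inc i b : Agl) : Pol) = (b : Pol) := rfl

theorem inc_unit (i n : ℕ) (y : nonZeroDivisors (Bs i)) : IsUnit ((qa i n).comp (inc i) y) := by
  rw [RingHom.comp_apply]
  apply qa_unit
  rw [coe_inc, (mem_Bs.1 (y : Bs i).2).1]
  intro h
  exact nonZeroDivisors.ne_zero y.2 (Subtype.ext h)

/-- the coefficient field -/
noncomputable def lam (i n : ℕ) : FractionRing (Bs i) →+* Rg ⧸ (mR i) ^ n :=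
  IsLocalization.lift (M := nonZeroDivisors (Bs i)) (g := (qa i n).comp (inc i)) (inc_unit i n)

theorem lam_algebraMap (i n : ℕ) (b : Bs i) :
    lam i n (algebraMap (Bs i) (FractionRing (Bs i)) b) = qa i n (inc i b) := by
  unfold lam
  rw [IsLocalization.lift_eq]
  rfl

theorem exists_lam (i n : ℕ) (r : Rg ⧸ (mR i) ^ n) : ∃ l, r - lam i n l ∈ mq i n := by
  obtain ⟨r, rfl⟩ := Ideal.Quotient.mk_surjective r
  obtain ⟨⟨a, s⟩, hs⟩ := IsLocalization.surj Sm r
  simp only at hs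
  have hsS : ∀ j, ev j 0 ((s : Agl) : Pol) ≠ 0 := s.2
  have hα : ev i 0 (a : Pol) ∈ Bs i := mem_Bs.2 ⟨ev_ev _ _ _ _, ev_mem a.2 _ _⟩
  have hσ : ev i 0 ((s : Agl) : Pol) ∈ Bs i := mem_Bs.2 ⟨ev_ev _ _ _ _, ev_mem (s : Agl).2 _ _⟩
  set α : Bs i := ⟨_, hα⟩ with hαd
  set σ : Bs i := ⟨_, hσ⟩ with hσd
  have hσ0 : σ ≠ 0 := fun h => hsS i (congrArg Subtype.val h)
  set K := FractionRing (Bs i)
  have hK : algebraMap (Bs i) K σ ≠ 0 := by
    intro h
    exact hσ0 ((IsFractionRing.injective (Bs i) K) (by rw [h, map_zero]))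
  refine ⟨algebraMap (Bs i) K α / algebraMap (Bs i) K σ, ?_⟩
  have h1 : lam i n (algebraMap (Bs i) K α / algebraMap (Bs i) K σ) * qa i n (inc i σ)
      = qa i n (inc i α) := by
    rw [← lam_algebraMap, ← lam_algebraMap, ← map_mul, div_mul_cancel₀ _ hK]
  have hu1 : IsUnit (qa i n (s : Agl)) := qa_unit_of_Sm s.2
  have hu2 : IsUnit (qa i n (inc i σ)) := by
    apply qa_unit
    rw [coe_inc, (mem_Bs.1 σ.2).1]
    exact hsS i
  have h2 : (Ideal.Quotient.mk ((mR i) ^ n) r) * qa i n (s : Agl) = qa i n a := by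
    unfold qa
    rw [RingHom.comp_apply, RingHom.comp_apply, ← map_mul, hs]
  have h3 : (Ideal.Quotient.mk ((mR i) ^ n) r
      - lam i n (algebraMap (Bs i) K α / algebraMap (Bs i) K σ)) *
      (qa i n (s : Agl) * qa i n (inc i σ)) = qa i n (a * inc i σ - inc i α * (s : Agl)) := by
    rw [map_sub, map_mul, map_mul, ← h1, ← h2]
    ring
  have h4 : qa i n (a * inc i σ - inc i α * (s : Agl)) ∈ mq i n := by
    apply qa_mem_mq
    have : ((a * inc i σ - inc i α * (s : Agl) : Agl) : Pol)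
        = (a : Pol) * ev i 0 ((s : Agl) : Pol) - ev i 0 (a : Pol) * ((s : Agl) : Pol) := rfl
    rw [this, map_sub, map_mul, map_mul, ev_ev, ev_ev]
    ring
  rw [← h3] at h4
  exact (Ideal.mul_unit_mem_iff_mem _ (hu1.mul hu2)).1 h4

theorem qa_sp_mul_mem_sq {i n : ℕ} {g : Pol} (hP : Pc i g) (h0 : ev i 0 g = 0) (h1 : ev i 1 g = 0) :
    qa i n ⟨sp i * g, sp_mul_mem hP⟩ ∈ (mq i n) ^ 2 := by
  obtain ⟨g2, rfl⟩ := sp_dvd_of_ev h0 h1
  have hg2 : Pc i g2 := Pc_of_sp_mul hP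
  have e : (⟨sp i * (sp i * g2), sp_mul_mem hP⟩ : Agl)
      = (⟨sp i, sp_mem i⟩ : Agl) * ⟨sp i * g2, sp_mul_mem hg2⟩ := Subtype.ext rfl
  rw [e, map_mul, pow_two]
  refine Ideal.mul_mem_mul (qa_mem_mq (ev_sp_self i 0 (Or.inl rfl))) (qa_mem_mq ?_)
  show ev i 0 (sp i * g2) = 0
  rw [map_mul, ev_sp_self i 0 (Or.inl rfl), zero_mul]

theorem Pc_X_pow (i k : ℕ) : Pc i (X i ^ k) := by
  intro j hj
  rw [map_pow, map_pow, ev_X_ne (Ne.symm hj), ev_X_ne (Ne.symm hj)]

theorem Pc_X_sub_pow (i k : ℕ) : Pc i ((X i - 1) ^ k) := by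
  intro j hj
  rw [map_pow, map_pow, map_sub, map_sub, ev_X_ne (Ne.symm hj), ev_X_ne (Ne.symm hj), map_one,
    map_one]

theorem node_structure (i n : ℕ) :
    ∃ (L : Type) (_ : Field L) (lam : L →+* Rg ⧸ (mR i) ^ n) (x y : Rg ⧸ (mR i) ^ n),
      x * y = 0 ∧ Subring.closure (Set.range lam ∪ {x, y}) = ⊤ := by
  set x : Rg ⧸ (mR i) ^ n := qa i n ⟨sp i * (X i - 1) ^ (n + 1), sp_mul_mem (Pc_X_sub_pow i _)⟩
    with hx
  set y : Rg ⧸ (mR i) ^ n := qa i n ⟨sp i * (X i) ^ (n + 1), sp_mul_mem (Pc_X_pow i _)⟩ with hy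
  refine ⟨FractionRing (Bs i), inferInstance, lam i n, x, y, ?_, ?_⟩
  · rw [hx, hy, ← map_mul]
    have e : ((⟨sp i * (X i - 1) ^ (n + 1), sp_mul_mem (Pc_X_sub_pow i _)⟩ : Agl)
        * ⟨sp i * (X i) ^ (n + 1), sp_mul_mem (Pc_X_pow i _)⟩)
        = (⟨sp i, sp_mem i⟩ : Agl) ^ (n + 3) := by
      apply Subtype.ext
      show sp i * (X i - 1) ^ (n + 1) * (sp i * (X i) ^ (n + 1)) = sp i ^ (n + 3)
      have : sp i * (X i - 1) ^ (n + 1) * (sp i * (X i) ^ (n + 1))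
          = sp i ^ 2 * (X i * (X i - 1)) ^ (n + 1) := by
        rw [mul_pow]
        ring
      rw [this]
      show sp i ^ 2 * (sp i) ^ (n + 1) = sp i ^ (n + 3)
      ring
    rw [e, map_pow]
    have h1 : qa i n ⟨sp i, sp_mem i⟩ ∈ mq i n := qa_mem_mq (ev_sp_self i 0 (Or.inl rfl))
    have h2 := Ideal.pow_mem_pow h1 n
    rw [mq_pow, Ideal.mem_bot] at h2
    rw [pow_add, h2, zero_mul]
  · set S := Subring.closure (Set.range (lam i n) ∪ {x, y}) with hS
    have hlamS : ∀ l, lam i n l ∈ S := fun l => Subring.subset_closure (Or.inl ⟨l, rfl⟩)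
    have hxS : x ∈ S := Subring.subset_closure (Or.inr (Or.inl rfl))
    have hyS : y ∈ S := Subring.subset_closure (Or.inr (Or.inr rfl))
    -- the two generators of the ideal modulo its square
    have hg1 : ∃ s ∈ S, qa i n ⟨sp i, sp_mem i⟩ - s ∈ (mq i n) ^ 2 := by
      refine ⟨(-1) ^ (n + 1) * x + y, S.add_mem (S.mul_mem (S.pow_mem (S.neg_mem S.one_mem) _) hxS)
        hyS, ?_⟩
      have hP : Pc i (1 - (-1) ^ (n + 1) * (X i - 1) ^ (n + 1) - (X i) ^ (n + 1)) := by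
        intro j hj
        simp only [map_sub, map_mul, map_pow, map_neg, map_one, ev_X_ne (Ne.symm hj)]
      have h0 : ev i 0 (1 - (-1) ^ (n + 1) * (X i - 1) ^ (n + 1) - (X i) ^ (n + 1)) = 0 := by
        simp only [map_sub, map_mul, map_pow, map_neg, map_one, ev_X_self, map_zero, zero_sub]
        rw [← mul_pow, zero_pow (Nat.succ_ne_zero n)]
        simp
      have h1 : ev i 1 (1 - (-1) ^ (n + 1) * (X i - 1) ^ (n + 1) - (X i) ^ (n + 1)) = 0 := by
        simp only [map_sub, map_mul, map_pow, map_neg, map_one, ev_X_self, sub_self]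
        rw [zero_pow (Nat.succ_ne_zero n)]
        simp
      have h2 := qa_sp_mul_mem_sq (n := n) hP h0 h1
      have e : (⟨sp i * (1 - (-1) ^ (n + 1) * (X i - 1) ^ (n + 1) - (X i) ^ (n + 1)),
          sp_mul_mem hP⟩ : Agl) = ⟨sp i, sp_mem i⟩ -
          ((-1) ^ (n + 1) * ⟨sp i * (X i - 1) ^ (n + 1), sp_mul_mem (Pc_X_sub_pow i _)⟩ +
          ⟨sp i * (X i) ^ (n + 1), sp_mul_mem (Pc_X_pow i _)⟩) := by
        apply Subtype.ext
        push_cast
        ring
      rw [e, map_sub, map_add, map_mul, map_pow, map_neg, map_one] at h2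
      exact h2
    have hXmem : sp i * X i ∈ Agl := by
      have := sp_mul_mem (Pc_X_pow i 1)
      rwa [pow_one] at this
    have hg2 : ∃ s ∈ S, qa i n ⟨sp i * X i, hXmem⟩ - s ∈ (mq i n) ^ 2 := by
      refine ⟨y, hyS, ?_⟩
      have hP : Pc i (X i - (X i) ^ (n + 1)) := by
        intro j hj
        simp only [map_sub, map_pow, ev_X_ne (Ne.symm hj)]
      have h0 : ev i 0 (X i - (X i) ^ (n + 1)) = 0 := by
        simp only [map_sub, map_pow, ev_X_self, map_zero]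
        rw [zero_pow (Nat.succ_ne_zero n), sub_zero]
      have h1 : ev i 1 (X i - (X i) ^ (n + 1)) = 0 := by
        simp only [map_sub, map_pow, ev_X_self, map_one, one_pow, sub_self]
      have h2 := qa_sp_mul_mem_sq (n := n) hP h0 h1
      have e : (⟨sp i * (X i - (X i) ^ (n + 1)), sp_mul_mem hP⟩ : Agl) = ⟨sp i * X i, hXmem⟩ -
          ⟨sp i * (X i) ^ (n + 1), sp_mul_mem (Pc_X_pow i _)⟩ := by
        apply Subtype.ext
        push_cast
        ring
      rw [e, map_sub] at h2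
      exact h2
    -- products with arbitrary elements
    have hprod : ∀ g ∈ mq i n, (∃ s ∈ S, g - s ∈ (mq i n) ^ 2) → ∀ r,
        ∃ s ∈ S, r * g - s ∈ (mq i n) ^ 2 := by
      intro g hg ⟨s, hs, hgs⟩ r
      obtain ⟨l, hl⟩ := exists_lam i n r
      refine ⟨lam i n l * s, S.mul_mem (hlamS l) hs, ?_⟩
      have e : r * g - lam i n l * s = (r - lam i n l) * g + lam i n l * (g - s) := by ring
      rw [e]
      refine Ideal.add_mem _ ?_ (Ideal.mul_mem_left _ _ hgs)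
      rw [pow_two]
      exact Ideal.mul_mem_mul hl hg
    have hstep : ∀ z ∈ mq i n, ∃ s ∈ S, z - s ∈ (mq i n) ^ 2 := by
      intro z hz
      obtain ⟨r, hr, rfl⟩ := (Ideal.mem_map_iff_of_surjective _ Ideal.Quotient.mk_surjective).1 hz
      obtain ⟨⟨a, s⟩, hs⟩ := (IsLocalization.mem_map_algebraMap_iff Sm Rg).1 hr
      simp only at hs
      obtain ⟨a', b', ha', hb', hab⟩ := exists_decomp (a : Agl).2 (mem_mA.1 a.2)
      obtain ⟨u, hu⟩ := qa_unit_of_Sm (i := i) (n := n) s.2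
      have h2 : (Ideal.Quotient.mk ((mR i) ^ n) r) * qa i n (s : Agl) = qa i n a := by
        unfold qa
        rw [RingHom.comp_apply, RingHom.comp_apply, ← map_mul, hs]
      have h3 : qa i n (a : Agl) = qa i n ⟨a', ha'⟩ * qa i n ⟨sp i, sp_mem i⟩ +
          qa i n ⟨b', hb'⟩ * qa i n ⟨sp i * X i, hXmem⟩ := by
        rw [← map_mul, ← map_mul, ← map_add]
        congr 1
        apply Subtype.ext
        push_cast
        rw [hab]
        ring
      have h4 : Ideal.Quotient.mk ((mR i) ^ n) r =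
          (↑u⁻¹ * qa i n ⟨a', ha'⟩) * qa i n ⟨sp i, sp_mem i⟩ +
          (↑u⁻¹ * qa i n ⟨b', hb'⟩) * qa i n ⟨sp i * X i, hXmem⟩ := by
        rw [← hu] at h2
        have : Ideal.Quotient.mk ((mR i) ^ n) r = (Ideal.Quotient.mk ((mR i) ^ n) r * ↑u) * ↑u⁻¹ := by
          rw [mul_assoc, Units.mul_inv, mul_one]
        rw [this, h2, h3]
        ring
      have hm1 : qa i n ⟨sp i, sp_mem i⟩ ∈ mq i n := qa_mem_mq (ev_sp_self i 0 (Or.inl rfl))
      have hm2 : qa i n ⟨sp i * X i, hXmem⟩ ∈ mq i n := by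
        apply qa_mem_mq
        show ev i 0 (sp i * X i) = 0
        rw [map_mul, ev_sp_self i 0 (Or.inl rfl), zero_mul]
      obtain ⟨s1, hs1, hh1⟩ := hprod _ hm1 hg1 (↑u⁻¹ * qa i n ⟨a', ha'⟩)
      obtain ⟨s2, hs2, hh2⟩ := hprod _ hm2 hg2 (↑u⁻¹ * qa i n ⟨b', hb'⟩)
      refine ⟨s1 + s2, S.add_mem hs1 hs2, ?_⟩
      rw [h4]
      have e : ∀ A B : Rg ⧸ (mR i) ^ n, A + B - (s1 + s2) = (A - s1) + (B - s2) := by
        intro A B; ring
      rw [e]
      exact Ideal.add_mem _ hh1 hh2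
    rw [eq_top_iff]
    intro z _
    obtain ⟨l, hl⟩ := exists_lam i n z
    obtain ⟨s, hs, hh⟩ := gen_aux (mq i n) S hstep n _ hl
    have h0 : (mq i n) ^ (n + 1) = ⊥ := by
      rw [pow_succ, mq_pow, Ideal.bot_mul]
    rw [h0, Ideal.mem_bot] at hh
    have : z = s + lam i n l := by
      have := sub_eq_zero.1 hh
      rw [← this]; ring
    rw [this]
    exact S.add_mem hs (hlamS l)

end Pool.Agent.Helper693.R3
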