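import Pool.Agent.Helper693.Gt.Base

/-! A generic module of endolength two at each node -/

set_option autoImplicit false
set_option linter.unusedVariables false

namespace Pool.Agent.Helper693.R4

open MvPolynomial

/-! ### the generic module -/

section generic

/-- the field -/
abbrev FF : Type := FractionRing Pol

/-- dual numbers -/
abbrev DD : Type := DualNumber FF

theorem io_inj : Function.Injective (algebraMap Pol FF) := IsFractionRing.injective Pol FF

theorem snd_mul' (x y : DD) : (x * y).snd = x.fst * y.snd + x.snd * y.fst := by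
  rw [TrivSqZeroExt.snd_mul]
  simp [mul_comm]

/-- first substitution -/
noncomputable def ps0 (i : ℕ) : Pol →+* DD :=
  eval₂Hom ((TrivSqZeroExt.inlHom FF FF).comp ((algebraMap Pol FF).comp C))
    (fun j => if j = i then TrivSqZeroExt.inr 1 else TrivSqZeroExt.inl (algebraMap Pol FF (X j)))

/-- second substitution -/
noncomputable def ps1 (i : ℕ) : Pol →+* DD :=
  eval₂Hom ((TrivSqZeroExt.inlHom FF FF).comp ((algebraMap Pol FF).comp C)) (fun j => if j = i then TrivSqZeroExt.inl 1 + TrivSqZeroExt.inr (algebraMap Pol FF (X i))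
    else TrivSqZeroExt.inl (algebraMap Pol FF (X j)))

theorem ps0_self (i : ℕ) : ps0 i (X i) = TrivSqZeroExt.inr 1 := by simp [ps0]

theorem ps1_self (i : ℕ) :
    ps1 i (X i) = TrivSqZeroExt.inl 1 + TrivSqZeroExt.inr (algebraMap Pol FF (X i)) := by simp [ps1]

theorem ps0_ne {i j : ℕ} (h : j ≠ i) :
    ps0 i (X j) = TrivSqZeroExt.inl (algebraMap Pol FF (X j)) := by simp [ps0, h]

theorem ps1_ne {i j : ℕ} (h : j ≠ i) :
    ps1 i (X j) = TrivSqZeroExt.inl (algebraMap Pol FF (X j)) := by simp [ps1, h]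

theorem fst_ps0 (i : ℕ) (f : Pol) : (ps0 i f).fst = algebraMap Pol FF (ev i 0 f) := by
  induction f using MvPolynomial.induction_on with
  | C a =>
    rw [ev_C]
    simp [ps0, ps1]
  | add p q hp hq =>
    rw [map_add, map_add, map_add, TrivSqZeroExt.fst_add, hp, hq]
  | mul_X p j hp =>
    rw [map_mul, map_mul, map_mul, TrivSqZeroExt.fst_mul, hp]
    by_cases h : j = i
    · subst h
      rw [ps0_self, ev_X_self]
      simp
    · rw [ps0_ne h, ev_X_ne h]
      simp

theorem fst_ps1 (i : ℕ) (f : Pol) : (ps1 i f).fst = algebraMap Pol FF (ev i 1 f) := by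
  induction f using MvPolynomial.induction_on with
  | C a =>
    rw [ev_C]
    simp [ps0, ps1]
  | add p q hp hq =>
    rw [map_add, map_add, map_add, TrivSqZeroExt.fst_add, hp, hq]
  | mul_X p j hp =>
    rw [map_mul, map_mul, map_mul, TrivSqZeroExt.fst_mul, hp]
    by_cases h : j = i
    · subst h
      rw [ps1_self, ev_X_self]
      simp
    · rw [ps1_ne h, ev_X_ne h]
      simp

/-- the map to the dual numbers -/
noncomputable def Gam (i : ℕ) : Agl →+* DD where
  toFun := fun a => TrivSqZeroExt.inl (algebraMap Pol FF (ev i 0 (a : Pol))) +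
    TrivSqZeroExt.inr ((ps0 i (a : Pol)).snd + (ps1 i (a : Pol)).snd)
  map_one' := by
    ext
    · simp
    · simp
  map_zero' := by
    ext
    · simp
    · simp
  map_add' := fun a b => by
    ext
    · simp
    · simp
      ring
  map_mul' := fun a b => by
    ext
    · simp
    · rw [snd_mul']
      have h1 := fst_ps0 i (a : Pol)
      have h2 := fst_ps1 i (a : Pol)
      have h3 := fst_ps0 i (b : Pol)
      have h4 := fst_ps1 i (b : Pol)
      have h5 := a.2 i
      have h6 := b.2 i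
      rw [← h5] at h2
      rw [← h6] at h4
      simp only [MulMemClass.coe_mul, map_mul, TrivSqZeroExt.snd_add, TrivSqZeroExt.snd_inl,
        TrivSqZeroExt.snd_inr, zero_add, TrivSqZeroExt.fst_add, TrivSqZeroExt.fst_inl,
        TrivSqZeroExt.fst_inr, add_zero, snd_mul', h1, h2, h3, h4]
      ring

theorem fst_Gam (i : ℕ) (a : Agl) : (Gam i a).fst = algebraMap Pol FF (ev i 0 (a : Pol)) := by
  simp [Gam]

theorem snd_Gam (i : ℕ) (a : Agl) : (Gam i a).snd = (ps0 i (a : Pol)).snd + (ps1 i (a : Pol)).snd := by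
  simp [Gam]

theorem Gam_unit (i : ℕ) (y : Sm) : IsUnit (Gam i (y : Agl)) := by
  rw [TrivSqZeroExt.isUnit_iff_isUnit_fst, fst_Gam, isUnit_iff_ne_zero]
  intro h
  exact y.2 i ((map_eq_zero_iff _ io_inj).1 h)

/-- the ring map from `Rg` -/
noncomputable def Ph (i : ℕ) : Rg →+* DD := IsLocalization.lift (M := Sm) (Gam_unit i)

theorem Ph_algebraMap (i : ℕ) (a : Agl) : Ph i (algebraMap Agl Rg a) = Gam i a :=
  IsLocalization.lift_eq _ _

/-- the module -/
def Gm (_ : ℕ) : Type := DD

noncomputable instance (i : ℕ) : CommRing (Gm i) := inferInstanceAs (CommRing DD)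

/-- the ring map to the synonym -/
noncomputable def PhG (i : ℕ) : Rg →+* Gm i := Ph i

noncomputable instance (i : ℕ) : Module Rg (Gm i) := Module.compHom (Gm i) (PhG i)

/-- first component -/
noncomputable def fs {i : ℕ} (g : Gm i) : FF := TrivSqZeroExt.fst (g : DD)
/-- second component -/
noncomputable def sn {i : ℕ} (g : Gm i) : FF := TrivSqZeroExt.snd (g : DD)
/-- constructor -/
noncomputable def mk (i : ℕ) (x y : FF) : Gm i := (TrivSqZeroExt.inl x + TrivSqZeroExt.inr y : DD)

theorem Gm_ext {i : ℕ} {g h : Gm i} (h1 : fs g = fs h) (h2 : sn g = sn h) : g = h :=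
  TrivSqZeroExt.ext h1 h2

@[simp] theorem fs_mk (i : ℕ) (x y : FF) : fs (mk i x y) = x := by
  show TrivSqZeroExt.fst (TrivSqZeroExt.inl x + TrivSqZeroExt.inr y : DD) = x
  simp
@[simp] theorem sn_mk (i : ℕ) (x y : FF) : sn (mk i x y) = y := by
  show TrivSqZeroExt.snd (TrivSqZeroExt.inl x + TrivSqZeroExt.inr y : DD) = y
  simp
@[simp] theorem fs_add {i : ℕ} (g h : Gm i) : fs (g + h) = fs g + fs h := rfl
@[simp] theorem sn_add {i : ℕ} (g h : Gm i) : sn (g + h) = sn g + sn h := rfl
@[simp] theorem fs_sub {i : ℕ} (g h : Gm i) : fs (g - h) = fs g - fs h := rfl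
@[simp] theorem sn_sub {i : ℕ} (g h : Gm i) : sn (g - h) = sn g - sn h := rfl
@[simp] theorem fs_zero {i : ℕ} : fs (0 : Gm i) = 0 := rfl
@[simp] theorem sn_zero {i : ℕ} : sn (0 : Gm i) = 0 := rfl
@[simp] theorem fs_mul {i : ℕ} (g h : Gm i) : fs (g * h) = fs g * fs h := rfl
@[simp] theorem sn_mul {i : ℕ} (g h : Gm i) : sn (g * h) = fs g * sn h + sn g * fs h :=
  snd_mul' g h

theorem smul_def' {i : ℕ} (r : Rg) (g : Gm i) : r • g = PhG i r * g := rfl

/-- the action of `Agl` -/
noncomputable def Ga (i : ℕ) (a : Agl) : Gm i := Gam i a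

theorem alg_smul {i : ℕ} (a : Agl) (g : Gm i) : algebraMap Agl Rg a • g = Ga i a * g := by
  rw [smul_def']
  unfold PhG Ga
  congr 1
  exact Ph_algebraMap i a

theorem fs_Ga (i : ℕ) (a : Agl) : fs (Ga i a) = algebraMap Pol FF (ev i 0 (a : Pol)) := fst_Gam i a
theorem sn_Ga (i : ℕ) (a : Agl) : sn (Ga i a) = (ps0 i (a : Pol)).snd + (ps1 i (a : Pol)).snd :=
  snd_Gam i a

theorem n1_mem (i : ℕ) : (X i * (X i - 1) ^ 2 : Pol) ∈ Agl := by
  intro j
  by_cases h : i = j
  · subst h
    simp [ev_X_self]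
  · simp [ev_X_ne h]

theorem n2_mem (i : ℕ) : (X i ^ 2 * (X i - 1) : Pol) ∈ Agl := by
  intro j
  by_cases h : i = j
  · subst h
    simp [ev_X_self]
  · simp [ev_X_ne h]

theorem xsp_mem (j : ℕ) : (X j * sp j : Pol) ∈ Agl := by
  intro k
  by_cases h : j = k
  · subst h
    rw [map_mul, map_mul, ev_sp_self j 0 (Or.inl rfl), ev_sp_self j 1 (Or.inr rfl), mul_zero,
      mul_zero]
  · rw [map_mul, map_mul, ev_sp_ne h, ev_sp_ne h, ev_X_ne h, ev_X_ne h]

theorem Ga_n1 (i : ℕ) : Ga i ⟨_, n1_mem i⟩ = mk i 0 1 := by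
  apply Gm_ext
  · rw [fs_Ga]
    simp [ev_X_self]
  · rw [sn_Ga]
    simp only [map_mul, map_pow, map_sub, map_one, ps0_self, ps1_self, sn_mk]
    simp [snd_mul', pow_two]

theorem Ga_n2 (i : ℕ) : Ga i ⟨_, n2_mem i⟩ = mk i 0 (algebraMap Pol FF (X i)) := by
  apply Gm_ext
  · rw [fs_Ga]
    simp [ev_X_self]
  · rw [sn_Ga]
    simp only [map_mul, map_pow, map_sub, map_one, ps0_self, ps1_self, sn_mk]
    simp [snd_mul', pow_two]
    rw [Algebra.smul_def, mul_one]

theorem Ga_sp (i : ℕ) : fs (Ga i ⟨_, sp_mem i⟩) = 0 := by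
  rw [fs_Ga]
  simp only
  rw [ev_sp_self i 0 (Or.inl rfl), map_zero]

theorem Ga_sp_ne {i j : ℕ} (h : j ≠ i) :
    fs (Ga i ⟨_, sp_mem j⟩) = algebraMap Pol FF (sp j) := by
  rw [fs_Ga]
  simp only
  rw [ev_sp_ne h]

variable {i : ℕ}

/-- the map induced on first components -/
noncomputable def p1 (φ : Gm i →ₗ[Rg] Gm i) (x : FF) : FF := fs (φ (mk i x 0))

theorem phi_Ga (φ : Gm i →ₗ[Rg] Gm i) (a : Agl) (g : Gm i) : φ (Ga i a * g) = Ga i a * φ g := by
  rw [← alg_smul, map_smul, alg_smul]

theorem phi_inr (φ : Gm i →ₗ[Rg] Gm i) (x : FF) : φ (mk i 0 x) = mk i 0 (p1 φ x) := by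
  have h1 : mk i 0 x = Ga i ⟨_, n1_mem i⟩ * mk i x 0 := by
    rw [Ga_n1]
    apply Gm_ext <;> simp
  rw [h1, phi_Ga, Ga_n1]
  apply Gm_ext <;> simp [p1]

theorem mk_inj2 {x y : FF} (h : mk i 0 x = mk i 0 y) : x = y := by
  have := congrArg sn h
  simpa using this

theorem p1_add (φ : Gm i →ₗ[Rg] Gm i) (x y : FF) : p1 φ (x + y) = p1 φ x + p1 φ y := by
  have : mk i (x + y) 0 = mk i x 0 + mk i y 0 := by apply Gm_ext <;> simp
  unfold p1
  rw [this, map_add, fs_add]

theorem p1_Ga (φ : Gm i →ₗ[Rg] Gm i) (a : Agl) (x : FF) :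
    p1 φ (algebraMap Pol FF (ev i 0 (a : Pol)) * x) =
      algebraMap Pol FF (ev i 0 (a : Pol)) * p1 φ x := by
  have h1 : mk i 0 (algebraMap Pol FF (ev i 0 (a : Pol)) * x) = Ga i a * mk i 0 x := by
    apply Gm_ext
    · simp
    · simp [fs_Ga]
  apply mk_inj2 (i := i)
  rw [← phi_inr, h1, phi_Ga, phi_inr]
  apply Gm_ext
  · simp
  · simp [fs_Ga]

theorem p1_Xi (φ : Gm i →ₗ[Rg] Gm i) (x : FF) :
    p1 φ (algebraMap Pol FF (X i) * x) = algebraMap Pol FF (X i) * p1 φ x := by
  have h1 : mk i 0 (algebraMap Pol FF (X i) * x) = Ga i ⟨_, n2_mem i⟩ * mk i x 0 := by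
    rw [Ga_n2]
    apply Gm_ext <;> simp
  apply mk_inj2 (i := i)
  rw [← phi_inr, h1, phi_Ga, Ga_n2]
  apply Gm_ext <;> simp [p1]

theorem p1_X (φ : Gm i →ₗ[Rg] Gm i) (j : ℕ) (x : FF) :
    p1 φ (algebraMap Pol FF (X j) * x) = algebraMap Pol FF (X j) * p1 φ x := by
  by_cases h : j = i
  · subst h
    exact p1_Xi φ x
  · have hs : algebraMap Pol FF (sp j) ≠ 0 := fun hh =>
      sp_ne_zero j ((map_eq_zero_iff _ io_inj).1 hh)
    have h1 := p1_Ga φ ⟨_, sp_mem j⟩ (x / algebraMap Pol FF (sp j))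
    have h2 := p1_Ga φ ⟨_, xsp_mem j⟩ (x / algebraMap Pol FF (sp j))
    simp only [map_mul, ev_sp_ne h, ev_X_ne h] at h1 h2
    have h3 : algebraMap Pol FF (sp j) * (x / algebraMap Pol FF (sp j)) = x :=
      mul_div_cancel₀ x hs
    rw [h3] at h1
    rw [mul_assoc, h3] at h2
    rw [h2, h1]
    ring

theorem p1_Pol (φ : Gm i →ₗ[Rg] Gm i) (f : Pol) : ∀ x : FF,
    p1 φ (algebraMap Pol FF f * x) = algebraMap Pol FF f * p1 φ x := by
  induction f using MvPolynomial.induction_on with
  | C a =>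
    intro x
    have h1 := p1_Ga φ (algebraMap ℚ Agl a) x
    have h2 : ev i 0 ((algebraMap ℚ Agl a : Agl) : Pol) = C a := by
      show ev i 0 (algebraMap ℚ Pol a) = C a
      rw [AlgHom.commutes]
      rfl
    rw [h2] at h1
    exact h1
  | add p q hp hq =>
    intro x
    rw [map_add, add_mul, add_mul, p1_add, hp, hq]
  | mul_X p j hp =>
    intro x
    rw [map_mul, mul_assoc, hp, p1_X, mul_assoc]

theorem p1_eq (φ : Gm i →ₗ[Rg] Gm i) (y : FF) : p1 φ y = y * p1 φ 1 := by
  obtain ⟨a, b, hb, rfl⟩ := IsFractionRing.div_surjective (A := Pol) y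
  have hb0 : algebraMap Pol FF b ≠ 0 := fun h =>
    (nonZeroDivisors.ne_zero hb) ((map_eq_zero_iff _ io_inj).1 h)
  have h1 := p1_Pol φ b (algebraMap Pol FF a / algebraMap Pol FF b)
  rw [mul_div_cancel₀ _ hb0] at h1
  have h2 := p1_Pol φ a 1
  rw [mul_one] at h2
  rw [h2] at h1
  field_simp
  rw [h1]

theorem idem_zero (φ : Gm i →ₗ[Rg] Gm i) (h : ∀ g, φ (φ g) = φ g) (hu : p1 φ 1 = 0) (g : Gm i) :
    φ g = 0 := by
  have h1 : ∀ x, p1 φ x = 0 := fun x => by rw [p1_eq, hu, mul_zero]
  have h2 : ∀ x, φ (mk i 0 x) = 0 := fun x => by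
    rw [phi_inr, h1]
    apply Gm_ext <;> simp
  have h3 : ∀ x, φ (mk i x 0) = 0 := fun x => by
    have h4 : φ (mk i x 0) = mk i 0 (sn (φ (mk i x 0))) := by
      apply Gm_ext
      · rw [fs_mk]
        exact h1 x
      · rw [sn_mk]
    rw [← h, h4]
    exact h2 _
  have h5 : g = mk i (fs g) 0 + mk i 0 (sn g) := by apply Gm_ext <;> simp
  rw [h5, map_add, h2, h3, add_zero]

theorem idem (φ : Gm i →ₗ[Rg] Gm i) (h : ∀ g, φ (φ g) = φ g) :
    (∀ g, φ g = 0) ∨ (∀ g, φ g = g) := by
  have h1 := h (mk i 0 1)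
  rw [phi_inr, phi_inr] at h1
  have h2 := mk_inj2 h1
  rw [p1_eq φ (p1 φ 1)] at h2
  have h3 : p1 φ 1 * (p1 φ 1 - 1) = 0 := by linear_combination h2
  rcases mul_eq_zero.1 h3 with h4 | h4
  · exact Or.inl (idem_zero φ h h4)
  · right
    intro g
    have h5 := idem_zero (LinearMap.id - φ) (fun g => by
      simp only [LinearMap.sub_apply, LinearMap.id_apply, map_sub, h]
      simp) (by
      have h6 : p1 (LinearMap.id - φ) 1 = 1 - p1 φ 1 := by
        unfold p1
        simp
      rw [h6]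
      linear_combination -h4) g
    simp only [LinearMap.sub_apply, LinearMap.id_apply] at h5
    exact (sub_eq_zero.1 h5).symm

/-- multiplication operators -/
noncomputable def mulE (d : Gm i) : Module.End Rg (Gm i) where
  toFun := fun g => d * g
  map_add' := fun g h => mul_add _ _ _
  map_smul' := fun r g => by
    rw [smul_def', smul_def', RingHom.id_apply]
    ring

theorem mulE_smul (d g : Gm i) : mulE d • g = d * g := rfl

/-- the radical submodule -/
def UU (i : ℕ) : Submodule (Module.End Rg (Gm i)) (Gm i) where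
  carrier := {g | fs g = 0}
  add_mem' := fun {a b} ha hb => by
    show fs (a + b) = 0
    have ha' : fs a = 0 := ha
    have hb' : fs b = 0 := hb
    rw [fs_add, ha', hb', add_zero]
  zero_mem' := fs_zero
  smul_mem' := fun φ g hg => by
    show fs (φ g) = 0
    have hg' : fs g = 0 := hg
    have h1 : g = mk i 0 (sn g) := by
      apply Gm_ext
      · rw [fs_mk, hg']
      · rw [sn_mk]
    rw [h1, phi_inr, fs_mk]

theorem mem_UU {g : Gm i} : g ∈ UU i ↔ fs g = 0 := Iff.rfl

theorem UU_simple : IsSimpleModule (Module.End Rg (Gm i)) (UU i) := by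
  rw [isSimpleModule_iff_toSpanSingleton_surjective]
  constructor
  · refine ⟨⟨⟨mk i 0 1, by rw [mem_UU, fs_mk]⟩, 0, fun h => ?_⟩⟩
    have h1 := congrArg (fun g : UU i => sn (g : Gm i)) h
    simp at h1
  · rintro ⟨x, hx⟩ hx0 ⟨y, hy⟩
    have hx' : fs x = 0 := hx
    have hy' : fs y = 0 := hy
    have hsx : sn x ≠ 0 := fun h => hx0 (by
      apply Subtype.ext
      apply Gm_ext
      · exact hx'
      · exact h)
    refine ⟨mulE (mk i (sn y / sn x) 0), ?_⟩
    rw [LinearMap.toSpanSingleton_apply]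
    apply Subtype.ext
    show mulE (mk i (sn y / sn x) 0) • x = y
    rw [mulE_smul]
    apply Gm_ext
    · simp [hx', hy']
    · simp only [sn_mul, fs_mk, sn_mk, zero_mul, add_zero]
      field_simp

theorem quot_simple : IsSimpleModule (Module.End Rg (Gm i)) (Gm i ⧸ UU i) := by
  rw [isSimpleModule_iff_toSpanSingleton_surjective]
  constructor
  · refine ⟨⟨Submodule.Quotient.mk (mk i 1 0), 0, fun h => ?_⟩⟩
    rw [Submodule.Quotient.mk_eq_zero, mem_UU, fs_mk] at h
    exact one_ne_zero h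
  · intro x hx0 y
    obtain ⟨g, rfl⟩ := Submodule.Quotient.mk_surjective _ x
    obtain ⟨h, rfl⟩ := Submodule.Quotient.mk_surjective _ y
    have hg : fs g ≠ 0 := fun hh => hx0 (by
      rw [Submodule.Quotient.mk_eq_zero]
      exact hh)
    refine ⟨mulE (mk i (fs h / fs g) 0), ?_⟩
    rw [LinearMap.toSpanSingleton_apply, ← Submodule.Quotient.mk_smul, mulE_smul,
      Submodule.Quotient.eq, mem_UU]
    simp only [fs_sub, fs_mul, fs_mk]
    field_simp
    ring

theorem length_two : Module.length (Module.End Rg (Gm i)) (Gm i) = 2 := by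
  have h0 : Module.length (Module.End Rg (Gm i)) (Gm i) =
      Module.length (Module.End Rg (Gm i)) (UU i) +
      Module.length (Module.End Rg (Gm i)) (Gm i ⧸ UU i) :=
    Module.length_eq_add_of_exact (R := Module.End Rg (Gm i)) (M := Gm i) (N := UU i)
      (P := Gm i ⧸ UU i) (Submodule.subtype (UU i)) (Submodule.mkQ (UU i))
      (Submodule.subtype_injective (UU i))
      (Submodule.mkQ_surjective (UU i)) (LinearMap.exact_subtype_mkQ (UU i))
  rw [h0, Module.length_eq_one_iff.2 UU_simple, Module.length_eq_one_iff.2 quot_simple]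
  rfl

/-- the map to polynomials in one distinguished variable -/
noncomputable def theta (i : ℕ) : Pol →ₐ[ℚ] Polynomial Pol :=
  aeval (fun j => if j = i then Polynomial.X else Polynomial.C (X j))

theorem theta_ev (i : ℕ) (f : Pol) : theta i (ev i 0 f) = Polynomial.C (ev i 0 f) := by
  induction f using MvPolynomial.induction_on with
  | C a =>
    rw [ev_C, ← MvPolynomial.algebraMap_eq, AlgHom.commutes]
    rfl
  | add p q hp hq => rw [map_add, map_add, map_add, hp, hq]
  | mul_X p j hp =>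
    rw [map_mul, map_mul, map_mul, hp]
    congr 1
    by_cases h : j = i
    · subst h
      rw [ev_X_self]
      simp
    · rw [ev_X_ne h]
      simp [theta, h]

/-- first projection as a ring map -/
noncomputable def fstR : DD →+* FF where
  toFun := TrivSqZeroExt.fst
  map_one' := rfl
  map_mul' := fun _ _ => rfl
  map_zero' := rfl
  map_add' := fun _ _ => rfl

theorem not_finite (i : ℕ) : ¬ Module.Finite Rg (Gm i) := by
  intro hfin
  set χ : Rg →+* FF := fstR.comp (Ph i) with hχ
  have hχa : ∀ a : Agl, χ (algebraMap Agl Rg a) = algebraMap Pol FF (ev i 0 (a : Pol)) := by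
    intro a
    rw [hχ, RingHom.comp_apply, Ph_algebraMap]
    exact fst_Gam i a
  have hfin2 : χ.Finite := by
    letI := χ.toAlgebra
    show Module.Finite Rg FF
    refine Module.Finite.of_surjective (M := Gm i)
      ({ toFun := fun g => fs g
         map_add' := fun g h => rfl
         map_smul' := fun r g => ?_ } : Gm i →ₗ[Rg] FF) ?_
    · rw [smul_def', fs_mul, RingHom.id_apply, Algebra.smul_def]
      rfl
    · intro x
      exact ⟨mk i x 0, fs_mk i x 0⟩
  obtain ⟨p, hp, hp0⟩ := hfin2.to_isIntegral (algebraMap Pol FF (X i))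
  obtain ⟨b, hb⟩ := IsLocalization.integerNormalization_map_to_map Sm p
  set q := IsLocalization.integerNormalization Sm p with hq
  -- the leading coefficient
  have hlead : q.coeff p.natDegree = (b : Agl) := by
    apply algebraMap_injective
    have h1 := congrArg (fun r => Polynomial.coeff r p.natDegree) hb
    simp only [Polynomial.coeff_map, Polynomial.coeff_smul] at h1
    rw [h1, Polynomial.coeff_natDegree, hp.leadingCoeff, Algebra.smul_def, mul_one]
  -- the relation
  have hrel : (q.map (((ev i 0).comp Agl.val).toRingHom)).eval (X i : Pol) = 0 := by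
    apply io_inj
    rw [map_zero]
    have h1 : Polynomial.eval₂ χ (algebraMap Pol FF (X i)) (q.map (algebraMap Agl Rg)) = 0 := by
      rw [hb]
      have h2 : (b : Agl) • p = Polynomial.C (algebraMap Agl Rg (b : Agl)) * p := by
        rw [Polynomial.C_mul', algebraMap_smul]
      rw [h2, Polynomial.eval₂_mul, hp0, mul_zero]
    rw [Polynomial.eval₂_map] at h1
    rw [← h1, Polynomial.eval_map, Polynomial.hom_eval₂]
    congr 1
    ext a
    exact (hχa a).symm
  have hrel2 := congrArg (theta i) hrel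
  rw [map_zero] at hrel2
  have h3 : theta i ((q.map (((ev i 0).comp Agl.val).toRingHom)).eval (X i : Pol)) =
      q.map (((ev i 0).comp Agl.val).toRingHom) := by
    have h4 : theta i ((q.map (((ev i 0).comp Agl.val).toRingHom)).eval (X i : Pol)) =
        (theta i : Pol →+* Polynomial Pol)
          ((q.map (((ev i 0).comp Agl.val).toRingHom)).eval (X i : Pol)) := rfl
    rw [h4, Polynomial.eval_map, Polynomial.hom_eval₂]
    have h5 : (theta i : Pol →+* Polynomial Pol) (X i) = Polynomial.X := by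
      simp [theta]
    rw [h5]
    have h6 : ((theta i : Pol →+* Polynomial Pol).comp (((ev i 0).comp Agl.val).toRingHom)) =
        (Polynomial.C : Pol →+* Polynomial Pol).comp (((ev i 0).comp Agl.val).toRingHom) := by
      ext1 a
      exact theta_ev i (a : Pol)
    rw [h6, ← Polynomial.eval₂_map, Polynomial.eval₂_C_X]
  rw [h3] at hrel2
  have h7 := congrArg (fun r => Polynomial.coeff r p.natDegree) hrel2
  simp only [Polynomial.coeff_map, Polynomial.coeff_zero] at h7
  rw [hlead] at h7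
  exact b.2 i h7

end generic

theorem generic_exists (i : ℕ) :
    ∃ (G : Type) (_ : AddCommGroup G) (_ : Module Rg G), Nontrivial G ∧
      (∀ p q : Submodule Rg G, IsCompl p q → p = ⊥ ∨ q = ⊥) ∧
      ¬ Module.Finite Rg G ∧
      Module.length (Module.End Rg G) G = 2 ∧
      (∀ g : G, (algebraMap Agl Rg ⟨sp i, sp_mem i⟩) ^ 2 • g = 0) ∧
      (∀ j, j ≠ i → ∀ g : G, algebraMap Agl Rg ⟨sp j, sp_mem j⟩ • g = 0 → g = 0) := by
  refine ⟨Gm i, inferInstance, inferInstance, ?_, ?_, not_finite i, length_two, ?_, ?_⟩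
  · refine ⟨⟨mk i 1 0, 0, fun h => ?_⟩⟩
    have := congrArg fs h
    simp at this
  · intro p q h
    have hid : ∀ g, p.projection q h (p.projection q h g) = p.projection q h g := by
      intro g
      have := Submodule.isIdempotentElem_projection h
      exact congrArg (fun φ : Gm i →ₗ[Rg] Gm i => φ g) this
    rcases idem _ hid with h1 | h1
    · left
      rw [← Submodule.range_projection h]
      rw [LinearMap.range_eq_bot]
      exact LinearMap.ext h1
    · right
      rw [← Submodule.ker_projection h]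
      rw [LinearMap.ker_eq_bot']
      intro g hg
      rw [h1] at hg
      exact hg
  · intro g
    rw [← map_pow, alg_smul]
    have h1 : Ga i (⟨sp i, sp_mem i⟩ ^ 2) = 0 := by
      have h2 : Ga i (⟨sp i, sp_mem i⟩ ^ 2) = Ga i ⟨sp i, sp_mem i⟩ * Ga i ⟨sp i, sp_mem i⟩ := by
        unfold Ga
        rw [map_pow, pow_two]
        rfl
      rw [h2]
      apply Gm_ext
      · simp [Ga_sp]
      · simp [Ga_sp]
    rw [h1, zero_mul]
  · intro j hj g hg
    rw [alg_smul] at hg
    have hs : algebraMap Pol FF (sp j) ≠ 0 := fun hh =>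
      sp_ne_zero j ((map_eq_zero_iff _ io_inj).1 hh)
    have h1 := congrArg fs hg
    have h2 := congrArg sn hg
    simp only [fs_mul, sn_mul, fs_zero, sn_zero, Ga_sp_ne hj] at h1 h2
    have h3 : fs g = 0 := (mul_eq_zero.1 h1).resolve_left hs
    rw [h3, mul_zero, add_zero] at h2
    have h4 : sn g = 0 := (mul_eq_zero.1 h2).resolve_left hs
    exact Gm_ext h3 h4

end Pool.Agent.Helper693.R4
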