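import Pool.Agent.Helper693.Gt.R1
import Pool.Agent.Helper693.Gt.R2
import Pool.Agent.Helper693.Gt.R3
import Pool.Agent.Helper693.Gt.A1
import Pool.Agent.Helper693.Gt.A3
import Pool.Agent.Helper693.Gt.NodeMain

/-! Primes of the ring, noetherianity, and endomorphism rings of generic modules -/

set_option autoImplicit false
set_option linter.unusedVariables false

namespace Pool.Agent.Helper693

open R1 R2 R3 A1 A3

theorem prime_eq (P : Ideal Rg) [P.IsPrime] (hP : P ≠ ⊥) : ∃ i, P = mR i := by
  obtain ⟨i, hi⟩ := exists_le_mR P hP
  exact ⟨i, le_antisymm hi (mR_le_of_prime i P hP hi)⟩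

theorem mR_fg (i : ℕ) : (mR i).FG := (mA_fg i).map _

instance : IsNoetherianRing Rg := by
  refine IsNoetherianRing.of_prime ?_
  intro P hP
  by_cases h : P = ⊥
  · rw [h]; exact Submodule.fg_bot
  · obtain ⟨i, rfl⟩ := prime_eq P h
    exact mR_fg i

section generic

variable {G : Type} [AddCommGroup G] [Module Rg G]

/-- multiplication by ring elements is linear over the endomorphism ring -/
noncomputable def rho (G : Type) [AddCommGroup G] [Module Rg G] :
    Rg →+* Module.End (Module.End Rg G) G :=
  Module.toModuleEnd (Module.End Rg G) (S := Rg) G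

theorem rho_apply (r : Rg) (g : G) : rho G r g = r • g := rfl

/-- an additive map commuting with everything yields a Fitting dichotomy -/
theorem ring_dichotomy [IsNoetherian (Module.End Rg G) G] [IsArtinian (Module.End Rg G) G]
    (hind : ∀ p q : Submodule Rg G, IsCompl p q → p = ⊥ ∨ q = ⊥) (r : Rg) :
    Function.Bijective (fun g : G => r • g) ∨ ∃ n : ℕ, r ^ n ∈ RingHom.ker (rho G) := by
  set f : Module.End (Module.End Rg G) G := rho G r with hf
  obtain ⟨n, hn⟩ := (LinearMap.eventually_isCompl_ker_pow_range_pow f).exists_forall_of_atTop
  have hn1 := hn (n + 1) (Nat.le_succ n)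
  have hc : IsCompl ((LinearMap.ker (f ^ (n + 1))).restrictScalars Rg)
      ((LinearMap.range (f ^ (n + 1))).restrictScalars Rg) := by
    constructor
    · rw [Submodule.disjoint_def]
      intro v h1 h2
      exact (Submodule.disjoint_def.1 hn1.disjoint) v h1 h2
    · rw [codisjoint_iff, Submodule.eq_top_iff']
      intro v
      have h1 : v ∈ LinearMap.ker (f ^ (n + 1)) ⊔ LinearMap.range (f ^ (n + 1)) := by
        rw [codisjoint_iff.1 hn1.codisjoint]; trivial
      rw [Submodule.mem_sup] at h1 ⊢
      exact h1
  rcases hind _ _ hc with h | h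
  · left
    have hk : LinearMap.ker (f ^ (n + 1)) = ⊥ := by
      rw [eq_bot_iff]
      intro v hv
      have : v ∈ (LinearMap.ker (f ^ (n + 1))).restrictScalars Rg := hv
      rw [h] at this
      exact this
    have hr : LinearMap.range (f ^ (n + 1)) = ⊤ := by
      have := codisjoint_iff.1 hn1.codisjoint
      rwa [hk, bot_sup_eq] at this
    constructor
    · intro a b hab
      rw [LinearMap.ker_eq_bot] at hk
      apply hk
      have h2 : f a = f b := hab
      rw [pow_succ, Module.End.mul_apply, Module.End.mul_apply, h2]
    · intro v
      rw [LinearMap.range_eq_top] at hr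
      obtain ⟨w, hw⟩ := hr v
      refine ⟨(f ^ n) w, ?_⟩
      show f ((f ^ n) w) = v
      rw [← hw, pow_succ', Module.End.mul_apply]
  · right
    refine ⟨n + 1, ?_⟩
    rw [RingHom.mem_ker, map_pow, ← hf]
    ext v
    have : (f ^ (n + 1)) v ∈ (LinearMap.range (f ^ (n + 1))).restrictScalars Rg :=
      LinearMap.mem_range_self _ v
    rw [h] at this
    exact this

theorem mem_ker_rho (r : Rg) : r ∈ RingHom.ker (rho G) ↔ ∀ g : G, r • g = 0 := by
  rw [RingHom.mem_ker]
  constructor
  · intro h g
    rw [← rho_apply, h]; rfl
  · intro h
    ext g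
    exact h g

theorem generic_pi (hnt : Nontrivial G)
    (hind : ∀ p q : Submodule Rg G, IsCompl p q → p = ⊥ ∨ q = ⊥)
    (hfin : ¬ Module.Finite Rg G) (hlen : Module.length (Module.End Rg G) G < ⊤) :
    ∃ n : ℕ, ∃ c : Equiv.Perm (Fin n) → ℤ, c 1 = 1 ∧
      ∀ x : Fin n → Module.End Rg G,
        ∑ σ : Equiv.Perm (Fin n), c σ • (List.ofFn (fun i => x (σ i))).prod = 0 := by
  classical
  have hfl : IsFiniteLength (Module.End Rg G) G := Module.length_ne_top_iff.1 hlen.ne
  rw [isFiniteLength_iff_isNoetherian_isArtinian] at hfl
  obtain ⟨hN, hA⟩ := hfl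
  -- the prime
  set P : Ideal Rg := (RingHom.ker (rho G)).radical with hPdef
  have hdich : ∀ r : Rg, r ∉ P → Function.Bijective (fun g : G => r • g) := by
    intro r hr
    rcases ring_dichotomy hind r with h | ⟨n, hn⟩
    · exact h
    · exact absurd ⟨n, hn⟩ hr
  have hPprime : P.IsPrime := by
    constructor
    · intro h
      have h1 : (1 : Rg) ∈ P := by rw [h]; trivial
      obtain ⟨n, hn⟩ := h1
      rw [one_pow, mem_ker_rho] at hn
      obtain ⟨g, hg⟩ := exists_ne (0 : G)
      exact hg (by simpa using hn g)
    · intro a b hab
      by_contra hcon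
      push Not at hcon
      obtain ⟨ha, hb⟩ := hcon
      obtain ⟨n, hn⟩ := hab
      rw [mem_ker_rho] at hn
      have h1 := hdich a ha
      have h2 : ∀ (k : ℕ) (g : G), a ^ k • g = 0 → g = 0 := by
        intro k
        induction k with
        | zero => intro g hg; simpa using hg
        | succ k ih =>
          intro g hg
          rw [pow_succ', mul_smul] at hg
          exact ih g (h1.1 (by simpa using hg))
      apply hb
      refine ⟨n, ?_⟩
      rw [mem_ker_rho]
      intro g
      apply h2 n
      rw [smul_smul, ← mul_pow]
      exact hn g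
  by_cases hP0 : P = ⊥
  · -- the torsion free case
    have hb : ∀ d : Rg, d ≠ 0 → Function.Bijective (fun g : G => d • g) := by
      intro d hd
      apply hdich
      rw [hP0]
      exact hd
    have hcomm := comm_of_bijective hb hind
    apply pi_of_commutators 1
    intro s t
    rw [List.ofFn_succ, List.prod_cons, hcomm (s 0) (t 0), sub_self, zero_mul]
  · obtain ⟨i, hi⟩ := prime_eq P hP0
    obtain ⟨n, hn⟩ := Ideal.exists_pow_le_of_le_radical_of_fg (le_of_eq hi.symm) (mR_fg i)
    obtain ⟨L, instL, lam, x, y, hxy, hcl⟩ := node_structure i n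
    -- the action of the quotient ring
    have hker : ∀ a ∈ (mR i) ^ n, algebraMap Rg (Module.End Rg G) a = 0 := by
      intro a ha
      ext g
      have := (mem_ker_rho (G := G) a).1 (hn ha) g
      simpa [Module.algebraMap_end_apply] using this
    let φ : Rg ⧸ (mR i) ^ n →+* Module.End Rg G := Ideal.Quotient.lift _ _ hker
    have hφ : ∀ (r : Rg) (g : G), φ (Ideal.Quotient.mk _ r) g = r • g := by
      intro r g
      show (Ideal.Quotient.lift _ _ hker) (Ideal.Quotient.mk _ r) g = r • g
      rw [Ideal.Quotient.lift_mk]
      rfl
    have hφc : ∀ (z : Rg ⧸ (mR i) ^ n) (s : Module.End Rg G), φ z * s = s * φ z := by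
      intro z s
      obtain ⟨r, rfl⟩ := Ideal.Quotient.mk_surjective z
      ext g
      rw [Module.End.mul_apply, Module.End.mul_apply, hφ, hφ, map_smul]
    letI algL : Algebra L (Module.End Rg G) :=
      RingHom.toAlgebra' (φ.comp lam) (fun c s => hφc (lam c) s)
    letI modL : Module L G := Module.compHom G (φ.comp lam)
    have hsm : ∀ (c : L) (g : G), c • g = φ (lam c) g := fun c g => rfl
    have hst : IsScalarTower L (Module.End Rg G) G := by
      constructor
      intro c s g
      rw [Algebra.smul_def]
      rfl
    let act' : Rg ⧸ (mR i) ^ n → Module.End (Module.End Rg G) G := fun z =>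
      { toFun := fun g => φ z g
        map_add' := fun a b => (φ z).map_add a b
        map_smul' := fun s g => by
          have := LinearMap.congr_fun (hφc z s) g
          exact this }
    have hact : ∀ z g, act' z g = φ z g := fun z g => rfl
    have hmul : ∀ z w, z * w = 0 → act' z * act' w = 0 := by
      intro z w h
      ext g
      rw [Module.End.mul_apply, hact, hact, ← Module.End.mul_apply, ← map_mul, h, map_zero]
      rfl
    -- stable subspaces are submodules
    have hsub : ∀ p : Submodule L G, (∀ g ∈ p, act' x g ∈ p) → (∀ g ∈ p, act' y g ∈ p) →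
        ∀ (r : Rg) (g : G), g ∈ p → r • g ∈ p := by
      intro p hx hy r g hg
      let B : Subring (Rg ⧸ (mR i) ^ n) :=
        { carrier := {z | ∀ g ∈ p, φ z g ∈ p}
          mul_mem' := by
            intro a b ha hb g hg
            rw [map_mul, Module.End.mul_apply]
            exact ha _ (hb _ hg)
          one_mem' := by
            intro g hg
            rw [map_one]; exact hg
          add_mem' := by
            intro a b ha hb g hg
            rw [map_add, LinearMap.add_apply]
            exact p.add_mem (ha _ hg) (hb _ hg)
          zero_mem' := by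
            intro g hg
            rw [map_zero]; exact p.zero_mem
          neg_mem' := by
            intro a ha g hg
            rw [map_neg, LinearMap.neg_apply]
            exact p.neg_mem (ha _ hg) }
      have hB : Subring.closure (Set.range lam ∪ {x, y}) ≤ B := by
        rw [Subring.closure_le]
        rintro z (⟨c, rfl⟩ | hz)
        · intro g hg
          exact p.smul_mem c hg
        · rcases hz with rfl | hz
          · exact hx
          · rw [Set.mem_singleton_iff] at hz
            rw [hz]
            exact hy
      rw [hcl] at hB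
      have h1 : Ideal.Quotient.mk ((mR i) ^ n) r ∈ B := hB (Subring.mem_top _)
      have h2 := h1 g hg
      rwa [hφ] at h2
    have hindL : ∀ p q : Submodule L G, (∀ g ∈ p, act' x g ∈ p) → (∀ g ∈ p, act' y g ∈ p) →
        (∀ g ∈ q, act' x g ∈ q) → (∀ g ∈ q, act' y g ∈ q) → IsCompl p q → p = ⊥ ∨ q = ⊥ := by
      intro p q hpx hpy hqx hqy hpq
      let p' : Submodule Rg G :=
        { carrier := p
          add_mem' := fun ha hb => p.add_mem ha hb
          zero_mem' := p.zero_mem
          smul_mem' := fun r g hg => hsub p hpx hpy r g hg }
      let q' : Submodule Rg G :=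
        { carrier := q
          add_mem' := fun ha hb => q.add_mem ha hb
          zero_mem' := q.zero_mem
          smul_mem' := fun r g hg => hsub q hqx hqy r g hg }
      have hc : IsCompl p' q' := by
        constructor
        · rw [Submodule.disjoint_def]
          intro v h1 h2
          exact (Submodule.disjoint_def.1 hpq.disjoint) v h1 h2
        · rw [codisjoint_iff, Submodule.eq_top_iff']
          intro v
          have h1 : v ∈ p ⊔ q := by
            rw [codisjoint_iff.1 hpq.codisjoint]; trivial
          rw [Submodule.mem_sup] at h1 ⊢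
          exact h1
      rcases hind p' q' hc with h | h
      · left
        rw [eq_bot_iff]
        intro v hv
        have : v ∈ p' := hv
        rw [h] at this
        exact this
      · right
        rw [eq_bot_iff]
        intro v hv
        have : v ∈ q' := hv
        rw [h] at this
        exact this
    rcases node_thm (L := L) (S := Module.End Rg G) (G := G) (act' x) (act' y)
      (hmul x y hxy) (hmul y x (by rw [mul_comm, hxy])) hindL with h | ⟨d, hd⟩
    · exfalso
      apply hfin
      obtain ⟨s, hs⟩ := h.fg_top
      refine ⟨⟨s, ?_⟩⟩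
      rw [Submodule.eq_top_iff']
      intro g
      have hg : g ∈ Submodule.span L (s : Set G) := by rw [hs]; trivial
      induction hg using Submodule.span_induction with
      | mem g hg => exact Submodule.subset_span hg
      | zero => exact Submodule.zero_mem _
      | add a b _ _ ha hb => exact Submodule.add_mem _ ha hb
      | smul c a _ ha =>
        obtain ⟨r, hr⟩ := Ideal.Quotient.mk_surjective (lam c)
        rw [hsm, ← hr, hφ]
        exact Submodule.smul_mem _ r ha
    · apply pi_of_commutators d
      intro s t
      ext g
      exact hd s t g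

end generic

end Pool.Agent.Helper693
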